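import Mathlib

set_option autoImplicit false

/-! Dense bipartite graphs that are unions of induced matchings. -/

open Finset

namespace Pool.Agent.W952.Dsg

variable {L : ℕ}

/-- indices of the matchings -/
abbrev Kp (L : ℕ) : Type :=
  Σ i : Fin L, ({j : Fin L // j ≠ i} → {ab : Fin L × Fin L // ab.1 ≠ ab.2})

/-- left ends -/
def lA (κ : Kp L) (t : Fin L) : Fin L → Fin L :=
  fun j => if h : j ≠ κ.1 then (κ.2 ⟨j, h⟩).1.1 else t

/-- right ends -/
def lB (κ : Kp L) (t : Fin L) : Fin L → Fin L :=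
  fun j => if h : j ≠ κ.1 then (κ.2 ⟨j, h⟩).1.2 else t

theorem lA_self (κ : Kp L) (t : Fin L) : lA κ t κ.1 = t := by simp [lA]

theorem lB_self (κ : Kp L) (t : Fin L) : lB κ t κ.1 = t := by simp [lB]

theorem lAB_ne (κ : Kp L) (s t : Fin L) (j : Fin L) (h : j ≠ κ.1) : lA κ s j ≠ lB κ t j := by
  unfold lA lB
  rw [dif_pos h, dif_pos h]
  exact (κ.2 ⟨j, h⟩).2

theorem induced {κ κ' : Kp L} {s t t' : Fin L} (hA : lA κ s = lA κ' t') (hB : lB κ t = lB κ' t') :
    s = t ∧ κ' = κ ∧ t' = s := by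
  have h1 : κ'.1 = κ.1 := by
    by_contra hne
    have h2 := lAB_ne κ s t κ'.1 hne
    rw [hA, hB, lA_self, lB_self] at h2
    exact h2 rfl
  obtain ⟨i, g⟩ := κ
  obtain ⟨i', g'⟩ := κ'
  simp only at h1
  subst h1
  have h2 : s = t' := by
    have := congrFun hA i'
    simpa [lA] using this
  have h3 : t = t' := by
    have := congrFun hB i'
    simpa [lB] using this
  refine ⟨h2.trans h3.symm, ?_, h2.symm⟩
  congr 1
  funext j
  have h4 := congrFun hA j.1
  have h5 := congrFun hB j.1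
  unfold lA at h4
  unfold lB at h5
  simp only [dif_pos j.2] at h4 h5
  exact Subtype.ext (Prod.ext h4.symm h5.symm)

theorem card_Kp : Fintype.card (Kp L) = L * (L * L - L) ^ (L - 1) := by
  have h1 : Fintype.card {ab : Fin L × Fin L // ab.1 ≠ ab.2} = L * L - L := by
    rw [Fintype.card_subtype]
    have h2 : univ.filter (fun ab : Fin L × Fin L => ab.1 ≠ ab.2) =
        (univ : Finset (Fin L)).offDiag := by
      ext ab
      simp
    rw [h2, Finset.offDiag_card, Finset.card_univ, Fintype.card_fin]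
  rw [Fintype.card_sigma]
  have h3 : ∀ i : Fin L, Fintype.card ({j : Fin L // j ≠ i} →
      {ab : Fin L × Fin L // ab.1 ≠ ab.2}) = (L * L - L) ^ (L - 1) := by
    intro i
    rw [Fintype.card_fun, h1]
    congr 1
    simp [Fintype.card_subtype_compl]
  rw [Finset.sum_congr rfl (fun i _ => h3 i), Finset.sum_const, Finset.card_univ,
    Fintype.card_fin, smul_eq_mul]

theorem euler_le (n : ℕ) (hn : 0 < n) : (n + 1) ^ n ≤ 4 * n ^ n := by
  have h1 : ((n : ℝ) + 1) ^ n ≤ 4 * (n : ℝ) ^ n := by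
    have hn' : (0 : ℝ) < n := by exact_mod_cast hn
    have h2 : ((n : ℝ) + 1) ≤ n * Real.exp (1 / n) := by
      have := Real.add_one_le_exp (1 / (n : ℝ))
      calc ((n : ℝ) + 1) = n * (1 / n + 1) := by field_simp; ring
        _ ≤ n * Real.exp (1 / n) := mul_le_mul_of_nonneg_left this hn'.le
    calc ((n : ℝ) + 1) ^ n ≤ (n * Real.exp (1 / n)) ^ n := pow_le_pow_left₀ (by positivity) h2 n
      _ = (n : ℝ) ^ n * Real.exp 1 := by
        rw [mul_pow, ← Real.exp_nat_mul]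
        congr 2
        field_simp
      _ ≤ (n : ℝ) ^ n * 4 := by
        apply mul_le_mul_of_nonneg_left _ (by positivity)
        have := Real.exp_one_lt_d9
        linarith
      _ = 4 * (n : ℝ) ^ n := by ring
  exact_mod_cast h1

theorem many (hL : 2 ≤ L) : L ^ L * L ^ L ≤ 4 * (Fintype.card (Kp L) * L) := by
  obtain ⟨n, rfl⟩ : ∃ n, L = n + 1 := ⟨L - 1, by omega⟩
  have hn : 0 < n := by omega
  rw [card_Kp]
  have h1 : (n + 1) * (n + 1) - (n + 1) = (n + 1) * n := by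
    rw [Nat.sub_eq_iff_eq_add (by nlinarith)]
    ring
  rw [h1, Nat.add_sub_cancel]
  have h2 := euler_le n hn
  calc (n + 1) ^ (n + 1) * (n + 1) ^ (n + 1) =
      (n + 1) * (n + 1) * ((n + 1) ^ n) * (n + 1) ^ n := by ring
    _ ≤ (n + 1) * (n + 1) * ((n + 1) ^ n) * (4 * n ^ n) := Nat.mul_le_mul_left _ h2
    _ = 4 * ((n + 1) * ((n + 1) * n) ^ n * (n + 1)) := by
      rw [mul_pow]; ring

/-- the design -/
theorem design (L : ℕ) (hL : 2 ≤ L) : ∃ M : ℕ, 0 < M ∧
    ∃ A B : (ZMod M × ZMod M) → Fin L → (Fin L → Fin L),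
      (∀ κ κ' s t t', A κ s = A κ' t' → B κ t = B κ' t' → s = t ∧ κ' = κ ∧ t' = s) ∧
      L ^ L * L ^ L ≤ 16 * (M * M * L) := by
  have hm := many hL
  set C := Fintype.card (Kp L) with hC
  have hC0 : 0 < C := by
    rw [Nat.pos_iff_ne_zero]
    intro h0
    rw [h0] at hm
    have : 0 < L ^ L := pow_pos (by omega) _
    nlinarith
  set M := Nat.sqrt C with hM
  have hM0 : 0 < M := by
    rw [hM, Nat.sqrt_pos]
    exact hC0
  have h1 : M * M ≤ C := Nat.sqrt_le C
  have h2 : C < (M + 1) * (M + 1) := Nat.lt_succ_sqrt C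
  have h3 : C ≤ 4 * (M * M) := by nlinarith
  haveI : NeZero M := ⟨hM0.ne'⟩
  have hcard : Fintype.card (ZMod M × ZMod M) ≤ Fintype.card (Kp L) := by
    rw [Fintype.card_prod, ZMod.card]
    exact h1
  obtain ⟨φ⟩ : Nonempty ((ZMod M × ZMod M) ↪ Kp L) := Function.Embedding.nonempty_of_card_le hcard
  refine ⟨M, hM0, fun κ => lA (φ κ), fun κ => lB (φ κ), ?_, ?_⟩
  · intro κ κ' s t t' hA hB
    obtain ⟨h4, h5, h6⟩ := induced hA hB
    exact ⟨h4, φ.injective h5, h6⟩
  · calc L ^ L * L ^ L ≤ 4 * (C * L) := hm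
      _ ≤ 4 * (4 * (M * M) * L) := Nat.mul_le_mul_left _ (Nat.mul_le_mul_right _ h3)
      _ = 16 * (M * M * L) := by ring

end Pool.Agent.W952.Dsg
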