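import Mathlib

set_option autoImplicit false

/-! Boolean systems of low degree with one solution have many solutions. -/

open Finset

namespace Pool.Agent.W952.RM

section

variable {ι : Type} [Fintype ι] [DecidableEq ι]

/-- a monomial -/
def mono (S : Finset ι) (x : ι → Bool) : ZMod 2 := if ∀ i ∈ S, x i = true then 1 else 0

/-- the polynomials of degree at most `D` -/
def P (ι : Type) [Fintype ι] [DecidableEq ι] (D : ℕ) : Submodule (ZMod 2) ((ι → Bool) → ZMod 2) :=
  Submodule.span (ZMod 2) (Set.range (fun S : {S : Finset ι // S.card ≤ D} => mono S.1))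

theorem mono_mem {S : Finset ι} {D : ℕ} (h : S.card ≤ D) : mono S ∈ P ι D :=
  Submodule.subset_span ⟨⟨S, h⟩, rfl⟩

theorem P_mono {D E : ℕ} (h : D ≤ E) : P ι D ≤ P ι E := by
  unfold P
  rw [Submodule.span_le]
  rintro _ ⟨S, rfl⟩
  exact mono_mem (S.2.trans h)

theorem mono_mul (S T : Finset ι) : mono S * mono T = mono (S ∪ T) := by
  funext x
  simp only [Pi.mul_apply, mono]
  by_cases h1 : ∀ i ∈ S, x i = true
  · by_cases h2 : ∀ i ∈ T, x i = true
    · rw [if_pos h1, if_pos h2, if_pos, one_mul]
      intro i hi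
      rw [Finset.mem_union] at hi
      rcases hi with hi | hi
      · exact h1 i hi
      · exact h2 i hi
    · rw [if_neg h2, mul_zero, if_neg]
      intro h
      exact h2 (fun i hi => h i (Finset.mem_union_right _ hi))
  · rw [if_neg h1, zero_mul, if_neg]
    intro h
    exact h1 (fun i hi => h i (Finset.mem_union_left _ hi))

theorem P_mul {D E : ℕ} {f g : (ι → Bool) → ZMod 2} (hf : f ∈ P ι D) (hg : g ∈ P ι E) :
    f * g ∈ P ι (D + E) := by
  have h1 := Submodule.mul_mem_mul hf hg
  unfold P at h1
  rw [Submodule.span_mul_span] at h1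
  refine (Submodule.span_le.mpr ?_) h1
  rintro _ ⟨_, ⟨S, rfl⟩, _, ⟨T, rfl⟩, rfl⟩
  simp only
  rw [mono_mul]
  exact mono_mem ((Finset.card_union_le _ _).trans (Nat.add_le_add S.2 T.2))

theorem one_mem (D : ℕ) : (1 : (ι → Bool) → ZMod 2) ∈ P ι D := by
  have : (1 : (ι → Bool) → ZMod 2) = mono (∅ : Finset ι) := by
    funext x
    simp [mono]
  rw [this]
  exact mono_mem (by simp)

theorem P_prod {Γ : Type} (s : Finset Γ) (F : Γ → (ι → Bool) → ZMod 2) (D : ℕ)
    (hF : ∀ γ ∈ s, F γ ∈ P ι D) : ∏ γ ∈ s, F γ ∈ P ι (D * s.card) := by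
  classical
  induction s using Finset.induction_on with
  | empty => simpa using one_mem 0
  | insert a s ha ih =>
    rw [Finset.prod_insert ha, Finset.card_insert_of_notMem ha]
    have h1 := P_mul (hF a (Finset.mem_insert_self _ _))
      (ih (fun γ hγ => hF γ (Finset.mem_insert_of_mem hγ)))
    refine P_mono ?_ h1
    rw [mul_add, mul_one, add_comm]

/-- the subcube sum of a monomial -/
theorem cube_sum (S T : Finset ι) (y : ι → Bool) (hT : T.card ≤ S.card) :
    ∑ x ∈ univ.filter (fun x : ι → Bool => ∀ i, i ∉ S → x i = y i), mono T x =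
      if T = S then 1 else 0 := by
  by_cases hTS : S ⊆ T
  · have hE : S = T := Finset.eq_of_subset_of_card_le hTS hT
    subst hE
    rw [if_pos rfl, Finset.sum_eq_single (fun i => if i ∈ S then true else y i)]
    · unfold mono
      rw [if_pos]
      intro i hi
      simp [hi]
    · intro x hx hne
      unfold mono
      rw [if_neg]
      intro h
      apply hne
      funext i
      rw [Finset.mem_filter] at hx
      by_cases hi : i ∈ S
      · simp [hi, h i hi]
      · simp [hi, hx.2 i hi]
    · intro h
      exfalso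
      apply h
      rw [Finset.mem_filter]
      refine ⟨Finset.mem_univ _, fun i hi => by simp [hi]⟩
  · rw [if_neg (fun h => hTS (by rw [h]))]
    obtain ⟨i, hiS, hiT⟩ := Finset.not_subset.mp hTS
    refine Finset.sum_involution (fun x _ => Function.update x i (!x i)) ?_ ?_ ?_ ?_
    · intro x _
      have h1 : mono T (Function.update x i (!x i)) = mono T x := by
        unfold mono
        have h2 : (∀ j ∈ T, Function.update x i (!x i) j = true) ↔ ∀ j ∈ T, x j = true := by
          refine forall₂_congr (fun j hj => ?_)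
          have : j ≠ i := fun h => hiT (h ▸ hj)
          rw [Function.update_of_ne this]
        simp only [h2]
      rw [h1]
      exact CharTwo.add_self_eq_zero _
    · intro x _ _ h
      have := congrFun h i
      simp at this
    · intro x hx
      rw [Finset.mem_filter] at hx ⊢
      refine ⟨Finset.mem_univ _, fun j hj => ?_⟩
      have : j ≠ i := fun h => hj (h ▸ hiS)
      rw [Function.update_of_ne this]
      exact hx.2 j hj
    · intro x _
      funext j
      by_cases hj : j = i
      · subst hj
        simp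
      · rw [Function.update_of_ne hj, Function.update_of_ne hj]

/-- the distance of the Reed-Muller code -/
theorem count {D : ℕ} {f : (ι → Bool) → ZMod 2} (hf : f ∈ P ι D) (hf0 : f ≠ 0) :
    2 ^ Fintype.card ι ≤ 2 ^ D * (univ.filter (fun x => f x ≠ 0)).card := by
  unfold P at hf
  rw [Submodule.mem_span_range_iff_exists_fun] at hf
  obtain ⟨c, hc⟩ := hf
  have hne : (univ.filter (fun S : {S : Finset ι // S.card ≤ D} => c S ≠ 0)).Nonempty := by
    by_contra hcon
    rw [Finset.not_nonempty_iff_eq_empty, Finset.filter_eq_empty_iff] at hcon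
    apply hf0
    rw [← hc]
    apply Finset.sum_eq_zero
    intro S hS
    have := hcon hS
    push Not at this
    rw [this, zero_smul]
  obtain ⟨S, hS, hmax⟩ := Finset.exists_max_image _ (fun S => S.1.card) hne
  rw [Finset.mem_filter] at hS
  have key : ∀ y : ι → Bool, ∃ x : ι → Bool, (∀ i, i ∉ S.1 → x i = y i) ∧ f x ≠ 0 := by
    intro y
    by_contra hcon
    push Not at hcon
    have h1 : ∑ x ∈ univ.filter (fun x : ι → Bool => ∀ i, i ∉ S.1 → x i = y i), f x = 0 := by
      apply Finset.sum_eq_zero
      intro x hx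
      rw [Finset.mem_filter] at hx
      exact hcon x hx.2
    rw [← hc] at h1
    simp only [Finset.sum_apply, Pi.smul_apply, smul_eq_mul] at h1
    rw [Finset.sum_comm] at h1
    simp only [← Finset.mul_sum] at h1
    rw [Finset.sum_eq_single S] at h1
    · rw [cube_sum _ _ _ le_rfl, if_pos rfl, mul_one] at h1
      exact hS.2 h1
    · intro T _ hTS
      by_cases hT : c T = 0
      · rw [hT, zero_mul]
      · rw [cube_sum _ _ _ (hmax T (by rw [Finset.mem_filter]; exact ⟨Finset.mem_univ _, hT⟩)),
          if_neg (fun h => hTS (Subtype.ext h)), mul_zero]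
    · intro h
      exact absurd (Finset.mem_univ _) h
  choose F hF1 hF2 using key
  let G : (ι → Bool) → {x // x ∈ univ.filter (fun x => f x ≠ 0)} × (S.1 → Bool) :=
    fun y => (⟨F y, by rw [Finset.mem_filter]; exact ⟨Finset.mem_univ _, hF2 y⟩⟩, fun i => y i)
  have hG : Function.Injective G := by
    intro y y' h
    simp only [G, Prod.mk.injEq, Subtype.mk.injEq] at h
    funext i
    by_cases hi : i ∈ S.1
    · exact congrFun h.2 ⟨i, hi⟩
    · rw [← hF1 y i hi, ← hF1 y' i hi, h.1]
  have hcard := Fintype.card_le_of_injective G hG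
  rw [Fintype.card_fun, Fintype.card_bool, Fintype.card_prod, Fintype.card_coe, Fintype.card_fun,
    Fintype.card_bool, Fintype.card_coe] at hcard
  calc 2 ^ Fintype.card ι ≤ (univ.filter (fun x => f x ≠ 0)).card * 2 ^ S.1.card := hcard
    _ ≤ (univ.filter (fun x => f x ≠ 0)).card * 2 ^ D :=
        Nat.mul_le_mul_left _ (Nat.pow_le_pow_right (by norm_num) S.2)
    _ = 2 ^ D * (univ.filter (fun x => f x ≠ 0)).card := by ring

/-- systems of equations of degree two that are solved by one point -/
theorem zeros {Γ : Type} [Fintype Γ] (F : Γ → (ι → Bool) → ZMod 2) (hF : ∀ γ, F γ ∈ P ι 2)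
    (x0 : ι → Bool) (h0 : ∀ γ, F γ x0 = 0) :
    2 ^ Fintype.card ι ≤ 2 ^ (2 * Fintype.card Γ) *
      (univ.filter (fun x : ι → Bool => ∀ γ, F γ x = 0)).card := by
  have h1 : ∏ γ : Γ, (1 + F γ) ∈ P ι (2 * Fintype.card Γ) :=
    P_prod univ (fun γ => 1 + F γ) 2 (fun γ _ => Submodule.add_mem _ (one_mem 2) (hF γ))
  have h2 : ∀ x, (∏ γ : Γ, (1 + F γ)) x ≠ 0 ↔ ∀ γ, F γ x = 0 := by
    intro x
    rw [Finset.prod_apply]
    rw [Finset.prod_ne_zero_iff]
    constructor
    · intro h γ
      have := h γ (Finset.mem_univ _)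
      simp only [Pi.add_apply, Pi.one_apply] at this
      revert this
      generalize F γ x = a
      revert a
      decide
    · intro h γ _
      simp [h γ]
  have h3 : ∏ γ : Γ, (1 + F γ) ≠ 0 := by
    intro h
    have := (h2 x0).mpr h0
    rw [h] at this
    exact this rfl
  have h4 := count h1 h3
  simp only [h2] at h4
  exact h4

end

end Pool.Agent.W952.RM
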