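import Pool.Agent.W952.MixW
import Pool.Agent.W952.RMb
import Pool.Agent.H822R5.LN.FST
import Pool.Agent.H822R5.LN.POS
import Pool.Agent.H554R2.Lin.Defs

set_option autoImplicit false

/-! The quadratic forms. -/

open Finset

namespace Pool.Agent.W952.Fr

open Pool.Agent.H822R5.LN Pool.Agent.W952.Mx
open Pool.Agent.H554R2.Sem Pool.Agent.H554R2.Lin

/-- the part of the index of a variable besides its rank -/
abbrev Rest (M m : ℕ) : Type :=
  (ZMod M × ZMod M) × ((ZMod m × ZMod m) × (ZMod m × ZMod m))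

/-- words, sum, type -/
abbrev Mu (p l : ℕ) : Type := (Wd l × Wd l × Wd l) × ({s : ℕ // s ∈ Sp p} × Bool)

section

variable {p M m l : ℕ} [NeZero M] [NeZero m]

/-- number of variables of a given rank -/
def nr (M m : ℕ) [NeZero M] [NeZero m] : ℕ := Fintype.card (Rest M m)

theorem nr_eq : nr M m = (M * M) * ((m * m) * (m * m)) := by
  unfold nr
  rw [Fintype.card_prod, Fintype.card_prod, Fintype.card_prod, Fintype.card_prod, ZMod.card,
    ZMod.card]

/-- the numbers of the variables -/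
noncomputable def ix (p M m : ℕ) [NeZero M] [NeZero m] :
    Fin (p * p) × Rest M m ≃ Fin (p * p * nr M m) :=
  (Equiv.prodCongr (Equiv.refl _) (Fintype.equivFin (Rest M m))).trans finProdFinEquiv

theorem ix_lt {t t' : Fin (p * p)} {ρ ρ' : Rest M m} (h : t < t') :
    ix p M m (t, ρ) < ix p M m (t', ρ') := by
  rw [Fin.lt_def]
  have h1 : ((ix p M m (t, ρ) : Fin _) : ℕ) = (Fintype.equivFin (Rest M m) ρ : ℕ) +
      nr M m * (t : ℕ) := rfl
  have h2 : ((ix p M m (t', ρ') : Fin _) : ℕ) = (Fintype.equivFin (Rest M m) ρ' : ℕ) +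
      nr M m * (t' : ℕ) := rfl
  rw [h1, h2]
  have h3 : (Fintype.equivFin (Rest M m) ρ : ℕ) < nr M m := (Fintype.equivFin (Rest M m) ρ).2
  have h4 : (t : ℕ) + 1 ≤ t' := h
  have h5 : nr M m * ((t : ℕ) + 1) ≤ nr M m * (t' : ℕ) := Nat.mul_le_mul_left _ h4
  have h6 : nr M m * ((t : ℕ) + 1) = nr M m * (t : ℕ) + nr M m := by ring
  omega

/-- the parity of the pairs of ones -/
def par (p s : ℕ) (ty : Bool) (bu bv : Fin (p * p) → Bool) : ZMod 2 :=
  ∑ e : Fin (p * p) × Fin (p * p),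
    if ((pos p e.1 + pos p e.2 = s ∧ ty = decide (e.1 < e.2)) ∧ bu e.1 = true) ∧ bv e.2 = true
      then 1 else 0

/-- the partner of a part of an index -/
def mv (μ : Mu p l) (ρ : Rest M m) : Rest M m :=
  (act2 M μ.1.1 ρ.1, act2 m μ.1.2.1 ρ.2.1, act2 m μ.1.2.2 ρ.2.2)

/-- the forms -/
noncomputable def Fm (γ : Mu p l × Rest M m) (x : Pt (p * p * nr M m)) : ZMod 2 :=
  par p γ.1.2.1.1 γ.1.2.2 (fun t => x (ix p M m (t, γ.2))) (fun t => x (ix p M m (t, mv γ.1 γ.2)))

theorem Fm_deg (γ : Mu p l × Rest M m) :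
    Fm (M := M) (m := m) γ ∈ RM.P (Fin (p * p * nr M m)) 2 := by
  have h : Fm (M := M) (m := m) γ = ∑ e : Fin (p * p) × Fin (p * p),
      if pos p e.1 + pos p e.2 = γ.1.2.1.1 ∧ γ.1.2.2 = decide (e.1 < e.2) then
        RM.mono {ix p M m (e.1, γ.2), ix p M m (e.2, mv γ.1 γ.2)} else 0 := by
    funext x
    rw [Finset.sum_apply]
    unfold Fm par
    apply Finset.sum_congr rfl
    intro e _
    by_cases h1 : pos p e.1 + pos p e.2 = γ.1.2.1.1 ∧ γ.1.2.2 = decide (e.1 < e.2)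
    · rw [if_pos h1]
      unfold RM.mono
      simp only [h1, true_and, Finset.mem_insert, Finset.mem_singleton, forall_eq_or_imp,
        forall_eq]
    · rw [if_neg h1, if_neg (fun h => h1 h.1.1)]
      rfl
  rw [h]
  apply Submodule.sum_mem
  intro e _
  split_ifs
  · exact RM.mono_mem Finset.card_le_two
  · exact Submodule.zero_mem _

theorem Fm_zero (γ : Mu p l × Rest M m) : Fm (M := M) (m := m) γ (fun _ => false) = 0 := by
  unfold Fm par
  apply Finset.sum_eq_zero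
  intro e _
  rw [if_neg]
  simp

/-- bits as elements of the field -/
def bz (b : Bool) : ZMod 2 := if b then 1 else 0

theorem bz_diff {b c : Bool} (h : b ≠ c) : bz b - bz c = 1 := by
  revert h
  cases b <;> cases c <;> simp [bz]

theorem par_sum (s : ℕ) (ty : Bool) (bu bv : Fin (p * p) → Bool) :
    par p s ty bu bv = ∑ e : Fin (p * p) × Fin (p * p),
      (if pos p e.1 + pos p e.2 = s ∧ ty = decide (e.1 < e.2) then 1 else 0) *
        (bz (bu e.1) * bz (bv e.2)) := by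
  unfold par
  apply Finset.sum_congr rfl
  intro e _
  by_cases h1 : pos p e.1 + pos p e.2 = s ∧ ty = decide (e.1 < e.2)
  · rw [if_pos h1, one_mul]
    unfold bz
    by_cases h2 : bu e.1 = true <;> by_cases h3 : bv e.2 = true <;> simp [h1, h2, h3]
  · rw [if_neg h1, if_neg (fun h => h1 h.1.1), zero_mul]

theorem cross (hp : 1 ≤ p) {A B : Finset (Fin (p * p * nr M m))} (hAB : Disjoint A B)
    {x0 x x' y y' : Pt (p * p * nr M m)}
    (hx : ∀ v, v ∉ A → x v = x0 v) (hx' : ∀ v, v ∉ A → x' v = x0 v)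
    (hy : ∀ v, v ∉ B → y v = x0 v) (hy' : ∀ v, v ∉ B → y' v = x0 v)
    (μ : Mu p l) (ρ : Rest M m) (t t' : Fin (p * p))
    (hs : pos p t + pos p t' = μ.2.1.1) (hty : μ.2.2 = decide (t < t'))
    (hu : ix p M m (t, ρ) ∈ A) (hv : ix p M m (t', mv μ ρ) ∈ B)
    (hxu : x (ix p M m (t, ρ)) ≠ x' (ix p M m (t, ρ)))
    (hxw : ∀ w < ix p M m (t, ρ), x w = x' w)
    (hyv : y (ix p M m (t', mv μ ρ)) ≠ y' (ix p M m (t', mv μ ρ)))
    (hyw : ∀ w < ix p M m (t', mv μ ρ), y w = y' w) :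
    ¬ (Fm (μ, ρ) (merge A x y) = 0 ∧ Fm (μ, ρ) (merge A x' y) = 0 ∧
      Fm (μ, ρ) (merge A x y') = 0 ∧ Fm (μ, ρ) (merge A x' y') = 0) := by
  rintro ⟨f1, f2, f3, f4⟩
  obtain ⟨hmono, -⟩ := TPOS.POS p hp
  have hz : ∀ (x y : Pt (p * p * nr M m)), (∀ v, v ∉ A → x v = x0 v) →
      (∀ v, v ∉ B → y v = x0 v) → ∀ w, bz (merge A x y w) = bz (x w) + bz (y w) - bz (x0 w) := by
    intro x y hx hy w
    unfold merge
    by_cases hw : w ∈ A
    · have hwB : w ∉ B := fun h => disjoint_left.1 hAB hw h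
      rw [if_pos hw, hy w hwB]
      ring
    · rw [if_neg hw, hx w hw]
      ring
  unfold Fm at f1 f2 f3 f4
  rw [par_sum] at f1 f2 f3 f4
  simp only [hz x y hx hy, hz x' y hx' hy, hz x y' hx hy', hz x' y' hx' hy'] at f1 f2 f3 f4
  set c : Fin (p * p) × Fin (p * p) → ZMod 2 := fun e =>
    (if pos p e.1 + pos p e.2 = μ.2.1.1 ∧ μ.2.2 = decide (e.1 < e.2) then 1 else 0) with hc
  have hsum : ∑ e : Fin (p * p) × Fin (p * p), c e *
      ((bz (x (ix p M m (e.1, ρ))) - bz (x' (ix p M m (e.1, ρ)))) *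
        (bz (y (ix p M m (e.2, mv μ ρ))) - bz (y' (ix p M m (e.2, mv μ ρ)))) +
      (bz (y (ix p M m (e.1, ρ))) - bz (y' (ix p M m (e.1, ρ)))) *
        (bz (x (ix p M m (e.2, mv μ ρ))) - bz (x' (ix p M m (e.2, mv μ ρ))))) = 0 := by
    have h5 := congrArg₂ (fun a b : ZMod 2 => a - b) (congrArg₂ (fun a b : ZMod 2 => a - b) f1 f2)
      (congrArg₂ (fun a b : ZMod 2 => a - b) f3 f4)
    simp only [← Finset.sum_sub_distrib, sub_zero] at h5
    rw [← h5]
    apply Finset.sum_congr rfl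
    intro e _
    ring
  rw [Finset.sum_eq_single (t, t')] at hsum
  · have h1 : c (t, t') = 1 := by
      rw [hc]
      simp only
      rw [if_pos ⟨hs, hty⟩]
    have h2 : y (ix p M m (t, ρ)) = y' (ix p M m (t, ρ)) := by
      have hB : ix p M m (t, ρ) ∉ B := fun h => disjoint_left.1 hAB hu h
      rw [hy _ hB, hy' _ hB]
    simp only at hsum
    rw [h1, bz_diff hxu, bz_diff hyv, h2] at hsum
    simp at hsum
  · rintro ⟨e, e'⟩ - hne
    by_cases hce : pos p e + pos p e' = μ.2.1.1 ∧ μ.2.2 = decide (e < e')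
    swap
    · rw [hc]
      simp only
      rw [if_neg hce, zero_mul]
    have hx0 : ∀ (e : Fin (p * p)) (ρ' : Rest M m), e < t →
        bz (x (ix p M m (e, ρ'))) - bz (x' (ix p M m (e, ρ'))) = 0 := by
      intro e ρ' he
      rw [hxw _ (ix_lt he), sub_self]
    have hy0 : ∀ (e : Fin (p * p)) (ρ' : Rest M m), e < t' →
        bz (y (ix p M m (e, ρ'))) - bz (y' (ix p M m (e, ρ'))) = 0 := by
      intro e ρ' he
      rw [hyw _ (ix_lt he), sub_self]
    have htyp : (e < e' ↔ t < t') := by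
      have := hce.2.symm.trans hty
      simpa using this
    rcases lt_trichotomy e t with h | h | h
    · -- e < t
      have h3 : t' < e' := by
        by_contra hcon
        rw [not_lt] at hcon
        have h4 := hmono e t h
        have h5 : pos p e' ≤ pos p t' := by
          rcases hcon.lt_or_eq with h6 | h6
          · exact (hmono e' t' h6).le
          · rw [h6]
        omega
      simp only
      rw [hx0 e ρ h, zero_mul, zero_add]
      by_cases h4 : t < t'
      · rw [hy0 e ρ (h.trans h4), zero_mul, mul_zero]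
      · have h5 : e' ≤ e := by
          rw [← not_lt, htyp]
          exact h4
        rw [hx0 e' (mv μ ρ) (h5.trans_lt h), mul_zero, mul_zero]
    · exfalso
      subst h
      apply hne
      have h3 : pos p e' = pos p t' := by omega
      congr 1
      rcases lt_trichotomy e' t' with h4 | h4 | h4
      · have := hmono e' t' h4
        omega
      · exact h4
      · have := hmono t' e' h4
        omega
    · -- t < e
      have h3 : e' < t' := by
        by_contra hcon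
        rw [not_lt] at hcon
        have h4 := hmono t e h
        have h5 : pos p t' ≤ pos p e' := by
          rcases hcon.lt_or_eq with h6 | h6
          · exact (hmono t' e' h6).le
          · rw [h6]
        omega
      simp only
      rw [hy0 e' (mv μ ρ) h3, mul_zero, zero_add]
      by_cases h4 : t < t'
      · have h5 : e < e' := htyp.mpr h4
        rw [hy0 e ρ (h5.trans h3), zero_mul, mul_zero]
      · have h5 : t' ≤ t := not_lt.mp h4
        rw [hx0 e' (mv μ ρ) (h3.trans_le h5), mul_zero, mul_zero]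
  · intro h
    exact absurd (Finset.mem_univ _) h

/-- the graph on the variables -/
theorem mix_var {q : ℕ} (hp : p.Prime) (hp3 : 3 ≤ p) (hpq : (2 * q) * (2 * q) < p)
    (hM : Mix (ZMod M × ZMod M) (fun u v => ∃ w : Wd l, v = act2 M w u) (2 * (2 * q)))
    (hm : Mix (ZMod m × ZMod m) (fun u v => ∃ w : Wd l, v = act2 m w u) (2 * (2 * (2 * q)))) :
    ∀ U W : Finset (Fin (p * p * nr M m)), p * p * nr M m ≤ q * U.card →
      p * p * nr M m ≤ q * W.card → ∃ (μ : Mu p l) (ρ : Rest M m) (t t' : Fin (p * p)),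
        pos p t + pos p t' = μ.2.1.1 ∧ μ.2.2 = decide (t < t') ∧ ix p M m (t, ρ) ∈ U ∧
        ix p M m (t', mv μ ρ) ∈ W := by
  classical
  have : Nonempty (Fin (p * p)) := ⟨⟨0, Nat.mul_pos hp.pos hp.pos⟩⟩
  have h1 := (parab hp hp3 hpq).prod (hM.prod (hm.prod hm))
  have h2 := h1.equiv (ix p M m).symm
  intro U W hU hW
  obtain ⟨u, hu, w, hw, h3, ⟨wK, h4⟩, ⟨wA, h5⟩, ⟨wB, h6⟩⟩ := h2 U W
    (by rwa [Fintype.card_fin]) (by rwa [Fintype.card_fin])
  obtain ⟨⟨t, ρ⟩, rfl⟩ := (ix p M m).surjective u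
  obtain ⟨⟨t', ρ'⟩, rfl⟩ := (ix p M m).surjective w
  simp only [Equiv.symm_apply_apply] at h3 h4 h5 h6
  refine ⟨((wK, wA, wB), (⟨_, h3⟩, decide (t < t'))), ρ, t, t', rfl, rfl, hu, ?_⟩
  have : mv (((wK, wA, wB), (⟨_, h3⟩, decide (t < t'))) : Mu p l) ρ = ρ' := by
    unfold mv
    simp only
    rw [← h4, ← h5, ← h6]
  rw [this]
  exact hw

/-- no large rectangles -/
theorem no_rect {q : ℕ} (hp : p.Prime) (hp3 : 3 ≤ p) (hpq : (2 * q) * (2 * q) < p)
    (hM : Mix (ZMod M × ZMod M) (fun u v => ∃ w : Wd l, v = act2 M w u) (2 * (2 * q)))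
    (hm : Mix (ZMod m × ZMod m) (fun u v => ∃ w : Wd l, v = act2 m w u) (2 * (2 * (2 * q))))
    (K : Finset (Pt (p * p * nr M m))) (a b g : ℕ) (hR : Nonempty (Rect K a b g))
    (hK : ∀ x ∈ K, ∀ γ : Mu p l × Rest M m, Fm γ x = 0)
    (ha : p * p * nr M m ≤ q * (a - g)) (hb : p * p * nr M m ≤ q * (b - g)) : False := by
  obtain ⟨R⟩ := hR
  obtain ⟨P, hPA, hPc, hP⟩ := TFST.FST _ R.A R.X R.x0 R.hX
  obtain ⟨Q, hQB, hQc, hQ⟩ := TFST.FST _ R.B R.Y R.x0 R.hY
  have hPa : a - g ≤ P.card := by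
    have h : 2 ^ a ≤ 2 ^ (g + P.card) := by
      rw [pow_add]
      exact le_trans R.nX (Nat.mul_le_mul_left _ hPc)
    have := (Nat.pow_le_pow_iff_right (by norm_num : 1 < 2)).mp h
    omega
  have hQb : b - g ≤ Q.card := by
    have h : 2 ^ b ≤ 2 ^ (g + Q.card) := by
      rw [pow_add]
      exact le_trans R.nY (Nat.mul_le_mul_left _ hQc)
    have := (Nat.pow_le_pow_iff_right (by norm_num : 1 < 2)).mp h
    omega
  obtain ⟨μ, ρ, t, t', h1, h2, h3, h4⟩ := mix_var (l := l) hp hp3 hpq hM hm P Q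
    (ha.trans (Nat.mul_le_mul_left _ hPa)) (hb.trans (Nat.mul_le_mul_left _ hQb))
  obtain ⟨x, hx, x', hx', hxu, hxl⟩ := hP _ h3
  obtain ⟨y, hy, y', hy', hyv, hyl⟩ := hQ _ h4
  exact cross (p := p) (M := M) (m := m) (l := l) hp.one_le R.disj (R.hX x hx) (R.hX x' hx')
    (R.hY y hy) (R.hY y' hy') μ ρ t t' h1 h2 (hPA h3) (hQB h4) hxu hxl hyv hyl
    ⟨hK _ (R.mem x hx y hy) _, hK _ (R.mem x' hx' y hy) _, hK _ (R.mem x hx y' hy') _,
      hK _ (R.mem x' hx' y' hy') _⟩

end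

end Pool.Agent.W952.Fr
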