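import Pool.Agent.W952.HubJ
import Pool.Agent.W952.Frm
import Pool.Agent.W952.Dsgn

set_option autoImplicit false
set_option linter.unusedSectionVars false

/-! The forms inside Hamiltonicity. -/

open Finset

namespace Pool.Agent.W952.Ap

open Pool.Agent.H822R5.LN Pool.Agent.W952.Mx Pool.Agent.W952.Fr Pool.Agent.W952.Hub
open Pool.Agent.H554R2.Sem

/-- names of the places in a row of the table -/
abbrev Xs (p : ℕ) : Type := Fin (p * p) → Fin (p * p)

/-- classes -/
inductive Cls (p l : ℕ)
  | L1 (role : Bool) (a : Xs p) (sg : Bool)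
  | W1 (wh : Bool) (w : Wd l)
  | R1 (role : Bool) (b : Xs p) (sg : Bool)
  | W2 (wh : Bool)

noncomputable instance decCls (p l : ℕ) : DecidableEq (Cls p l) := Classical.decEq _

/-- the classes as a sum type -/
def clsEquiv (p l : ℕ) : Cls p l ≃
    ((Bool × Xs p × Bool) ⊕ (Bool × Wd l)) ⊕ ((Bool × Xs p × Bool) ⊕ Bool) where
  toFun := fun x => match x with
    | .L1 role a sg => Sum.inl (Sum.inl (role, a, sg))
    | .W1 wh w => Sum.inl (Sum.inr (wh, w))
    | .R1 role b sg => Sum.inr (Sum.inl (role, b, sg))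
    | .W2 wh => Sum.inr (Sum.inr wh)
  invFun := fun x => match x with
    | Sum.inl (Sum.inl (role, a, sg)) => .L1 role a sg
    | Sum.inl (Sum.inr (wh, w)) => .W1 wh w
    | Sum.inr (Sum.inl (role, b, sg)) => .R1 role b sg
    | Sum.inr (Sum.inr wh) => .W2 wh
  left_inv := by rintro (_ | _ | _ | _) <;> rfl
  right_inv := by rintro ((_ | _) | (_ | _)) <;> rfl

instance (p l : ℕ) : Fintype (Cls p l) := Fintype.ofEquiv _ (clsEquiv p l).symm

theorem card_cls (p l : ℕ) : Fintype.card (Cls p l) =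
    8 * (p * p) ^ (p * p) + 2 * Fintype.card (Wd l) + 2 := by
  rw [Fintype.card_congr (clsEquiv p l), Fintype.card_sum, Fintype.card_sum, Fintype.card_sum,
    Fintype.card_prod Bool (Wd l), Fintype.card_prod Bool (Xs p × Bool),
    Fintype.card_prod (Xs p) Bool, Fintype.card_bool, Fintype.card_fun, Fintype.card_fin]
  ring

/-- configurations -/
structure Conf (p l M : ℕ) where
  /-- words, sum, type -/
  μ : Mu p l
  /-- third component -/
  κ : ZMod M × ZMod M
  /-- bits of the first factors -/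
  bu : Fin (p * p) → Bool
  /-- bits of the second factors -/
  bv : Fin (p * p) → Bool
  /-- the form is one -/
  h : Fr.par p μ.2.1.1 μ.2.2 bu bv ≠ 0

noncomputable instance decConf (p l M : ℕ) : DecidableEq (Conf p l M) := Classical.decEq _

noncomputable instance (p l M : ℕ) [NeZero M] : Fintype (Conf p l M) :=
  Fintype.ofInjective (fun c : Conf p l M => ((c.μ, c.κ), (c.bu, c.bv))) (by
    rintro ⟨μ, κ, bu, bv, h⟩ ⟨μ', κ', bu', bv', h'⟩ hc
    simp only [Prod.mk.injEq] at hc
    obtain ⟨⟨rfl, rfl⟩, rfl, rfl⟩ := hc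
    rfl)

/-- names of the matched classes -/
abbrev Jx (p : ℕ) : Type := (Bool × Fin (p * p)) ⊕ Bool

section

variable {p M m l : ℕ} [NeZero M] [NeZero m]

/-- the pair of selectors of a class -/
def selOf : Cls p l → Bool × Bool
  | .L1 role _ _ => (role, false)
  | .W1 wh _ => (false, wh)
  | .R1 role _ _ => (role, true)
  | .W2 wh => (true, wh)

/-- the third component -/
def kap (c : Conf p l M) (role : Bool) : ZMod M × ZMod M :=
  if role then act2 M c.μ.1.1 c.κ else c.κ

/-- the bits -/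
def bits (c : Conf p l M) (role : Bool) : Fin (p * p) → Bool := if role then c.bv else c.bu

/-- the words -/
def wrd (c : Conf p l M) (wh : Bool) : Wd l := if wh then c.μ.1.2.2 else c.μ.1.2.1

variable (A B : (ZMod M × ZMod M) → Fin (p * p) → Xs p)

/-- matched classes on the left -/
def mL (c : Conf p l M) : Jx p → Cls p l
  | Sum.inl (role, t) => .L1 role (A (kap c role) t) (bits c role t)
  | Sum.inr wh => .W1 wh (wrd c wh)

/-- matched classes on the right -/
def mR (c : Conf p l M) : Jx p → Cls p l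
  | Sum.inl (role, t) => .R1 role (B (kap c role) t) (bits c role t)
  | Sum.inr wh => .W2 wh

/-- left classes -/
def isl : Cls p l → Bool
  | .L1 _ _ _ => true
  | .W1 _ _ => true
  | .R1 _ _ _ => false
  | .W2 _ => false

open Classical in
/-- the data -/
noncomputable def Dt : Dat (Bool × Bool × Bool) (Conf p l M) (Cls p l) where
  s1 := fun x => ((selOf x).1, (selOf x).2, false)
  s2 := fun x => ((selOf x).1, (selOf x).2, true)
  lf := isl
  mt := fun c x => decide (∃ j, x = mL A c j ∨ x = mR B c j)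

/-- the entries of the tables -/
def Rx (x : Pt (p * p * nr M m)) :
    Cls p l → Cls p l → ZMod m × ZMod m → ZMod m × ZMod m → Prop
  | .L1 role a sg, .R1 role' b sg', v, v' =>
      role = role' ∧ sg = sg' ∧ ∃ κ t, a = A κ t ∧ b = B κ t ∧
        x (ix p M m (t, (κ, (v, v')))) = sg
  | .W1 wh w, .W2 wh', v, v' => wh = wh' ∧ v' = act2 m w v
  | _, _, _, _ => False

variable {A B}

/-- the matchings are induced -/
def Ind (A B : (ZMod M × ZMod M) → Fin (p * p) → Xs p) : Prop :=
  ∀ κ κ' s t t', A κ s = A κ' t' → B κ t = B κ' t' → s = t ∧ κ' = κ ∧ t' = s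

theorem par_par (h : Ind A B) : Par (Dt (l := l) A B) (mL A) (mR B) where
  iL := by
    rintro c (⟨role, t⟩ | wh) (⟨role', t'⟩ | wh') hj
    · simp only [mL, Cls.L1.injEq] at hj
      obtain ⟨rfl, h1, -⟩ := hj
      have := (h _ _ _ _ _ h1 rfl).1
      rw [this]
    · simp [mL] at hj
    · simp [mL] at hj
    · simp only [mL, Cls.W1.injEq] at hj
      rw [hj.1]
  iR := by
    rintro c (⟨role, t⟩ | wh) (⟨role', t'⟩ | wh') hj
    · simp only [mR, Cls.R1.injEq] at hj
      obtain ⟨rfl, h1, -⟩ := hj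
      have := (h (kap c role) (kap c role) t' t t' rfl h1).1
      rw [this]
    · simp [mR] at hj
    · simp [mR] at hj
    · simpa [mR] using hj
  lL := by
    rintro c (⟨role, t⟩ | wh) <;> rfl
  lR := by
    rintro c (⟨role, t⟩ | wh) <;> rfl
  mt := by
    intro c x
    simp [Dt]

theorem rx_unique (h : Ind A B) (x : Pt (p * p * nr M m)) (c : Conf p l M) (j j' : Jx p)
    (v v' : ZMod m × ZMod m) (hR : Rx A B x (mL A c j) (mR B c j') v v') : j = j' := by
  rcases j with ⟨role, t⟩ | wh <;> rcases j' with ⟨role', t'⟩ | wh'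
  · simp only [mL, mR, Rx] at hR
    obtain ⟨rfl, -, κ, s, h1, h2, -⟩ := hR
    rw [(h _ _ _ _ _ h1 h2).1]
  · exact hR.elim
  · exact hR.elim
  · simp only [mL, mR, Rx] at hR
    rw [hR.1]

theorem app (h : Ind A B) (x : Pt (p * p * nr M m)) :
    (∃ (c : Conf p l M) (val : Bool × Bool × Bool → ZMod m), ∀ j,
      Rx A B x (mL A c j) (mR B c j)
        (val ((Dt A B).s1 (mL A c j)), val ((Dt A B).s2 (mL A c j)))
        (val ((Dt A B).s1 (mR B c j)), val ((Dt A B).s2 (mR B c j)))) ↔
      ∃ γ : Mu p l × Rest M m, Fm γ x ≠ 0 := by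
  constructor
  · rintro ⟨⟨μ, κ, bu, bv, hc⟩, val, hj⟩
    set ρ : Rest M m := (κ, ((val (false, false, false), val (false, false, true)),
      (val (false, true, false), val (false, true, true)))) with hρ
    refine ⟨(μ, ρ), ?_⟩
    have h1 := hj (Sum.inr false)
    have h2 := hj (Sum.inr true)
    simp only [mL, mR, Rx, Dt, selOf, wrd, true_and, if_true, Bool.false_eq_true, if_false]
      at h1 h2
    have hmv : mv μ ρ = (act2 M μ.1.1 κ, ((val (true, false, false), val (true, false, true)),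
        (val (true, true, false), val (true, true, true)))) := by
      unfold mv
      rw [hρ]
      simp only
      rw [h1, h2]
    have hu : (fun t => x (ix p M m (t, ρ))) = bu := by
      funext t
      have h3 := hj (Sum.inl (false, t))
      simp only [mL, mR, Rx, Dt, selOf, kap, bits, true_and, Bool.false_eq_true,
        if_false] at h3
      obtain ⟨κ', t', h4, h5, h6⟩ := h3
      obtain ⟨-, rfl, rfl⟩ := h _ _ _ _ _ h4 h5
      exact h6
    have hv : (fun t => x (ix p M m (t, mv μ ρ))) = bv := by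
      funext t
      have h3 := hj (Sum.inl (true, t))
      simp only [mL, mR, Rx, Dt, selOf, kap, bits, true_and, if_true] at h3
      obtain ⟨κ', t', h4, h5, h6⟩ := h3
      obtain ⟨-, rfl, rfl⟩ := h _ _ _ _ _ h4 h5
      rw [hmv]
      exact h6
    unfold Fm
    simp only
    rw [hu, hv]
    exact hc
  · rintro ⟨⟨μ, κ, sA, sB⟩, hγ⟩
    set ρ : Rest M m := (κ, (sA, sB)) with hρ
    refine ⟨⟨μ, κ, fun t => x (ix p M m (t, ρ)), fun t => x (ix p M m (t, mv μ ρ)), hγ⟩,
      fun i => match i with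
        | (false, false, false) => sA.1
        | (false, false, true) => sA.2
        | (false, true, false) => sB.1
        | (false, true, true) => sB.2
        | (true, false, false) => (act2 m μ.1.2.1 sA).1
        | (true, false, true) => (act2 m μ.1.2.1 sA).2
        | (true, true, false) => (act2 m μ.1.2.2 sB).1
        | (true, true, true) => (act2 m μ.1.2.2 sB).2, ?_⟩
    rintro (⟨_ | _, t⟩ | (_ | _))
    · simp only [mL, mR, Rx, Dt, selOf, kap, bits, true_and, Bool.false_eq_true, if_false]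
      exact ⟨κ, t, rfl, rfl, rfl⟩
    · simp only [mL, mR, Rx, Dt, selOf, kap, bits, true_and, if_true]
      exact ⟨act2 M μ.1.1 κ, t, rfl, rfl, rfl⟩
    · simp only [mL, mR, Rx, Dt, selOf, wrd, true_and, Bool.false_eq_true, if_false]
    · simp only [mL, mR, Rx, Dt, selOf, wrd, true_and, if_true]

/-- each entry of the table is a constant or a literal -/
theorem rx_lit (h : Ind A B) (a b : Cls p l) (v v' : ZMod m × ZMod m) :
    (∃ (u : Fin (p * p * nr M m)) (s : Bool), ∀ x, Rx A B x a b v v' ↔ x u = s) ∨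
      ∃ P : Prop, ∀ x : Pt (p * p * nr M m), Rx A B x a b v v' ↔ P := by
  rcases a with ⟨role, a, sg⟩ | ⟨wh, w⟩ | ⟨role, a, sg⟩ | wh <;>
    rcases b with ⟨role', b, sg'⟩ | ⟨wh', w'⟩ | ⟨role', b, sg'⟩ | wh'
  all_goals try exact Or.inr ⟨False, fun x => Iff.rfl⟩
  · by_cases h1 : role = role' ∧ sg = sg' ∧ ∃ κ t, a = A κ t ∧ b = B κ t
    · obtain ⟨h1, h2, κ, t, h3, h4⟩ := h1
      left
      refine ⟨ix p M m (t, (κ, (v, v'))), sg, fun x => ?_⟩
      simp only [Rx]
      constructor
      · rintro ⟨-, -, κ', t', h5, h6, h7⟩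
        obtain ⟨-, rfl, rfl⟩ := h _ _ _ _ _ (h3.symm.trans h5) (h4.symm.trans h6)
        exact h7
      · intro h5
        exact ⟨h1, h2, κ, t, h3, h4, h5⟩
    · right
      refine ⟨False, fun x => ?_⟩
      simp only [Rx]
      constructor
      · rintro ⟨h2, h3, κ, t, h4, h5, -⟩
        exact h1 ⟨h2, h3, κ, t, h4, h5⟩
      · intro h2
        exact h2.elim
  · exact Or.inr ⟨_, fun x => Iff.rfl⟩

/-- the input obtained from `x` by putting literals and constants -/
def subs {E : Type} {N : ℕ} (φ : E → (Fin N × Bool) ⊕ Bool) (x : Pt N) (e : E) : Bool :=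
  match φ e with
  | Sum.inl (u, s) => decide (x u = s)
  | Sum.inr c => c

/-- the forms inside Hamiltonicity -/
theorem fam (hp : 0 < p) (h : Ind A B) (hC : Nonempty (Conf p l M)) {n : ℕ}
    (hn : 3 * segN (Fintype.card (Rw (Bool × Bool × Bool) (ZMod m) (Conf p l M)))
      (Fintype.card (Ps (ZMod m) (Conf p l M) (Cls p l))) 1
      (Fintype.card (Lf (Bool × Bool × Bool) (ZMod m) (Conf p l M) (Cls p l)
        (Fintype.card (Cls p l) - Fintype.card (Jx p)))) ≤ n) :
    ∃ φ : Sym2 (Fin n) → (Fin (p * p * nr M m) × Bool) ⊕ Bool, ∀ x : Pt (p * p * nr M m),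
      ∃ G : SimpleGraph (Fin n), (∀ e, subs φ x e = true ↔ e ∈ G.edgeSet) ∧
        (G.IsHamiltonian ↔ ∃ γ : Mu p l × Rest M m, Fm γ x ≠ 0) := by
  classical
  have hJ : 0 < Fintype.card (Jx p) := Fintype.card_pos_iff.mpr ⟨Sum.inr false⟩
  obtain ⟨G, hG1, hG2⟩ := (par_par (l := l) h).place (V := ZMod m) hJ hC hn
  have hφ : ∀ e : Sym2 (Fin n), ∃ f : (Fin (p * p * nr M m) × Bool) ⊕ Bool,
      ∀ x : Pt (p * p * nr M m),
        (subs (fun _ : Sym2 (Fin n) => f) x e = true) ↔ e ∈ (G (Rx A B x)).edgeSet := by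
    intro e
    rcases hG1 e with ⟨a, b, v, v', h1⟩ | ⟨P, h1⟩
    · rcases rx_lit (l := l) h a b v v' with ⟨u, s, h2⟩ | ⟨P, h2⟩
      · exact ⟨Sum.inl (u, s), fun x => by simp [subs, h1, h2]⟩
      · exact ⟨Sum.inr (decide P), fun x => by simp [subs, h1, h2]⟩
    · exact ⟨Sum.inr (decide P), fun x => by simp [subs, h1]⟩
  choose φ hφ using hφ
  refine ⟨φ, fun x => ⟨G (Rx A B x), fun e => hφ e x, ?_⟩⟩
  rw [hG2 (Rx A B x) (fun c j j' v v' => rx_unique h x c j j' v v')]
  exact app h x

end

end Pool.Agent.W952.Ap
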