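import Mathlib

set_option autoImplicit false
set_option linter.unusedSectionVars false

/-! Formulas over the full binary basis and the number of their subfunctions. -/

namespace Pool.Agent.W952

/-- Formulas over the full binary basis: the leaves are variables and constants, the inner nodes
compute arbitrary functions of two bits. -/
inductive Formula (ι : Type) where
  | var (i : ι)
  | const (c : Bool)
  | gate (op : Bool → Bool → Bool) (φ ψ : Formula ι)

namespace Formula

variable {ι : Type}

/-- the value of a formula -/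
def eval : Formula ι → (ι → Bool) → Bool
  | var i, x => x i
  | const c, _ => c
  | gate op φ ψ, x => op (φ.eval x) (ψ.eval x)

/-- the number of leaves that are variables -/
def leaves : Formula ι → ℕ
  | var _ => 1
  | const _ => 0
  | gate _ φ ψ => φ.leaves + ψ.leaves

variable [DecidableEq ι]

/-- the number of leaves whose variable is in `S` -/
def leavesIn (S : Finset ι) : Formula ι → ℕ
  | var i => if i ∈ S then 1 else 0
  | const _ => 0
  | gate _ φ ψ => φ.leavesIn S + ψ.leavesIn S

theorem sum_leavesIn_le {β : Type*} (s : Finset β) (S : β → Finset ι)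
    (hd : ∀ a ∈ s, ∀ b ∈ s, a ≠ b → Disjoint (S a) (S b)) (φ : Formula ι) :
    ∑ a ∈ s, φ.leavesIn (S a) ≤ φ.leaves := by
  classical
  induction φ with
  | var i =>
    simp only [leavesIn, leaves]
    rw [Finset.sum_ite, Finset.sum_const_zero, add_zero, Finset.sum_const, smul_eq_mul, mul_one]
    rw [Finset.card_le_one]
    intro a ha b hb
    rw [Finset.mem_filter] at ha hb
    by_contra hne
    exact (Finset.disjoint_left.mp (hd a ha.1 b hb.1 hne)) ha.2 hb.2
  | const c => simp [leavesIn, leaves]
  | gate op φ ψ ih1 ih2 =>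
    simp only [leavesIn, leaves]
    rw [Finset.sum_add_distrib]
    exact add_le_add ih1 ih2

theorem eval_congr {S : Finset ι} (φ : Formula ι) (h : φ.leavesIn S = 0) (x y ρ : ι → Bool) :
    φ.eval (S.piecewise x ρ) = φ.eval (S.piecewise y ρ) := by
  induction φ with
  | var i =>
    simp only [leavesIn] at h
    split_ifs at h with hi
    simp [eval, hi]
  | const c => rfl
  | gate op φ ψ ih1 ih2 =>
    simp only [leavesIn] at h
    simp only [eval]
    rw [ih1 (by omega), ih2 (by omega)]

variable [Fintype ι]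

open Classical in
/-- the subfunctions on `S`, composed with unary functions -/
noncomputable def subs (S : Finset ι) (φ : Formula ι) : Finset ((ι → Bool) → Bool) :=
  Finset.univ.image (fun (p : (Bool → Bool) × (ι → Bool)) =>
    fun x => p.1 (φ.eval (S.piecewise x p.2)))

theorem mem_subs {S : Finset ι} {φ : Formula ι} {f : (ι → Bool) → Bool} :
    f ∈ subs S φ ↔ ∃ (u : Bool → Bool) (ρ : ι → Bool),
      f = fun x => u (φ.eval (S.piecewise x ρ)) := by
  classical
  unfold subs
  rw [Finset.mem_image]
  constructor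
  · rintro ⟨⟨u, ρ⟩, _, rfl⟩
    exact ⟨u, ρ, rfl⟩
  · rintro ⟨u, ρ, rfl⟩
    exact ⟨(u, ρ), Finset.mem_univ _, rfl⟩

theorem subs_gate_right {S : Finset ι} {op : Bool → Bool → Bool} {φ ψ : Formula ι}
    (h : φ.leavesIn S = 0) : subs S (gate op φ ψ) ⊆ subs S ψ := by
  intro f hf
  rw [mem_subs] at hf ⊢
  obtain ⟨u, ρ, rfl⟩ := hf
  refine ⟨fun c => u (op (φ.eval (S.piecewise (fun _ => false) ρ)) c), ρ, ?_⟩
  funext x
  simp only [eval]
  rw [eval_congr φ h x (fun _ => false) ρ]

theorem subs_gate_left {S : Finset ι} {op : Bool → Bool → Bool} {φ ψ : Formula ι}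
    (h : ψ.leavesIn S = 0) : subs S (gate op φ ψ) ⊆ subs S φ := by
  intro f hf
  rw [mem_subs] at hf ⊢
  obtain ⟨u, ρ, rfl⟩ := hf
  refine ⟨fun c => u (op c (ψ.eval (S.piecewise (fun _ => false) ρ))), ρ, ?_⟩
  funext x
  simp only [eval]
  rw [eval_congr ψ h x (fun _ => false) ρ]

theorem card_subs_gate (S : Finset ι) (op : Bool → Bool → Bool) (φ ψ : Formula ι) :
    (subs S (gate op φ ψ)).card ≤ 4 * ((subs S φ).card * (subs S ψ).card) := by
  classical
  have hsub : subs S (gate op φ ψ) ⊆
      ((Finset.univ : Finset (Bool → Bool)) ×ˢ (subs S φ ×ˢ subs S ψ)).image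
        (fun p => fun x => p.1 (op (p.2.1 x) (p.2.2 x))) := by
    intro f hf
    rw [mem_subs] at hf
    obtain ⟨u, ρ, rfl⟩ := hf
    rw [Finset.mem_image]
    refine ⟨(u, (fun x => φ.eval (S.piecewise x ρ)), (fun x => ψ.eval (S.piecewise x ρ))), ?_, ?_⟩
    · rw [Finset.mem_product, Finset.mem_product]
      refine ⟨Finset.mem_univ _, ?_, ?_⟩
      · rw [mem_subs]; exact ⟨id, ρ, rfl⟩
      · rw [mem_subs]; exact ⟨id, ρ, rfl⟩
    · rfl
  refine (Finset.card_le_card hsub).trans (Finset.card_image_le.trans ?_)
  rw [Finset.card_product, Finset.card_product]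
  simp

theorem card_subs (S : Finset ι) (φ : Formula ι) :
    (φ.leavesIn S = 0 → (subs S φ).card ≤ 2) ∧
      (0 < φ.leavesIn S → 4 * (subs S φ).card ≤ 16 ^ φ.leavesIn S) := by
  classical
  have hconst : ∀ (φ : Formula ι), φ.leavesIn S = 0 → (subs S φ).card ≤ 2 := by
    intro φ h
    have hsub : subs S φ ⊆ (Finset.univ : Finset Bool).image (fun c => fun _ => c) := by
      intro f hf
      rw [mem_subs] at hf
      obtain ⟨u, ρ, rfl⟩ := hf
      rw [Finset.mem_image]
      refine ⟨u (φ.eval (S.piecewise (fun _ => false) ρ)), Finset.mem_univ _, ?_⟩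
      funext x
      rw [eval_congr φ h x (fun _ => false) ρ]
    refine (Finset.card_le_card hsub).trans (Finset.card_image_le.trans ?_)
    simp
  refine ⟨hconst φ, ?_⟩
  induction φ with
  | var i =>
    intro h
    have hi : i ∈ S := by
      by_contra hi
      simp [leavesIn, hi] at h
    have hsub : subs S (var i) ⊆ (Finset.univ : Finset (Bool → Bool)).image
        (fun u => fun x => u (x i)) := by
      intro f hf
      rw [mem_subs] at hf
      obtain ⟨u, ρ, rfl⟩ := hf
      rw [Finset.mem_image]
      refine ⟨u, Finset.mem_univ _, ?_⟩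
      funext x
      simp [eval, hi]
    have := (Finset.card_le_card hsub).trans Finset.card_image_le
    simp only [Finset.card_univ, Fintype.card_fun, Fintype.card_bool] at this
    simp only [leavesIn, hi, if_true]
    omega
  | const c =>
    intro h
    simp [leavesIn] at h
  | gate op φ ψ ih1 ih2 =>
    intro h
    simp only [leavesIn] at h ⊢
    rcases Nat.eq_zero_or_pos (φ.leavesIn S) with h1 | h1
    · rw [h1, zero_add]
      have := Finset.card_le_card (subs_gate_right (op := op) (ψ := ψ) h1)
      have := ih2 (by omega)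
      omega
    · rcases Nat.eq_zero_or_pos (ψ.leavesIn S) with h2 | h2
      · rw [h2, add_zero]
        have := Finset.card_le_card (subs_gate_left (op := op) (φ := φ) h2)
        have := ih1 (by omega)
        omega
      · have e1 := ih1 h1
        have e2 := ih2 h2
        have e3 := card_subs_gate S op φ ψ
        rw [pow_add]
        calc 4 * (subs S (gate op φ ψ)).card
            ≤ 4 * (4 * ((subs S φ).card * (subs S ψ).card)) := by omega
          _ = (4 * (subs S φ).card) * (4 * (subs S ψ).card) := by ring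
          _ ≤ 16 ^ φ.leavesIn S * 16 ^ ψ.leavesIn S := Nat.mul_le_mul e1 e2

/-- if there are `2 ^ N` subfunctions on `S`, `N ≥ 2`, then at least `N / 4` leaves are in `S` -/
theorem le_leavesIn {S : Finset ι} {φ : Formula ι} {N : ℕ} (hN : 2 ≤ N)
    (h : 2 ^ N ≤ (subs S φ).card) : N ≤ 4 * φ.leavesIn S := by
  obtain ⟨h1, h2⟩ := card_subs S φ
  rcases Nat.eq_zero_or_pos (φ.leavesIn S) with h0 | h0
  · have := h1 h0
    have h4 : 2 ^ 2 ≤ 2 ^ N := Nat.pow_le_pow_right (by norm_num) hN
    omega
  · have h3 := h2 h0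
    have h4 : 2 ^ N ≤ 2 ^ (4 * φ.leavesIn S) := by
      calc 2 ^ N ≤ (subs S φ).card := h
        _ ≤ 4 * (subs S φ).card := by omega
        _ ≤ 16 ^ φ.leavesIn S := h3
        _ = 2 ^ (4 * φ.leavesIn S) := by rw [pow_mul]; norm_num
    exact (Nat.pow_le_pow_iff_right (by norm_num)).mp h4

end Formula

end Pool.Agent.W952
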