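import Pool.Agent.W952.Blocks
import Pool.Agent.W952.Fml

set_option autoImplicit false
set_option linter.unusedSectionVars false

/-! Formulas over the full binary basis for Hamiltonicity: the lower bound. -/

namespace Pool.Agent.W952

open Pool.Agent.H545R2

/-- `H` decides Hamiltonicity, in terms of assignments that describe graphs. -/
def DecX (n : ℕ) (H : (Sym2 (Fin n) → Bool) → Bool) : Prop :=
  ∀ (G : SimpleGraph (Fin n)) (x : Sym2 (Fin n) → Bool), (∀ e, x e = true ↔ e ∈ G.edgeSet) →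
    (H x = true ↔ G.IsHamiltonian)

/-- `H` has all subfunctions (of `m` bits) on `S`. -/
def HardOn {ι : Type} [DecidableEq ι] (m : ℕ) (S : Finset ι) (H : (ι → Bool) → Bool) : Prop :=
  ∃ (ρ : ((Fin m → Bool) → Bool) → (ι → Bool)) (X : (Fin m → Bool) → (ι → Bool)),
    ∀ T x, H (S.piecewise (X x) (ρ T)) = T x

theorem HardP.hardOn {n m : ℕ} {S : Finset (Sym2 (Fin n))} (h : HardP m S)
    {H : (Sym2 (Fin n) → Bool) → Bool} (hH : DecX n H) : HardOn m S H := by
  obtain ⟨ρ, X, hX⟩ := h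
  refine ⟨ρ, X, fun T x => ?_⟩
  obtain ⟨G, h1, h2⟩ := hX T x
  rw [Bool.eq_iff_iff, hH G _ h1, h2]

theorem top_ham {n : ℕ} (hn : 3 ≤ n) : (⊤ : SimpleGraph (Fin n)).IsHamiltonian := by
  apply isHamiltonian_of_list (List.finRange n) (List.nodup_finRange n)
    (fun v => List.mem_finRange v) (by simpa using hn)
  · refine (finRange_chain n).imp ?_
    intro i j h
    rw [SimpleGraph.top_adj]
    intro e
    rw [e] at h
    omega
  · intro x hx y hy
    rw [SimpleGraph.top_adj]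
    have h1 := finRange_getLast? n x hx
    have h2 := finRange_head? n y hy
    intro e
    rw [e] at h1
    omega

theorem bot_not_ham {n : ℕ} (hn : 3 ≤ n) : ¬ (⊥ : SimpleGraph (Fin n)).IsHamiltonian := by
  intro h
  obtain ⟨σ, h1, _⟩ := exists_perm_of_isHamiltonian (by simpa using hn) h
  exact h1 ⟨0, by omega⟩

/-- a function that decides Hamiltonicity is not constant -/
theorem DecX.not_const {n : ℕ} (hn : 3 ≤ n) {H : (Sym2 (Fin n) → Bool) → Bool} (h : DecX n H)
    (hc : ∀ x y, H x = H y) : False := by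
  classical
  have h1 := h ⊤ (fun e => decide (e ∈ (⊤ : SimpleGraph (Fin n)).edgeSet)) (fun e => by simp)
  have h2 := h ⊥ (fun e => decide (e ∈ (⊥ : SimpleGraph (Fin n)).edgeSet)) (fun e => by simp)
  exact bot_not_ham hn (h2.1 (by rw [hc _ (fun e => decide (e ∈ (⊤ : SimpleGraph (Fin n)).edgeSet)),
    h1.2 (top_ham hn)]))

theorem Formula.leaves_eq_leavesIn {ι : Type} [Fintype ι] [DecidableEq ι] (φ : Formula ι) :
    φ.leaves = φ.leavesIn Finset.univ := by
  induction φ with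
  | var i => simp [Formula.leaves, Formula.leavesIn]
  | const c => rfl
  | gate op φ ψ ih1 ih2 => simp [Formula.leaves, Formula.leavesIn, ih1, ih2]

theorem HardOn.card {ι : Type} [Fintype ι] [DecidableEq ι] {m : ℕ} {S : Finset ι}
    {φ : Formula ι} (h : HardOn m S φ.eval) : 2 ^ 2 ^ m ≤ (Formula.subs S φ).card := by
  classical
  obtain ⟨ρ, X, hX⟩ := h
  have hinj : Function.Injective (fun T : (Fin m → Bool) → Bool =>
      (fun x => φ.eval (S.piecewise x (ρ T)) : (ι → Bool) → Bool)) := by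
    intro T T' hT
    funext x
    rw [← hX T x, ← hX T' x]
    exact congrFun hT (X x)
  have h1 : Fintype.card ((Fin m → Bool) → Bool) = 2 ^ 2 ^ m := by simp
  rw [← h1, ← Finset.card_univ, ← Finset.card_image_of_injective _ hinj]
  apply Finset.card_le_card
  intro f hf
  rw [Finset.mem_image] at hf
  obtain ⟨T, _, rfl⟩ := hf
  rw [Formula.mem_subs]
  exact ⟨id, ρ T, rfl⟩

/-- numeric choice of the parameter -/
theorem choice {n : ℕ} (hn : 732 ≤ n) : ∃ g, 0 < g ∧ 183 * 4 ^ g ≤ n ∧ n ≤ 732 * 4 ^ g ∧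
    2 * g ≤ Nat.log 2 n := by
  have h1 : 0 < n / 183 := Nat.div_pos (by omega) (by norm_num)
  have h2 : 4 ^ Nat.log 4 (n / 183) ≤ n / 183 := Nat.pow_log_le_self 4 h1.ne'
  have h3 : n / 183 < 4 ^ (Nat.log 4 (n / 183) + 1) := Nat.lt_pow_succ_log_self (by norm_num) _
  have h4 : 1 ≤ Nat.log 4 (n / 183) := by
    apply (Nat.le_log_iff_pow_le (by norm_num) h1.ne').mpr
    omega
  have h5 : 183 * 4 ^ Nat.log 4 (n / 183) ≤ n := by omega
  refine ⟨Nat.log 4 (n / 183), h4, h5, ?_, ?_⟩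
  · rw [pow_succ] at h3
    omega
  · apply (Nat.le_log_iff_pow_le (by norm_num) (by omega)).mpr
    rw [pow_mul]
    norm_num
    have : 4 ^ Nat.log 4 (n / 183) ≤ 183 * 4 ^ Nat.log 4 (n / 183) := by omega
    omega

/-- the number of blocks -/
theorem blocks_many {n g : ℕ} (hg : 0 < g) (hn : 183 * 4 ^ g ≤ n) :
    n ^ 2 ≤ 128 * g * ((n / 3) * (n / 3 / (4 * g))) := by
  have h1 : g < 4 ^ g := Nat.lt_pow_self (by norm_num)
  have h2 : n ≤ 4 * (n / 3) := by omega
  have h3 : 4 * g ≤ n / 3 := by omega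
  have h4 : 1 ≤ n / 3 / (4 * g) := (Nat.one_le_div_iff (by omega)).mpr h3
  have h5 : n / 3 < 4 * g * (n / 3 / (4 * g) + 1) := by
    have := Nat.lt_mul_div_succ (n / 3) (show 0 < 4 * g by omega)
    simpa using this
  generalize n / 3 / (4 * g) = q at *
  generalize n / 3 = a at *
  have h6 : a ≤ 8 * g * q := by nlinarith
  nlinarith [Nat.mul_le_mul h2 h2, Nat.mul_le_mul_left a h6]

theorem formula_bound {n g : ℕ} (hg : 0 < g) (hn : 183 * 4 ^ g ≤ n)
    (φ : Formula (Sym2 (Fin n))) (h : DecX n φ.eval) :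
    (n / 3) * (n / 3 / (4 * g)) * 2 ^ (4 * g) ≤ 4 * φ.leaves := by
  classical
  have h1 : ∀ β : Fin (n / 3) × Fin (n / 3 / (4 * g)),
      2 ^ (4 * g) ≤ 4 * φ.leavesIn (blockP g β) := by
    intro β
    refine Formula.le_leavesIn ?_ ((hardP_block hg hn β).hardOn h).card
    calc 2 = 2 ^ 1 := by norm_num
      _ ≤ 2 ^ (4 * g) := Nat.pow_le_pow_right (by norm_num) (by omega)
  have h2 := Formula.sum_leavesIn_le (Finset.univ : Finset (Fin (n / 3) × Fin (n / 3 / (4 * g))))
    (blockP g) (fun a _ b _ hab => blockP_disjoint hab) φ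
  calc (n / 3) * (n / 3 / (4 * g)) * 2 ^ (4 * g)
      = ∑ _β : Fin (n / 3) × Fin (n / 3 / (4 * g)), 2 ^ (4 * g) := by simp
    _ ≤ ∑ β : Fin (n / 3) × Fin (n / 3 / (4 * g)), 4 * φ.leavesIn (blockP g β) :=
        Finset.sum_le_sum (fun β _ => h1 β)
    _ = 4 * ∑ β : Fin (n / 3) × Fin (n / 3 / (4 * g)), φ.leavesIn (blockP g β) := by
        rw [Finset.mul_sum]
    _ ≤ 4 * φ.leaves := by omega

end Pool.Agent.W952
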