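import Pool.Agent.H554R2.Coin.Defs
import Pool.Agent.W952.FBound

set_option autoImplicit false
set_option linter.unusedSectionVars false

/-! Subfunctions of deterministic branching programs. -/

namespace Pool.Agent.W952

open Pool.Agent.H554R2.Coin

section

variable {ι : Type} [DecidableEq ι] (P : BP ι Bool) (S : Finset ι)

/-- the nodes that query a variable in `S` -/
def QN : Type := {s : P.State // ∃ i, i ∈ S ∧ ∃ nxt, P.node s = Sum.inl (i, nxt)}

variable {P S}

/-- the variable queried -/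
noncomputable def QN.var (v : QN P S) : ι := v.2.choose

theorem QN.var_mem (v : QN P S) : v.var ∈ S := v.2.choose_spec.1

/-- the successors -/
noncomputable def QN.nxt (v : QN P S) : Bool → P.State := v.2.choose_spec.2.choose

theorem QN.node_eq (v : QN P S) : P.node v.1 = Sum.inl (v.var, v.nxt) :=
  v.2.choose_spec.2.choose_spec

/-- the node where the computation from `s` stops if only variables outside `S` are read -/
def Stop (P : BP ι Bool) (S : Finset ι) (ρ : ι → Bool) (s : P.State) : QN P S ⊕ Bool → Prop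
  | Sum.inl v => ∃ l, P.Walk ρ s l v.1 ∧ ∀ i ∈ l, i ∉ S
  | Sum.inr b => ∃ l v, P.Walk ρ s l v ∧ (∀ i ∈ l, i ∉ S) ∧ P.node v = Sum.inr b

theorem stop_self (ρ : ι → Bool) (v : QN P S) : Stop P S ρ v.1 (Sum.inl v) :=
  ⟨[], rfl, by simp⟩

theorem stop_sink (ρ : ι → Bool) {s : P.State} {b : Bool} (h : P.node s = Sum.inr b) :
    Stop P S ρ s (Sum.inr b) := ⟨[], s, rfl, by simp, h⟩

theorem walk_nil_of_stop {ρ : ι → Bool} {s v : P.State} {l : List ι} (h : P.Walk ρ s l v)
    (hl : ∀ i ∈ l, i ∉ S)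
    (hs : (∃ i, i ∈ S ∧ ∃ nxt, P.node s = Sum.inl (i, nxt)) ∨ ∃ b, P.node s = Sum.inr b) :
    s = v := by
  cases l with
  | nil => exact h
  | cons i l =>
    exfalso
    obtain ⟨nxt, h1, _⟩ := h
    rcases hs with ⟨j, hj, nxt', h2⟩ | ⟨b, h2⟩
    · rw [h1] at h2
      simp only [Sum.inl.injEq, Prod.mk.injEq] at h2
      exact hl i List.mem_cons_self (h2.1 ▸ hj)
    · rw [h1] at h2
      simp at h2

theorem walk_unique' {ρ : ι → Bool} {l : List ι} : ∀ {s v : P.State}, P.Walk ρ s l v →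
    (∀ i ∈ l, i ∉ S) →
    ((∃ i, i ∈ S ∧ ∃ nxt, P.node v = Sum.inl (i, nxt)) ∨ ∃ b, P.node v = Sum.inr b) →
    ∀ {l' : List ι} {v' : P.State}, P.Walk ρ s l' v' → (∀ i ∈ l', i ∉ S) →
    ((∃ i, i ∈ S ∧ ∃ nxt, P.node v' = Sum.inl (i, nxt)) ∨ ∃ b, P.node v' = Sum.inr b) →
    v = v' := by
  induction l with
  | nil =>
    intro s v h _ hv l' v' h' hl' _
    have e : s = v := h
    subst e
    exact walk_nil_of_stop h' hl' hv
  | cons i l ih =>
    intro s v h hl hv l' v' h' hl' hv'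
    obtain ⟨nxt, h1, h2⟩ := h
    cases l' with
    | nil =>
      have e : s = v' := h'
      subst e
      exact (walk_nil_of_stop (l := i :: l) ⟨nxt, h1, h2⟩ hl hv').symm
    | cons j l' =>
      obtain ⟨nxt', h1', h2'⟩ := h'
      rw [h1] at h1'
      simp only [Sum.inl.injEq, Prod.mk.injEq] at h1'
      obtain ⟨rfl, rfl⟩ := h1'
      exact ih h2 (fun j hj => hl j (List.mem_cons_of_mem _ hj)) hv h2'
        (fun j hj => hl' j (List.mem_cons_of_mem _ hj)) hv'

theorem stop_unique {ρ : ι → Bool} {s : P.State} {o o' : QN P S ⊕ Bool}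
    (h : Stop P S ρ s o) (h' : Stop P S ρ s o') : o = o' := by
  rcases o with v | b <;> rcases o' with v' | b'
  · obtain ⟨l, h1, h2⟩ := h
    obtain ⟨l', h1', h2'⟩ := h'
    have := walk_unique' h1 h2 (Or.inl v.2) h1' h2' (Or.inl v'.2)
    rw [Subtype.ext this]
  · exfalso
    obtain ⟨l, h1, h2⟩ := h
    obtain ⟨l', w, h1', h2', h3'⟩ := h'
    have := walk_unique' h1 h2 (Or.inl v.2) h1' h2' (Or.inr ⟨b', h3'⟩)
    have e := v.node_eq
    rw [this, h3'] at e
    simp at e
  · exfalso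
    obtain ⟨l, w, h1, h2, h3⟩ := h
    obtain ⟨l', h1', h2'⟩ := h'
    have := walk_unique' h1 h2 (Or.inr ⟨b, h3⟩) h1' h2' (Or.inl v'.2)
    have e := v'.node_eq
    rw [← this, h3] at e
    simp at e
  · obtain ⟨l, w, h1, h2, h3⟩ := h
    obtain ⟨l', w', h1', h2', h3'⟩ := h'
    have := walk_unique' h1 h2 (Or.inr ⟨b, h3⟩) h1' h2' (Or.inr ⟨b', h3'⟩)
    rw [this, h3'] at h3
    simp only [Sum.inr.injEq] at h3
    rw [h3]

open Classical in
/-- the jump function -/
noncomputable def jump (P : BP ι Bool) (S : Finset ι) (ρ : ι → Bool) (s : P.State) :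
    Option (QN P S ⊕ Bool) :=
  if h : ∃ o, Stop P S ρ s o then some h.choose else none

theorem jump_eq {ρ : ι → Bool} {s : P.State} {o : QN P S ⊕ Bool} (h : Stop P S ρ s o) :
    jump P S ρ s = some o := by
  unfold jump
  have h' : ∃ o, Stop P S ρ s o := ⟨o, h⟩
  rw [dif_pos h']
  rw [stop_unique h'.choose_spec h]

theorem stop_next {ρ : ι → Bool} {s : P.State} {i : ι} {nxt : Bool → P.State}
    (h : P.node s = Sum.inl (i, nxt)) (hi : i ∉ S) {o : QN P S ⊕ Bool}
    (ho : Stop P S ρ (nxt (ρ i)) o) : Stop P S ρ s o := by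
  rcases o with v | b
  · obtain ⟨l, h1, h2⟩ := ho
    exact ⟨i :: l, ⟨nxt, h, h1⟩, by simpa using ⟨hi, h2⟩⟩
  · obtain ⟨l, v, h1, h2, h3⟩ := ho
    exact ⟨i :: l, v, ⟨nxt, h, h1⟩, by simpa using ⟨hi, h2⟩, h3⟩

theorem stop_prev {ρ : ι → Bool} {s : P.State} {i : ι} {nxt : Bool → P.State}
    (h : P.node s = Sum.inl (i, nxt)) (hi : i ∉ S) {o : QN P S ⊕ Bool}
    (ho : Stop P S ρ s o) : Stop P S ρ (nxt (ρ i)) o := by
  rcases o with v | b
  · obtain ⟨l, h1, h2⟩ := ho
    cases l with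
    | nil =>
      exfalso
      have e : s = v.1 := h1
      have e2 := v.node_eq
      rw [← e, h] at e2
      simp only [Sum.inl.injEq, Prod.mk.injEq] at e2
      exact hi (e2.1 ▸ v.var_mem)
    | cons j l =>
      obtain ⟨nxt', h1', h2'⟩ := h1
      rw [h] at h1'
      simp only [Sum.inl.injEq, Prod.mk.injEq] at h1'
      obtain ⟨rfl, rfl⟩ := h1'
      exact ⟨l, h2', fun j hj => h2 j (List.mem_cons_of_mem _ hj)⟩
  · obtain ⟨l, v, h1, h2, h3⟩ := ho
    cases l with
    | nil =>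
      exfalso
      have e : s = v := h1
      rw [← e, h] at h3
      simp at h3
    | cons j l =>
      obtain ⟨nxt', h1', h2'⟩ := h1
      rw [h] at h1'
      simp only [Sum.inl.injEq, Prod.mk.injEq] at h1'
      obtain ⟨rfl, rfl⟩ := h1'
      exact ⟨l, v, h2', fun j hj => h2 j (List.mem_cons_of_mem _ hj), h3⟩

theorem jump_step {ρ : ι → Bool} {s : P.State} {i : ι} {nxt : Bool → P.State}
    (h : P.node s = Sum.inl (i, nxt)) (hi : i ∉ S) :
    jump P S ρ s = jump P S ρ (nxt (ρ i)) := by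
  by_cases h' : ∃ o, Stop P S ρ s o
  · obtain ⟨o, ho⟩ := h'
    rw [jump_eq ho, jump_eq (stop_prev h hi ho)]
  · have h'' : ¬ ∃ o, Stop P S ρ (nxt (ρ i)) o := by
      rintro ⟨o, ho⟩
      exact h' ⟨o, stop_next h hi ho⟩
    unfold jump
    rw [dif_neg h', dif_neg h'']

/-- the output in terms of the jump function -/
inductive Out (nx : QN P S → Bool → Option (QN P S ⊕ Bool)) (x : ι → Bool) :
    Option (QN P S ⊕ Bool) → Bool → Prop
  | sink (b : Bool) : Out nx x (some (Sum.inr b)) b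
  | query (v : QN P S) (b : Bool) : Out nx x (nx v (x v.var)) b → Out nx x (some (Sum.inl v)) b

theorem Out.unique {nx : QN P S → Bool → Option (QN P S ⊕ Bool)} {x : ι → Bool}
    {o : Option (QN P S ⊕ Bool)} {b b' : Bool} (h : Out nx x o b) (h' : Out nx x o b') :
    b = b' := by
  induction h with
  | sink b => cases h' with | sink => rfl
  | query v b _ ih => cases h' with | query _ _ h'' => exact ih h''

theorem out_of_walk (ρ x : ι → Bool) (l : List ι) : ∀ (s v : P.State) (b : Bool),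
    P.Walk (S.piecewise x ρ) s l v → P.node v = Sum.inr b →
    Out (fun v c => jump P S ρ (v.nxt c)) x (jump P S ρ s) b := by
  induction l with
  | nil =>
    intro s v b h hb
    have e : s = v := h
    subst e
    rw [jump_eq (stop_sink ρ hb)]
    exact .sink b
  | cons i l ih =>
    intro s v b h hb
    obtain ⟨nxt, h1, h2⟩ := h
    by_cases hi : i ∈ S
    · let q : QN P S := ⟨s, i, hi, nxt, h1⟩
      have e := q.node_eq
      have e' : P.node q.1 = Sum.inl (i, nxt) := h1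
      rw [e'] at e
      simp only [Sum.inl.injEq, Prod.mk.injEq] at e
      have hj : jump P S ρ s = some (Sum.inl q) := jump_eq (stop_self ρ q)
      rw [hj]
      apply Out.query
      rw [← e.1, ← e.2]
      rw [Finset.piecewise_eq_of_mem _ _ _ hi] at h2
      exact ih _ _ _ h2 hb
    · rw [jump_step h1 hi]
      rw [Finset.piecewise_eq_of_notMem _ _ _ hi] at h2
      exact ih _ _ _ h2 hb

noncomputable instance : Fintype (QN P S) := by
  classical
  exact Subtype.fintype _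

/-- the number of subfunctions -/
theorem card_bp {m : ℕ} (ρ : ((Fin m → Bool) → Bool) → (ι → Bool))
    (X : (Fin m → Bool) → (ι → Bool))
    (hP : ∀ T x, ∃ l, P.Comp (S.piecewise (X x) (ρ T)) l (T x)) :
    2 ^ 2 ^ m ≤ (Fintype.card (QN P S) + 3) ^ (2 * Fintype.card (QN P S) + 1) := by
  classical
  let F : ((Fin m → Bool) → Bool) →
      (Option (QN P S ⊕ Bool)) × (QN P S → Bool → Option (QN P S ⊕ Bool)) :=
    fun T => (jump P S (ρ T) P.start, fun v c => jump P S (ρ T) (v.nxt c))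
  have hF : Function.Injective F := by
    intro T T' hT
    funext x
    obtain ⟨l, v, h1, h2⟩ := hP T x
    obtain ⟨l', v', h1', h2'⟩ := hP T' x
    have e1 := out_of_walk (ρ T) (X x) l _ _ _ h1 h2
    have e2 := out_of_walk (ρ T') (X x) l' _ _ _ h1' h2'
    simp only [F, Prod.mk.injEq] at hT
    rw [hT.1, hT.2] at e1
    exact e1.unique e2
  have h1 := Fintype.card_le_of_injective F hF
  have h2 : Fintype.card ((Fin m → Bool) → Bool) = 2 ^ 2 ^ m := by simp
  rw [h2] at h1
  refine h1.trans (le_of_eq ?_)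
  simp only [Fintype.card_prod, Fintype.card_option, Fintype.card_sum, Fintype.card_bool,
    Fintype.card_fun]
  rw [← pow_mul, ← pow_succ']

end

/-- programs that decide Hamiltonicity -/
def BPDec (n : ℕ) (P : BP (Sym2 (Fin n)) Bool) : Prop :=
  ∀ (G : SimpleGraph (Fin n)) (x : Sym2 (Fin n) → Bool), (∀ e, x e = true ↔ e ∈ G.edgeSet) →
    ∃ (l : List (Sym2 (Fin n))) (b : Bool), P.Comp x l b ∧ (b = true ↔ G.IsHamiltonian)

theorem HardP.bp {n m : ℕ} {S : Finset (Sym2 (Fin n))} (h : HardP m S)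
    {P : BP (Sym2 (Fin n)) Bool} (hP : BPDec n P) :
    2 ^ 2 ^ m ≤ (Fintype.card (QN P S) + 3) ^ (2 * Fintype.card (QN P S) + 1) := by
  obtain ⟨ρ, X, hX⟩ := h
  apply card_bp ρ X
  intro T x
  obtain ⟨G, h1, h2⟩ := hX T x
  obtain ⟨l, b, h3, h4⟩ := hP G _ h1
  have : b = T x := by rw [Bool.eq_iff_iff, h4, h2]
  rw [this] at h3
  exact ⟨l, h3⟩

theorem sum_qn_le {ι β : Type} [DecidableEq ι] [Fintype β] (P : BP ι Bool) (S : β → Finset ι)
    (hd : ∀ a b, a ≠ b → Disjoint (S a) (S b)) :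
    ∑ a, Fintype.card (QN P (S a)) ≤ Fintype.card P.State := by
  classical
  rw [← Fintype.card_sigma]
  apply Fintype.card_le_of_injective (fun x : (Σ a, QN P (S a)) => x.2.1)
  rintro ⟨a, v⟩ ⟨a', v'⟩ h
  simp only at h
  have hi : v.var = v'.var := by
    have e1 := v.node_eq
    rw [h, v'.node_eq] at e1
    simp only [Sum.inl.injEq, Prod.mk.injEq] at e1
    exact e1.1.symm
  have ha : a = a' := by
    by_contra hne
    exact (Finset.disjoint_left.mp (hd a a' hne)) v.var_mem (hi ▸ v'.var_mem)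
  subst ha
  have : v = v' := Subtype.ext h
  rw [this]

/-- numeric consequence -/
theorem qn_large {g k : ℕ} (hg : 0 < g)
    (h : 2 ^ 2 ^ (4 * g) ≤ (k + 3) ^ (2 * k + 1)) : 2 ^ (4 * g) ≤ 15 * g * k := by
  have hY : 16 ≤ 2 ^ (4 * g) := by
    calc 16 = 2 ^ 4 := by norm_num
      _ ≤ 2 ^ (4 * g) := Nat.pow_le_pow_right (by norm_num) (by omega)
  rcases Nat.lt_or_ge (2 ^ (4 * g)) (k + 1) with hk | hk
  · calc 2 ^ (4 * g) ≤ k := by omega
      _ = 1 * k := (one_mul k).symm
      _ ≤ 15 * g * k := Nat.mul_le_mul_right _ (by omega)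
  · have h1 : k + 3 ≤ 2 ^ (4 * g + 1) := by
      rw [pow_succ]
      omega
    have h2 : 2 ^ 2 ^ (4 * g) ≤ 2 ^ ((4 * g + 1) * (2 * k + 1)) := by
      rw [pow_mul 2 (4 * g + 1) (2 * k + 1)]
      exact h.trans (Nat.pow_le_pow_left h1 _)
    have h3 : 2 ^ (4 * g) ≤ (4 * g + 1) * (2 * k + 1) :=
      (Nat.pow_le_pow_iff_right (by norm_num)).mp h2
    rcases Nat.eq_zero_or_pos k with hk0 | hk0
    · exfalso
      subst hk0
      have h4 : 4 * g + 2 ≤ 2 ^ (4 * g) := by
        have h5 : ∀ j : ℕ, 4 ≤ j → j + 2 ≤ 2 ^ j := by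
          intro j hj
          induction j, hj using Nat.le_induction with
          | base => norm_num
          | succ j hj ih => rw [pow_succ]; omega
        exact h5 _ (by omega)
      omega
    · calc 2 ^ (4 * g) ≤ (4 * g + 1) * (2 * k + 1) := h3
        _ ≤ (5 * g) * (3 * k) := Nat.mul_le_mul (by omega) (by omega)
        _ = 15 * g * k := by ring

theorem bp_bound {n g : ℕ} (hg : 0 < g) (hn : 183 * 4 ^ g ≤ n)
    (P : BP (Sym2 (Fin n)) Bool) (h : BPDec n P) :
    (n / 3) * (n / 3 / (4 * g)) * 2 ^ (4 * g) ≤ 15 * g * Fintype.card P.State := by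
  classical
  have h1 : ∀ β : Fin (n / 3) × Fin (n / 3 / (4 * g)),
      2 ^ (4 * g) ≤ 15 * g * Fintype.card (QN P (blockP g β)) :=
    fun β => qn_large hg ((hardP_block hg hn β).bp h)
  have h2 := sum_qn_le P (blockP (n := n) g) (fun a b hab => blockP_disjoint hab)
  calc (n / 3) * (n / 3 / (4 * g)) * 2 ^ (4 * g)
      = ∑ _β : Fin (n / 3) × Fin (n / 3 / (4 * g)), 2 ^ (4 * g) := by simp
    _ ≤ ∑ β : Fin (n / 3) × Fin (n / 3 / (4 * g)), 15 * g * Fintype.card (QN P (blockP g β)) :=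
        Finset.sum_le_sum (fun β _ => h1 β)
    _ = 15 * g * ∑ β : Fin (n / 3) × Fin (n / 3 / (4 * g)), Fintype.card (QN P (blockP g β)) := by
        rw [Finset.mul_sum]
    _ ≤ 15 * g * Fintype.card P.State := Nat.mul_le_mul_left _ h2

end Pool.Agent.W952
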