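import Pool.Agent.W952.Dec

set_option autoImplicit false
set_option linter.unusedSectionVars false

/-! Disjoint blocks of pairs on which Hamiltonicity has all subfunctions. -/

namespace Pool.Agent.W952

open Pool.Agent.H545R2

/-- Hamiltonicity has all subfunctions (of `m` bits) on the set `S` of pairs. -/
def HardP {n : ℕ} (m : ℕ) (S : Finset (Sym2 (Fin n))) : Prop :=
  ∃ (ρ : ((Fin m → Bool) → Bool) → (Sym2 (Fin n) → Bool))
    (X : (Fin m → Bool) → (Sym2 (Fin n) → Bool)), ∀ T x, ∃ G : SimpleGraph (Fin n),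
      (∀ e, S.piecewise (X x) (ρ T) e = true ↔ e ∈ G.edgeSet) ∧
        (G.IsHamiltonian ↔ T x = true)

theorem hardP_of_cherries {n g : ℕ} (hg : 0 < g) (hn : 183 * 4 ^ g ≤ n)
    (c : Fin (4 * g) → Fin n) (u : Fin (4 * g) × Bool → Fin n)
    (hc : Function.Injective c) (hu : Function.Injective u) (hcu : ∀ k k', c k ≠ u k') :
    HardP (4 * g) (Finset.univ.image (fun k : Fin (4 * g) × Bool => s(c k.1, u k))) := by
  classical
  let e : Fin 4 × Fin g ≃ Fin (4 * g) := finProdFinEquiv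
  obtain ⟨G, hG1, hG2, hG3⟩ := family (n := n) hg hn (fun k => c (e k))
    (fun k => u (e k.1, k.2)) (hc.comp e.injective)
    (by
      intro k k' h
      have := hu h
      simp only [Prod.mk.injEq, EmbeddingLike.apply_eq_iff_eq] at this
      exact Prod.ext this.1 this.2) (fun k k' => hcu _ _)
  let T' : ((Fin (4 * g) → Bool) → Bool) → ((Fin 4 × Fin g → Bool) → Prop) :=
    fun T x => T (fun i => x (e.symm i)) = true
  let ρ : ((Fin (4 * g) → Bool) → Bool) → (Sym2 (Fin n) → Bool) :=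
    fun T p => decide (p ∈ (G (T' T) (fun _ _ => False)).edgeSet)
  let X : (Fin (4 * g) → Bool) → (Sym2 (Fin n) → Bool) :=
    fun x p => decide (∃ k, p = s(c k, u (k, x k)))
  refine ⟨ρ, X, ?_⟩
  intro T x
  have hkey : (Finset.univ.image (fun k : Fin (4 * g) × Bool => s(c k.1, u k))).piecewise
      (X x) (ρ T) = fun p => decide (p ∈ (G (T' T) (fun k s => s = x (e k))).edgeSet) := by
    funext p
    by_cases hp : p ∈ Finset.univ.image (fun k : Fin (4 * g) × Bool => s(c k.1, u k))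
    · rw [Finset.piecewise_eq_of_mem _ _ _ hp]
      rw [Finset.mem_image] at hp
      obtain ⟨⟨k, s⟩, _, rfl⟩ := hp
      simp only [X]
      rw [decide_eq_decide, SimpleGraph.mem_edgeSet]
      have h1 := hG1 (T' T) (fun k s => s = x (e k)) (e.symm k) s
      simp only [Equiv.apply_symm_apply] at h1
      rw [h1]
      constructor
      · rintro ⟨k', hk'⟩
        rw [Sym2.eq_iff] at hk'
        rcases hk' with ⟨h1, h2⟩ | ⟨h1, h2⟩
        · have := hc h1
          subst this
          have := hu h2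
          simpa using this
        · exact absurd h1 (hcu _ _)
      · rintro rfl
        exact ⟨k, rfl⟩
    · rw [Finset.piecewise_eq_of_notMem _ _ _ hp]
      simp only [ρ]
      rw [decide_eq_decide]
      induction p using Sym2.ind with
      | _ v v' =>
        rw [SimpleGraph.mem_edgeSet, SimpleGraph.mem_edgeSet]
        have hv : ∀ (k : Fin 4 × Fin g) (s : Bool), ¬ (v = c (e k) ∧ v' = u (e k, s)) ∧
            ¬ (v' = c (e k) ∧ v = u (e k, s)) := by
          intro k s
          constructor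
          · rintro ⟨rfl, rfl⟩
            apply hp
            rw [Finset.mem_image]
            exact ⟨(e k, s), Finset.mem_univ _, rfl⟩
          · rintro ⟨rfl, rfl⟩
            apply hp
            rw [Finset.mem_image]
            exact ⟨(e k, s), Finset.mem_univ _, Sym2.eq_swap⟩
        exact ⟨hG2 _ _ _ _ _ hv, hG2 _ _ _ _ _ hv⟩
  rw [hkey]
  have h2 := hG3 (T' T) (fun k => x (e k))
  have h3 : T' T (fun k => x (e k)) ↔ T x = true := by
    simp only [T', Equiv.apply_symm_apply]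
  refine ⟨G (T' T) (fun k s => s = x (e k)), fun p => by simp, ?_⟩
  rw [h2, h3]

/-- centres -/
def cen {n : ℕ} (g : ℕ) (β : Fin (n / 3) × Fin (n / 3 / (4 * g))) (k : Fin (4 * g)) : Fin n :=
  ⟨β.2.val * (4 * g) + k.val, by
    have h1 := β.2.isLt
    have h2 := k.isLt
    have h3 : (n / 3) / (4 * g) * (4 * g) ≤ n / 3 := Nat.div_mul_le_self _ _
    have h4 : (β.2.val + 1) * (4 * g) ≤ (n / 3) / (4 * g) * (4 * g) :=
      Nat.mul_le_mul_right _ h1
    have h5 : (β.2.val + 1) * (4 * g) = β.2.val * (4 * g) + 4 * g := by ring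
    omega⟩

theorem cen_lt {n g : ℕ} (β : Fin (n / 3) × Fin (n / 3 / (4 * g))) (k : Fin (4 * g)) :
    (cen g β k).val < n / 3 := by
  have h1 := β.2.isLt
  have h2 := k.isLt
  have h3 : (n / 3) / (4 * g) * (4 * g) ≤ n / 3 := Nat.div_mul_le_self _ _
  have h4 : (β.2.val + 1) * (4 * g) ≤ (n / 3) / (4 * g) * (4 * g) :=
    Nat.mul_le_mul_right _ h1
  have h5 : (β.2.val + 1) * (4 * g) = β.2.val * (4 * g) + 4 * g := by ring
  simp only [cen]
  omega

/-- ends -/
def ed {n : ℕ} (g : ℕ) (β : Fin (n / 3) × Fin (n / 3 / (4 * g))) (k : Fin (4 * g) × Bool) : Fin n :=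
  ⟨n / 3 + 2 * (((cen g β k.1).val + β.1.val) % (n / 3)) + k.2.toNat, by
    have h1 := β.1.isLt
    have h2 : ((cen g β k.1).val + β.1.val) % (n / 3) < n / 3 := Nat.mod_lt _ (by omega)
    have h3 : k.2.toNat ≤ 1 := Bool.toNat_le _
    omega⟩

theorem cen_inj {n g : ℕ} {β β' : Fin (n / 3) × Fin (n / 3 / (4 * g))} {k k' : Fin (4 * g)}
    (h : cen g β k = cen g β' k') : β.2 = β'.2 ∧ k = k' := by
  have h1 : β.2.val * (4 * g) + k.val = β'.2.val * (4 * g) + k'.val := congrArg Fin.val h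
  have h2 := k.isLt
  have h3 := k'.isLt
  have h4 : (β.2.val * (4 * g) + k.val) / (4 * g) = β.2.val := by
    rw [mul_comm, Nat.mul_add_div (by omega), Nat.div_eq_of_lt h2, add_zero]
  have h5 : (β'.2.val * (4 * g) + k'.val) / (4 * g) = β'.2.val := by
    rw [mul_comm, Nat.mul_add_div (by omega), Nat.div_eq_of_lt h3, add_zero]
  have h6 : β.2.val = β'.2.val := by rw [← h4, h1, h5]
  refine ⟨Fin.ext h6, ?_⟩
  rw [h6] at h1
  ext
  omega

theorem ed_inj {n g : ℕ} {β β' : Fin (n / 3) × Fin (n / 3 / (4 * g))}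
    {k k' : Fin (4 * g) × Bool} (h : ed g β k = ed g β' k') :
    ((cen g β k.1).val + β.1.val) % (n / 3) = ((cen g β' k'.1).val + β'.1.val) % (n / 3) ∧
      k.2 = k'.2 := by
  have h1 := congrArg Fin.val h
  simp only [ed] at h1
  have h3 : k.2.toNat ≤ 1 := Bool.toNat_le _
  have h4 : k'.2.toNat ≤ 1 := Bool.toNat_le _
  refine ⟨by omega, ?_⟩
  have : k.2.toNat = k'.2.toNat := by omega
  revert this
  cases k.2 <;> cases k'.2 <;> simp

theorem mod_cancel {a x x' d : ℕ} (hx : x < a) (hx' : x' < a) (h : (x + d) % a = (x' + d) % a) :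
    x = x' := by
  have h1 : x + d ≡ x' + d [MOD a] := h
  have h2 : x ≡ x' [MOD a] := Nat.ModEq.add_right_cancel' d h1
  exact Nat.ModEq.eq_of_lt_of_lt h2 hx hx'

/-- the block of pairs -/
def blockP {n : ℕ} (g : ℕ) (β : Fin (n / 3) × Fin (n / 3 / (4 * g))) : Finset (Sym2 (Fin n)) :=
  Finset.univ.image (fun k : Fin (4 * g) × Bool => s(cen g β k.1, ed g β k))

theorem cen_ne_ed {n g : ℕ} (β β' : Fin (n / 3) × Fin (n / 3 / (4 * g))) (k : Fin (4 * g))
    (k' : Fin (4 * g) × Bool) : cen g β k ≠ ed g β' k' := by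
  intro h
  have h1 := cen_lt β k
  rw [h] at h1
  simp only [ed] at h1
  omega

theorem blockP_disjoint {n g : ℕ} {β β' : Fin (n / 3) × Fin (n / 3 / (4 * g))} (h : β ≠ β') :
    Disjoint (blockP g β) (blockP g β') := by
  rw [Finset.disjoint_left]
  intro p hp hp'
  unfold blockP at hp hp'
  rw [Finset.mem_image] at hp hp'
  obtain ⟨k, _, rfl⟩ := hp
  obtain ⟨k', _, he⟩ := hp'
  rw [Sym2.eq_iff] at he
  rcases he with ⟨h1, h2⟩ | ⟨h1, _⟩
  · obtain ⟨h3, h4⟩ := cen_inj h1
    obtain ⟨h5, _⟩ := ed_inj h2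
    rw [h1] at h5
    have h6 : β'.1.val = β.1.val := by
      apply mod_cancel β'.1.isLt β.1.isLt (d := (cen g β k.1).val)
      rw [add_comm, h5, add_comm]
    apply h
    exact Prod.ext (Fin.ext h6.symm) h3.symm
  · exact absurd h1 (cen_ne_ed _ _ _ _)

theorem hardP_block {n g : ℕ} (hg : 0 < g) (hn : 183 * 4 ^ g ≤ n)
    (β : Fin (n / 3) × Fin (n / 3 / (4 * g))) : HardP (4 * g) (blockP g β) := by
  apply hardP_of_cherries hg hn
  · intro k k' h
    exact (cen_inj h).2
  · intro k k' h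
    obtain ⟨h1, h2⟩ := ed_inj h
    have h3 := mod_cancel (cen_lt β k.1) (cen_lt β k'.1) h1
    have h4 := (cen_inj (Fin.ext h3)).2
    exact Prod.ext h4 h2
  · intro k k'
    exact cen_ne_ed _ _ _ _

end Pool.Agent.W952
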