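import Pool.Agent.W952.Appl

set_option autoImplicit false
set_option linter.unusedSectionVars false

/-! The forms inside the clique problem. -/

open Finset

namespace Pool.Agent.W952.Clq

open Pool.Agent.H822R5.LN Pool.Agent.W952.Mx Pool.Agent.W952.Fr Pool.Agent.W952.Hub
open Pool.Agent.W952.Ap
open Pool.Agent.H554R2.Sem

variable {p M m l : ℕ} [NeZero M] [NeZero m]

/-- the vertices -/
inductive Vt (p l M m K U : ℕ)
  | cl (a : Cls p l) (v : ZMod m × ZMod m)
  | cf (c : Conf p l M) (i : Fin K)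
  | un (u : Fin U)

/-- the vertices as a sum type -/
def vtEquiv (p l M m K U : ℕ) : Vt p l M m K U ≃
    (Cls p l × (ZMod m × ZMod m)) ⊕ ((Conf p l M × Fin K) ⊕ Fin U) where
  toFun := fun x => match x with
    | .cl a v => Sum.inl (a, v)
    | .cf c i => Sum.inr (Sum.inl (c, i))
    | .un u => Sum.inr (Sum.inr u)
  invFun := fun x => match x with
    | Sum.inl (a, v) => .cl a v
    | Sum.inr (Sum.inl (c, i)) => .cf c i
    | Sum.inr (Sum.inr u) => .un u
  left_inv := by rintro (_ | _ | _) <;> rfl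
  right_inv := by rintro (_ | (_ | _)) <;> rfl

noncomputable instance (K U : ℕ) : Fintype (Vt p l M m K U) :=
  Fintype.ofEquiv _ (vtEquiv p l M m K U).symm

noncomputable instance (K U : ℕ) : DecidableEq (Vt p l M m K U) := Classical.decEq _

theorem card_vt (K U : ℕ) : Fintype.card (Vt p l M m K U) =
    Fintype.card (Cls p l) * (m * m) + (Fintype.card (Conf p l M) * K + U) := by
  rw [Fintype.card_congr (vtEquiv p l M m K U), Fintype.card_sum, Fintype.card_sum,
    Fintype.card_prod (Cls p l), Fintype.card_prod (ZMod m), Fintype.card_prod (Conf p l M),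
    Fintype.card_fin, Fintype.card_fin, ZMod.card]

/-- there is a table for this pair of classes -/
def Mp (A B : (ZMod M × ZMod M) → Fin (p * p) → Xs p) : Cls p l → Cls p l → Prop
  | .L1 role a _, .R1 role' b _ => role = role' ∧ ∃ κ t, a = A κ t ∧ b = B κ t
  | .W1 wh _, .W2 wh' => wh = wh'
  | _, _ => False

/-- class `a` is matched in the configuration `c` -/
def In (A B : (ZMod M × ZMod M) → Fin (p * p) → Xs p) (c : Conf p l M) (a : Cls p l) : Prop :=
  ∃ j, a = mL A c j ∨ a = mR B c j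

/-- adjacency -/
def adj (A B : (ZMod M × ZMod M) → Fin (p * p) → Xs p) (x : Pt (p * p * nr M m)) {K U : ℕ} :
    Vt p l M m K U → Vt p l M m K U → Prop
  | .cl a v, .cl b w => a ≠ b ∧ (selOf a = selOf b → v = w) ∧
      (Mp A B a b → Rx A B x a b v w) ∧ (Mp A B b a → Rx A B x b a w v)
  | .cl a _, .cf c _ => In A B c a
  | .cf c _, .cl a _ => In A B c a
  | .cf c i, .cf c' i' => c = c' ∧ i ≠ i'
  | .un u, .un u' => u ≠ u'
  | .un _, _ => True
  | _, .un _ => True

/-- the graph -/
def Gr (A B : (ZMod M × ZMod M) → Fin (p * p) → Xs p) (x : Pt (p * p * nr M m)) (K U : ℕ) :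
    SimpleGraph (Vt p l M m K U) where
  Adj := adj A B x
  symm := by
    constructor
    rintro (⟨a, v⟩ | ⟨c, i⟩ | u) (⟨b, w⟩ | ⟨c', i'⟩ | u') h
    · exact ⟨h.1.symm, fun h1 => (h.2.1 h1.symm).symm, h.2.2.2, h.2.2.1⟩
    · exact h
    · exact h
    · exact h
    · exact ⟨h.1.symm, h.2.symm⟩
    · exact h
    · exact h
    · exact h
    · exact Ne.symm h
  loopless := by
    constructor
    rintro (⟨a, v⟩ | ⟨c, i⟩ | u) h
    · exact h.1 rfl
    · exact h.2 rfl
    · exact h rfl

variable {A B : (ZMod M × ZMod M) → Fin (p * p) → Xs p}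

theorem mp_unique (h : Ind A B) (c : Conf p l M) (j j' : Jx p)
    (hR : Mp A B (mL A c j) (mR B c j')) : j = j' := by
  rcases j with ⟨role, t⟩ | wh <;> rcases j' with ⟨role', t'⟩ | wh'
  · simp only [mL, mR, Mp] at hR
    obtain ⟨rfl, κ, s, h1, h2⟩ := hR
    rw [(h _ _ _ _ _ h1 h2).1]
  · exact hR.elim
  · exact hR.elim
  · simp only [mL, mR, Mp] at hR
    rw [hR]

theorem mp_self (c : Conf p l M) (j : Jx p) : Mp A B (mL A c j) (mR B c j) := by
  rcases j with ⟨role, t⟩ | wh
  · exact ⟨rfl, kap c role, t, rfl, rfl⟩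
  · exact rfl

theorem not_mp_LL (c : Conf p l M) (j j' : Jx p) : ¬ Mp A B (mL A c j) (mL A c j') := by
  rcases j with ⟨role, t⟩ | wh <;> rcases j' with ⟨role', t'⟩ | wh' <;>
    exact fun h => h.elim

theorem not_mp_R (c : Conf p l M) (j : Jx p) (b : Cls p l) : ¬ Mp A B (mR B c j) b := by
  rcases j with ⟨role, t⟩ | wh <;> rcases b with _ | _ | _ | _ <;> exact fun h => h.elim

/-- the value in a class -/
def vv (val : Bool × Bool × Bool → ZMod m) (a : Cls p l) : ZMod m × ZMod m :=
  (val ((selOf a).1, (selOf a).2, false), val ((selOf a).1, (selOf a).2, true))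

/-- the vertices of the clique -/
def tau (A B : (ZMod M × ZMod M) → Fin (p * p) → Xs p) (c : Conf p l M)
    (val : Bool × Bool × Bool → ZMod m) {K U : ℕ} :
    (Jx p ⊕ Jx p) ⊕ (Fin K ⊕ Fin U) → Vt p l M m K U
  | Sum.inl (Sum.inl j) => .cl (mL A c j) (vv val (mL A c j))
  | Sum.inl (Sum.inr j) => .cl (mR B c j) (vv val (mR B c j))
  | Sum.inr (Sum.inl i) => .cf c i
  | Sum.inr (Sum.inr u) => .un u

theorem mLR (c : Conf p l M) (j j' : Jx p) : mL A c j ≠ mR B c j' := by
  rcases j with ⟨role, t⟩ | wh <;> rcases j' with ⟨role', t'⟩ | wh' <;>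
    exact fun h => by cases h

theorem tau_adj (h : Ind A B) (x : Pt (p * p * nr M m)) (c : Conf p l M)
    (val : Bool × Bool × Bool → ZMod m) {K U : ℕ}
    (hR : ∀ j, Rx A B x (mL A c j) (mR B c j) (vv val (mL A c j)) (vv val (mR B c j)))
    (i i' : (Jx p ⊕ Jx p) ⊕ (Fin K ⊕ Fin U)) (hi : i ≠ i') :
    (Gr A B x K U).Adj (tau A B c val i) (tau A B c val i') := by
  have hP := par_par (l := l) h
  have hsel : ∀ a b : Cls p l, selOf a = selOf b → vv val a = vv val b := by
    intro a b hab
    unfold vv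
    rw [hab]
  show adj A B x _ _
  rcases i with (j | j) | (j | j) <;> rcases i' with (j' | j') | (j' | j')
  · refine ⟨fun h1 => hi ?_, hsel _ _, fun h1 => (not_mp_LL _ _ _ h1).elim,
      fun h1 => (not_mp_LL _ _ _ h1).elim⟩
    rw [hP.iL c h1]
  · refine ⟨mLR _ _ _, hsel _ _, fun h1 => ?_, fun h1 => (not_mp_R _ _ _ h1).elim⟩
    rw [mp_unique h c j j' h1]
    exact hR j'
  · exact ⟨j, Or.inl rfl⟩
  · trivial
  · refine ⟨(mLR _ _ _).symm, hsel _ _, fun h1 => (not_mp_R _ _ _ h1).elim, fun h1 => ?_⟩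
    rw [mp_unique h c j' j h1]
    exact hR j
  · refine ⟨fun h1 => hi ?_, hsel _ _, fun h1 => (not_mp_R _ _ _ h1).elim,
      fun h1 => (not_mp_R _ _ _ h1).elim⟩
    rw [hP.iR c h1]
  · exact ⟨j, Or.inr rfl⟩
  · trivial
  · exact ⟨j', Or.inl rfl⟩
  · exact ⟨j', Or.inr rfl⟩
  · exact ⟨rfl, fun h1 => hi (by rw [h1])⟩
  · trivial
  · trivial
  · trivial
  · trivial
  · exact fun h1 => hi (by rw [h1])

theorem clq_back (h : Ind A B) (x : Pt (p * p * nr M m)) (c : Conf p l M)
    (val : Bool × Bool × Bool → ZMod m) {K U : ℕ}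
    (hR : ∀ j, Rx A B x (mL A c j) (mR B c j) (vv val (mL A c j)) (vv val (mR B c j))) :
    ∃ T : Finset (Vt p l M m K U),
      (Gr A B x K U).IsNClique (2 * Fintype.card (Jx p) + (K + U)) T := by
  have hadj := tau_adj (K := K) (U := U) h x c val hR
  have hinj : Function.Injective (tau A B c val (K := K) (U := U)) := by
    intro i i' hii
    by_contra hne
    have := hadj i i' hne
    rw [hii] at this
    exact this.ne rfl
  refine ⟨univ.image (tau A B c val), ?_⟩
  rw [SimpleGraph.isNClique_iff]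
  constructor
  · intro a ha b hb hab
    rw [Finset.mem_coe, Finset.mem_image] at ha hb
    obtain ⟨i, -, rfl⟩ := ha
    obtain ⟨i', -, rfl⟩ := hb
    exact hadj i i' (fun h1 => hab (by rw [h1]))
  · have h1 : Fintype.card ((Jx p ⊕ Jx p) ⊕ (Fin K ⊕ Fin U)) =
        (Fintype.card (Jx p) + Fintype.card (Jx p)) + (K + U) := by
      rw [Fintype.card_sum (α := Jx p ⊕ Jx p), Fintype.card_sum (α := Jx p),
        Fintype.card_sum (α := Fin K), Fintype.card_fin, Fintype.card_fin]
    rw [Finset.card_image_of_injective _ hinj, Finset.card_univ, h1]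
    ring

theorem clq_forth (h : Ind A B) (x : Pt (p * p * nr M m)) {K U : ℕ}
    (hK : Fintype.card (Cls p l) + 1 ≤ K) (T : Finset (Vt p l M m K U))
    (hT : (Gr A B x K U).IsNClique (2 * Fintype.card (Jx p) + (K + U)) T) :
    ∃ (c : Conf p l M) (val : Bool × Bool × Bool → ZMod m), ∀ j,
      Rx A B x (mL A c j) (mR B c j) (vv val (mL A c j)) (vv val (mR B c j)) := by
  classical
  have hcl := hT.1
  have hcard := hT.2
  have hadj : ∀ a ∈ T, ∀ b ∈ T, a ≠ b → adj A B x a b := fun a ha b hb hab => hcl ha hb hab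
  -- the three parts
  set T1 : Finset (Cls p l × (ZMod m × ZMod m)) := univ.filter (fun q => Vt.cl q.1 q.2 ∈ T) with hT1
  set T2 : Finset (Conf p l M × Fin K) := univ.filter (fun q => Vt.cf q.1 q.2 ∈ T) with hT2
  set T3 : Finset (Fin U) := univ.filter (fun q => Vt.un q ∈ T) with hT3
  have hsum : T.card ≤ T1.card + (T2.card + T3.card) := by
    have hsub : T ⊆ T1.image (fun q => Vt.cl q.1 q.2) ∪
        (T2.image (fun q => Vt.cf q.1 q.2) ∪ T3.image (fun q => Vt.un q)) := by
      intro a ha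
      rcases a with ⟨a, v⟩ | ⟨c, i⟩ | u
      · apply Finset.mem_union_left
        exact Finset.mem_image.mpr ⟨(a, v), by simp [hT1, ha], rfl⟩
      · apply Finset.mem_union_right
        apply Finset.mem_union_left
        exact Finset.mem_image.mpr ⟨(c, i), by simp [hT2, ha], rfl⟩
      · apply Finset.mem_union_right
        apply Finset.mem_union_right
        exact Finset.mem_image.mpr ⟨u, by simp [hT3, ha], rfl⟩
    refine (Finset.card_le_card hsub).trans ?_
    refine (Finset.card_union_le _ _).trans ?_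
    refine Nat.add_le_add Finset.card_image_le ?_
    refine (Finset.card_union_le _ _).trans ?_
    exact Nat.add_le_add Finset.card_image_le Finset.card_image_le
  have h3 : T3.card ≤ U := by
    calc T3.card ≤ (univ : Finset (Fin U)).card := Finset.card_le_card (Finset.subset_univ _)
      _ = U := by simp
  have hinj1 : Set.InjOn (fun q : Cls p l × (ZMod m × ZMod m) => q.1) T1 := by
    rintro ⟨a, v⟩ hq ⟨b, w⟩ hq' hab
    rw [Finset.mem_coe, hT1, Finset.mem_filter] at hq hq'
    by_contra hne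
    have := hadj _ hq.2 _ hq'.2 (by
      intro h1
      simp only [Vt.cl.injEq] at h1
      exact hne (Prod.ext h1.1 h1.2))
    exact this.1 hab
  have h1card : (T1.image (fun q => q.1)).card = T1.card := Finset.card_image_of_injOn hinj1
  have h1le : T1.card ≤ Fintype.card (Cls p l) := by
    rw [← h1card, ← Finset.card_univ]
    exact Finset.card_le_card (Finset.subset_univ _)
  -- there is a configuration
  have hne : T2.Nonempty := by
    rw [Finset.nonempty_iff_ne_empty]
    intro h2
    rw [h2, Finset.card_empty] at hsum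
    omega
  obtain ⟨⟨c, i0⟩, hc⟩ := hne
  have hc' : Vt.cf c i0 ∈ T := (Finset.mem_filter.mp hc).2
  have h2sub : T2 ⊆ (univ : Finset (Fin K)).image (fun i => (c, i)) := by
    rintro ⟨c', i⟩ hq
    rw [hT2, Finset.mem_filter] at hq
    rw [Finset.mem_image]
    by_cases hcc : Vt.cf c' i = (Vt.cf c i0 : Vt p l M m K U)
    · simp only [Vt.cf.injEq] at hcc
      exact ⟨i, Finset.mem_univ _, by rw [hcc.1]⟩
    · have := hadj _ hq.2 _ hc' hcc
      have h4 : c' = c := this.1
      exact ⟨i, Finset.mem_univ _, by rw [h4]⟩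
  have h2le : T2.card ≤ K := by
    calc T2.card ≤ ((univ : Finset (Fin K)).image (fun i => (c, i))).card :=
          Finset.card_le_card h2sub
      _ ≤ (univ : Finset (Fin K)).card := Finset.card_image_le
      _ = K := by simp
  -- the classes are those of `c`
  set S : Finset (Cls p l) := univ.image (mL A c) ∪ univ.image (mR B c) with hS
  have hScard : S.card ≤ 2 * Fintype.card (Jx p) := by
    calc S.card ≤ (univ.image (mL A c)).card + (univ.image (mR B c)).card :=
          Finset.card_union_le _ _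
      _ ≤ Fintype.card (Jx p) + Fintype.card (Jx p) :=
          Nat.add_le_add Finset.card_image_le Finset.card_image_le
      _ = _ := by ring
  have hsubS : T1.image (fun q => q.1) ⊆ S := by
    intro a ha
    rw [Finset.mem_image] at ha
    obtain ⟨⟨a', v⟩, hq, rfl⟩ := ha
    rw [hT1, Finset.mem_filter] at hq
    have h1 : adj A B x (Vt.cl a' v) (Vt.cf c i0) := hadj _ hq.2 _ hc' (fun h1 => by cases h1)
    obtain ⟨j, hj | hj⟩ := h1
    · rw [hS, Finset.mem_union]
      left
      exact Finset.mem_image.mpr ⟨j, Finset.mem_univ _, hj.symm⟩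
    · rw [hS, Finset.mem_union]
      right
      exact Finset.mem_image.mpr ⟨j, Finset.mem_univ _, hj.symm⟩
  have heq : T1.image (fun q => q.1) = S := by
    apply Finset.eq_of_subset_of_card_le hsubS
    rw [h1card]
    omega
  have hex : ∀ a ∈ S, ∃ v, Vt.cl a v ∈ T := by
    intro a ha
    rw [← heq, Finset.mem_image] at ha
    obtain ⟨⟨a', v⟩, hq, rfl⟩ := ha
    rw [hT1, Finset.mem_filter] at hq
    exact ⟨v, hq.2⟩
  have hSL : ∀ j, mL A c j ∈ S := fun j =>
    Finset.mem_union_left _ (Finset.mem_image.mpr ⟨j, Finset.mem_univ _, rfl⟩)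
  have hSR : ∀ j, mR B c j ∈ S := fun j =>
    Finset.mem_union_right _ (Finset.mem_image.mpr ⟨j, Finset.mem_univ _, rfl⟩)
  have huniq : ∀ a b v w, Vt.cl a v ∈ T → Vt.cl b w ∈ T → selOf a = selOf b → v = w := by
    intro a b v w ha hb hab
    by_cases hne : (Vt.cl a v : Vt p l M m K U) = Vt.cl b w
    · simp only [Vt.cl.injEq] at hne
      exact hne.2
    · exact (hadj _ ha _ hb hne).2.1 hab
  -- values
  choose f hf using hex
  let va : Bool × Bool → ZMod m × ZMod m := fun rh =>
    if rh.1 then f (mR B c (Sum.inr rh.2)) (hSR _) else f (mL A c (Sum.inr rh.2)) (hSL _)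
  have hva : ∀ rh, ∃ a, selOf a = rh ∧ Vt.cl a (va rh) ∈ T := by
    rintro ⟨_ | _, hh⟩
    · exact ⟨mL A c (Sum.inr hh), rfl, hf _ _⟩
    · exact ⟨mR B c (Sum.inr hh), rfl, hf _ _⟩
  have hin : ∀ a ∈ S, Vt.cl a (va (selOf a)) ∈ T := by
    intro a ha
    obtain ⟨b, hb1, hb2⟩ := hva (selOf a)
    have := huniq _ _ _ _ (hf a ha) hb2 hb1.symm
    rw [← this]
    exact hf a ha
  refine ⟨c, fun i => if i.2.2 then (va (i.1, i.2.1)).2 else (va (i.1, i.2.1)).1, fun j => ?_⟩
  have hvv : ∀ a : Cls p l, vv (fun i : Bool × Bool × Bool =>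
      if i.2.2 then (va (i.1, i.2.1)).2 else (va (i.1, i.2.1)).1) a = va (selOf a) := by
    intro a
    simp [vv]
  rw [hvv, hvv]
  have h1 := hadj _ (hin _ (hSL j)) _ (hin _ (hSR j)) (by
    intro h1
    simp only [Vt.cl.injEq] at h1
    exact mLR _ _ _ h1.1)
  exact h1.2.2.1 (mp_self c j)

end Pool.Agent.W952.Clq
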