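import Pool.Agent.W952.LTm

set_option autoImplicit false
set_option linter.unusedSectionVars false

/-! The lower bound for branching programs of linear length, general form. -/

open Finset

namespace Pool.Agent.W952.Gen

open Pool.Agent.H822R5.LN Pool.Agent.W952.Mx Pool.Agent.W952.Fr Pool.Agent.W952.Hub
open Pool.Agent.W952.Ap Pool.Agent.W952.LT
open Pool.Agent.H554R2.Sem Pool.Agent.H554R2.Coin Pool.Agent.H554R2.Lin

theorem main {E : ℕ → Type} {I : Type} (Adm : ℕ → I → Prop) (σ : I → ℕ)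
    (V Q' : ∀ n, I → (E n → Bool) → Prop) (c : ℕ) (hc : 0 < c)
    (g : ℕ → ℕ → ℕ → ℕ)
    (H : ∀ (p l M m n : ℕ) [NeZero M] [NeZero m] (A B : (ZMod M × ZMod M) → Fin (p * p) → Xs p)
      (i : I), 0 < p → Ind A B → Nonempty (Conf p l M) → g p l M ≤ m → g p l M ≤ σ i → Adm n i →
      c * (Fintype.card (Cls p l) * (m * m)) ≤ n →
      ∃ φ : E n → (Fin (p * p * nr M m) × Bool) ⊕ Bool, ∀ x : Pt (p * p * nr M m),
        V n i (subs φ x) ∧ (Q' n i (subs φ x) ↔ ∃ γ : Mu p l × Rest M m, Fm γ x ≠ 0)) (k : ℕ) :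
    ∃ D : ℕ, 0 < D ∧ ∀ n ≥ D, ∀ i, D ≤ σ i → Adm n i → ∀ P : BP (E n) Bool,
    Fintype.card P.State < 2 ^ (n ^ 2 / D) →
    (∀ x, V n i x → Q' n i x → ∀ l, ¬ P.Comp x l false) →
    ∃ x, V n i x ∧ ¬ Q' n i x ∧ ∀ l, P.Comp x l false → k * n ^ 2 < l.length := by
  classical
  obtain ⟨C2, hC2⟩ : ∃ C : ℕ, C = 25600 * (c * c) := ⟨_, rfl⟩
  obtain ⟨Q, r, N, hQ, hr, hN, hmain⟩ := main_rect (k * C2 + 1)
  obtain ⟨l, hl⟩ := words (2 * (2 * (2 * (2 * Q))))
  obtain ⟨W, hW⟩ : ∃ c, c = Fintype.card (Wd l) := ⟨_, rfl⟩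
  obtain ⟨p, hpge, hp⟩ := Nat.exists_infinite_primes
    ((2 * (2 * Q)) * (2 * (2 * Q)) + 32 * N * (W * (W * W)) + W + 4)
  have hp3 : 3 ≤ p := by omega
  have hp0 : 0 < p := by omega
  obtain ⟨M, hM0, A, B, hInd, hdens⟩ := Dsg.design (p * p) (by nlinarith)
  have : NeZero M := ⟨hM0.ne'⟩
  obtain ⟨X, hX⟩ : ∃ c, c = (p * p) ^ (p * p) := ⟨_, rfl⟩
  rw [← hX] at hdens
  have hXW : W + 1 ≤ X := by
    have h1 : p * p ≤ X := by
      rw [hX]
      exact Nat.le_self_pow (by positivity) _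
    have h2 : p ≤ p * p := Nat.le_mul_of_pos_left p hp0
    omega
  obtain ⟨Qc, hQc⟩ : ∃ c, c = Fintype.card (Cls p l) := ⟨_, rfl⟩
  have hQcX : Qc ≤ 10 * X := by
    rw [hQc, card_cls, ← hX, ← hW]
    omega
  obtain ⟨C0, hC0⟩ : ∃ C, C = c * 10 * X := ⟨_, rfl⟩
  have hX0 : 0 < X := by omega
  obtain ⟨m0, hm0⟩ : ∃ C, C = g p l M + 10 + r + N := ⟨_, rfl⟩
  obtain ⟨D, hD⟩ : ∃ c, c = C0 * (m0 * m0) + 2 * N * (r + 1) * C2 + 1 := ⟨_, rfl⟩
  refine ⟨D, by omega, ?_⟩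
  intro n hn i hi hadm P hPs hPf
  have hDm : m0 ≤ D := by
    have h1 : m0 ≤ m0 * m0 := Nat.le_mul_self _
    have h2 : m0 * m0 ≤ C0 * (m0 * m0) := by
      apply Nat.le_mul_of_pos_left
      rw [hC0]
      positivity
    omega
  by_contra hneg
  push Not at hneg
  -- the parameter `m`
  obtain ⟨m, hm⟩ : ∃ c, c = Nat.sqrt (n / C0) := ⟨_, rfl⟩
  have hC00 : 0 < C0 := by rw [hC0]; positivity
  have hmm : m0 ≤ m := by
    rw [hm, Nat.le_sqrt, Nat.le_div_iff_mul_le hC00]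
    have : m0 * m0 * C0 = C0 * (m0 * m0) := by ring
    rw [this]
    omega
  have hm1 : 1 ≤ m := by omega
  have : NeZero m := ⟨by omega⟩
  have hsq1 : C0 * (m * m) ≤ n := by
    have h1 : m * m ≤ n / C0 := by
      rw [hm]
      exact Nat.sqrt_le _
    calc C0 * (m * m) ≤ C0 * (n / C0) := Nat.mul_le_mul_left _ h1
      _ ≤ n := Nat.mul_div_le n C0
  have hsq2 : n ≤ 40 * c * (X * (m * m)) := by
    have h1 : n / C0 < (m + 1) * (m + 1) := by
      rw [hm]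
      exact Nat.lt_succ_sqrt _
    rw [Nat.div_lt_iff_lt_mul hC00] at h1
    have h2 : (m + 1) * (m + 1) ≤ 4 * (m * m) := by nlinarith
    calc n ≤ (m + 1) * (m + 1) * C0 := h1.le
      _ ≤ 4 * (m * m) * C0 := Nat.mul_le_mul_right _ h2
      _ = 40 * c * (X * (m * m)) := by rw [hC0]; ring
  set N' := p * p * nr M m with hN'
  have hnr : nr M m = (M * M) * ((m * m) * (m * m)) := nr_eq
  have hn2 : n ^ 2 ≤ C2 * N' := by
    calc n ^ 2 ≤ (40 * c * (X * (m * m))) ^ 2 := Nat.pow_le_pow_left hsq2 2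
      _ = 1600 * (c * c) * ((X * X) * ((m * m) * (m * m))) := by ring
      _ ≤ 1600 * (c * c) * ((16 * (M * M * (p * p))) * ((m * m) * (m * m))) :=
          Nat.mul_le_mul_left _ (Nat.mul_le_mul_right _ hdens)
      _ = C2 * N' := by rw [hN', hnr, hC2]; ring
  have hmN' : m ≤ N' := by
    rw [hN', hnr]
    have h1 : m ≤ m * m := Nat.le_mul_of_pos_left m (by omega)
    have h2 : m * m ≤ (m * m) * (m * m) := Nat.le_mul_of_pos_left _ (by positivity)
    have h3 : (m * m) * (m * m) ≤ M * M * ((m * m) * (m * m)) :=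
      Nat.le_mul_of_pos_left _ (by positivity)
    have h4 : M * M * ((m * m) * (m * m)) ≤ p * p * (M * M * ((m * m) * (m * m))) :=
      Nat.le_mul_of_pos_left _ (by positivity)
    exact h1.trans (h2.trans (h3.trans h4))
  have hN'0 : 0 < N' := by omega
  -- the family
  have hfit : c * (Fintype.card (Cls p l) * (m * m)) ≤ n := by
    rw [← hQc]
    calc c * (Qc * (m * m)) ≤ c * ((10 * X) * (m * m)) :=
          Nat.mul_le_mul_left _ (Nat.mul_le_mul_right _ hQcX)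
      _ = C0 * (m * m) := by rw [hC0]; ring
      _ ≤ n := hsq1
  obtain ⟨φ, hφ⟩ := H p l M m n A B i hp0 hInd (conf_nonempty hp3) (by omega) (by omega) hadm hfit
  obtain ⟨P', hP'c, hP'1, hP'2⟩ := Plug.plug hN'0 φ P
  set G0 : Finset (Pt N') := univ.filter (fun x : Pt N' => ∀ γ : Mu p l × Rest M m, Fm γ x = 0)
    with hG0
  have hzeros : 2 ^ N' ≤ 2 ^ (2 * Fintype.card (Mu p l × Rest M m)) * G0.card := by
    have := RM.zeros (Γ := Mu p l × Rest M m) (fun γ => Fm (M := M) (m := m) γ)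
      (fun γ => Fm_deg γ) (fun _ => false) (fun γ => Fm_zero γ)
    rw [Fintype.card_fin] at this
    convert this
  have hGk : ∀ x ∈ G0, ∃ l', P'.Comp x l' false ∧ l'.length ≤ k * n ^ 2 := by
    intro x hx
    obtain ⟨hG1, hG2⟩ := hφ x
    have hnot : ¬ Q' n i (subs φ x) := by
      rw [hG2]
      push Not
      exact (Finset.mem_filter.mp hx).2
    obtain ⟨l', h1, h2⟩ := hneg (subs φ x) hG1 hnot
    obtain ⟨l'', h3, h4⟩ := hP'1 x l' false h1
    exact ⟨l'', h4, by omega⟩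
  -- blocks
  set s := k * C2 * N' / r + 1 with hs
  have hs1 : k * C2 * N' ≤ r * s := by
    have := Nat.lt_mul_div_succ (k * C2 * N') hr
    rw [hs]; exact this.le
  have hrN : r ≤ N' := by omega
  have hs2 : r * s ≤ (k * C2 + 1) * N' := by
    have h1 := Nat.mul_div_le (k * C2 * N') r
    have h2 : r * s = r * (k * C2 * N' / r) + r := by rw [hs]; ring
    have h3 : (k * C2 + 1) * N' = k * C2 * N' + N' := by ring
    omega
  obtain ⟨Bk, hB1, hB2⟩ := blocks P' r s hr G0 (by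
    intro x hx
    obtain ⟨l', h1, h2⟩ := hGk x hx
    refine ⟨l', h1, ?_⟩
    calc l'.length ≤ k * n ^ 2 := h2
      _ ≤ k * (C2 * N') := Nat.mul_le_mul_left k hn2
      _ = k * C2 * N' := by ring
      _ ≤ r * s := hs1)
  rw [hP'c] at hB1
  -- sizes
  have hΓ : Fintype.card (Mu p l × Rest M m) ≤ W * (W * W) * (8 * p) * nr M m := by
    rw [hW]
    exact card_gm p l M m (by omega)
  have hΓ2 : 2 * (N * (2 * Fintype.card (Mu p l × Rest M m))) ≤ N' := by
    have hpW : 32 * N * (W * (W * W)) ≤ p := by omega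
    calc 2 * (N * (2 * Fintype.card (Mu p l × Rest M m))) ≤
        2 * (N * (2 * (W * (W * W) * (8 * p) * nr M m))) :=
          Nat.mul_le_mul_left _ (Nat.mul_le_mul_left _ (Nat.mul_le_mul_left _ hΓ))
      _ = (32 * N * (W * (W * W))) * (p * nr M m) := by ring
      _ ≤ p * (p * nr M m) := Nat.mul_le_mul_right _ hpW
      _ = N' := by rw [hN']; ring
  have hnD : 2 * (N * ((n ^ 2 / D) * (r + 1))) ≤ N' := by
    have h1 : n ^ 2 / D * D ≤ n ^ 2 := Nat.div_mul_le_self _ _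
    have h2 : n ^ 2 / D * (2 * N * (r + 1) * C2) ≤ n ^ 2 / D * D :=
      Nat.mul_le_mul_left _ (by omega)
    have h3 : C2 * (2 * (N * ((n ^ 2 / D) * (r + 1)))) ≤ C2 * N' := by
      calc C2 * (2 * (N * ((n ^ 2 / D) * (r + 1)))) = n ^ 2 / D * (2 * N * (r + 1) * C2) := by
            ring
        _ ≤ n ^ 2 / D * D := h2
        _ ≤ n ^ 2 := h1
        _ ≤ C2 * N' := hn2
    exact Nat.le_of_mul_le_mul_left h3 (by rw [hC2]; positivity)
  have hexp : 2 * Fintype.card (Mu p l × Rest M m) + (n ^ 2 / D) * (r + 1) ≤ N' / N := by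
    rw [Nat.le_div_iff_mul_le hN]
    have h1 : (2 * Fintype.card (Mu p l × Rest M m) + (n ^ 2 / D) * (r + 1)) * N =
        N * (2 * Fintype.card (Mu p l × Rest M m)) + N * ((n ^ 2 / D) * (r + 1)) := by ring
    omega
  have hKbig : 2 ^ N' ≤ 2 ^ (N' / N) * Bk.K.card := by
    calc 2 ^ N' ≤ 2 ^ (2 * Fintype.card (Mu p l × Rest M m)) * G0.card := hzeros
      _ ≤ 2 ^ (2 * Fintype.card (Mu p l × Rest M m)) *
          (Fintype.card P.State ^ (r + 1) * Bk.K.card) := Nat.mul_le_mul_left _ hB1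
      _ ≤ 2 ^ (2 * Fintype.card (Mu p l × Rest M m)) *
          ((2 ^ (n ^ 2 / D)) ^ (r + 1) * Bk.K.card) := by
          apply Nat.mul_le_mul_left
          exact Nat.mul_le_mul_right _ (Nat.pow_le_pow_left hPs.le _)
      _ = 2 ^ (2 * Fintype.card (Mu p l × Rest M m) + (n ^ 2 / D) * (r + 1)) * Bk.K.card := by
          rw [← pow_mul, ← mul_assoc, ← pow_add]
      _ ≤ 2 ^ (N' / N) * Bk.K.card :=
          Nat.mul_le_mul_right _ (Nat.pow_le_pow_right (by norm_num) hexp)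
  obtain ⟨a, b, g, ha, hb, hga, hgb, hR⟩ := hmain N' (by omega) s hs2 Bk hKbig
  have hKform : ∀ x ∈ Bk.K, ∀ γ : Mu p l × Rest M m, Fm γ x = 0 := by
    intro x hx γ
    obtain ⟨l', hl'⟩ := hB2 x hx
    obtain ⟨l'', -, hl''⟩ := hP'2 x l' false hl'
    obtain ⟨hG1, hG2⟩ := hφ x
    by_contra hγ
    exact hPf (subs φ x) hG1 (hG2.2 ⟨γ, hγ⟩) _ hl''
  have hl1 := hl M
  have hl2 := hl m
  refine no_rect (q := 2 * Q) hp hp3 (by omega) (Mix.weaken hl1 (by omega)) hl2 Bk.K a b g hR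
    hKform ?_ ?_
  · calc p * p * nr M m ≤ Q * a := ha
      _ ≤ Q * (2 * (a - g)) := Nat.mul_le_mul_left _ (by omega)
      _ = 2 * Q * (a - g) := by ring
  · calc p * p * nr M m ≤ Q * b := hb
      _ ≤ Q * (2 * (b - g)) := Nat.mul_le_mul_left _ (by omega)
      _ = 2 * Q * (b - g) := by ring

end Pool.Agent.W952.Gen
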