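import Pool.Agent.W952.Clq
import Pool.Agent.W952.Gen

set_option autoImplicit false
set_option linter.unusedSectionVars false

/-! Branching programs of linear length for the clique problem. -/

open Finset

namespace Pool.Agent.W952.Clq

open Pool.Agent.H822R5.LN Pool.Agent.W952.Mx Pool.Agent.W952.Fr Pool.Agent.W952.Hub
open Pool.Agent.W952.Ap
open Pool.Agent.H554R2.Sem Pool.Agent.H554R2.Coin

section

variable {p M m l : ℕ} [NeZero M] [NeZero m]
variable {A B : (ZMod M × ZMod M) → Fin (p * p) → Xs p}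

theorem not_mp_both (a b : Cls p l) (h1 : Mp A B a b) : ¬ Mp A B b a := by
  rcases a with _ | _ | _ | _ <;> rcases b with _ | _ | _ | _ <;>
    first
      | exact h1.elim
      | exact fun h2 => h2.elim

theorem adj_lit (h : Ind A B) {K U : ℕ} (a b : Vt p l M m K U) :
    (∃ (u : Fin (p * p * nr M m)) (s : Bool), ∀ x, adj A B x a b ↔ x u = s) ∨
      ∃ P : Prop, ∀ x : Pt (p * p * nr M m), adj A B x a b ↔ P := by
  rcases a with ⟨a, v⟩ | ⟨c, i⟩ | u <;> rcases b with ⟨b, w⟩ | ⟨c', i'⟩ | u'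
  · by_cases hC : a ≠ b ∧ (selOf a = selOf b → v = w)
    · by_cases h1 : Mp A B a b
      · have h2 := not_mp_both a b h1
        have h3 : ∀ x : Pt (p * p * nr M m),
            adj A B x (.cl a v : Vt p l M m K U) (.cl b w) ↔ Rx A B x a b v w := fun x =>
          ⟨fun h4 => h4.2.2.1 h1, fun h4 => ⟨hC.1, hC.2, fun _ => h4, fun h5 => (h2 h5).elim⟩⟩
        rcases rx_lit h a b v w with ⟨u, s, h4⟩ | ⟨P, h4⟩
        · exact Or.inl ⟨u, s, fun x => (h3 x).trans (h4 x)⟩
        · exact Or.inr ⟨P, fun x => (h3 x).trans (h4 x)⟩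
      · by_cases h2 : Mp A B b a
        · have h3 : ∀ x : Pt (p * p * nr M m),
              adj A B x (.cl a v : Vt p l M m K U) (.cl b w) ↔ Rx A B x b a w v := fun x =>
            ⟨fun h4 => h4.2.2.2 h2, fun h4 => ⟨hC.1, hC.2, fun h5 => (h1 h5).elim, fun _ => h4⟩⟩
          rcases rx_lit h b a w v with ⟨u, s, h4⟩ | ⟨P, h4⟩
          · exact Or.inl ⟨u, s, fun x => (h3 x).trans (h4 x)⟩
          · exact Or.inr ⟨P, fun x => (h3 x).trans (h4 x)⟩
        · exact Or.inr ⟨True, fun x => ⟨fun _ => trivial, fun _ =>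
            ⟨hC.1, hC.2, fun h5 => (h1 h5).elim, fun h5 => (h2 h5).elim⟩⟩⟩
    · exact Or.inr ⟨False, fun x => ⟨fun h4 => hC ⟨h4.1, h4.2.1⟩, fun h4 => h4.elim⟩⟩
  all_goals exact Or.inr ⟨_, fun x => Iff.rfl⟩

/-- the forms inside the clique problem -/
theorem fam (h : Ind A B) {n s K : ℕ} (hK : Fintype.card (Cls p l) + 1 = K)
    (hs : 2 * Fintype.card (Jx p) + K ≤ s)
    (hn : Fintype.card (Cls p l) * (m * m) + (Fintype.card (Conf p l M) * K + s) ≤ n) :
    ∃ φ : Sym2 (Fin n) → (Fin (p * p * nr M m) × Bool) ⊕ Bool, ∀ x : Pt (p * p * nr M m),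
      ∃ G : SimpleGraph (Fin n), (∀ e, subs φ x e = true ↔ e ∈ G.edgeSet) ∧
        (¬ G.CliqueFree s ↔ ∃ γ : Mu p l × Rest M m, Fm γ x ≠ 0) := by
  classical
  obtain ⟨U, hU⟩ : ∃ U, U = s - (2 * Fintype.card (Jx p) + K) := ⟨_, rfl⟩
  have hsU : 2 * Fintype.card (Jx p) + (K + U) = s := by omega
  have hcard : Fintype.card (Vt p l M m K U) ≤ Fintype.card (Fin n) := by
    rw [card_vt, Fintype.card_fin]
    omega
  obtain ⟨emb⟩ := Function.Embedding.nonempty_of_card_le hcard
  have hne : Nonempty (Vt p l M m K U) := ⟨.cl (.W2 true) (0, 0)⟩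
  have hφ : ∀ e : Sym2 (Fin n), ∃ f : (Fin (p * p * nr M m) × Bool) ⊕ Bool,
      ∀ x : Pt (p * p * nr M m),
        (subs (fun _ : Sym2 (Fin n) => f) x e = true) ↔ e ∈ ((Gr A B x K U).map emb).edgeSet := by
    intro e
    induction e using Sym2.ind with
    | _ u v =>
      by_cases hu : ∃ a, emb a = u
      · by_cases hv : ∃ b, emb b = v
        · obtain ⟨a, rfl⟩ := hu
          obtain ⟨b, rfl⟩ := hv
          have h1 : ∀ x, s(emb a, emb b) ∈ ((Gr A B x K U).map emb).edgeSet ↔ adj A B x a b := by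
            intro x
            rw [SimpleGraph.mem_edgeSet, SimpleGraph.map_adj_apply]
            exact Iff.rfl
          rcases adj_lit h a b with ⟨w, t, h2⟩ | ⟨P, h2⟩
          · exact ⟨Sum.inl (w, t), fun x => by simp [subs, h1, h2]⟩
          · exact ⟨Sum.inr (decide P), fun x => by simp [subs, h1, h2]⟩
        · refine ⟨Sum.inr false, fun x => ?_⟩
          rw [SimpleGraph.mem_edgeSet, SimpleGraph.map_adj]
          simp only [subs, Bool.false_eq_true, false_iff]
          rintro ⟨a, b, -, -, hb⟩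
          exact hv ⟨b, hb⟩
      · refine ⟨Sum.inr false, fun x => ?_⟩
        rw [SimpleGraph.mem_edgeSet, SimpleGraph.map_adj]
        simp only [subs, Bool.false_eq_true, false_iff]
        rintro ⟨a, b, -, ha, -⟩
        exact hu ⟨a, ha⟩
  choose φ hφ using hφ
  refine ⟨φ, fun x => ⟨(Gr A B x K U).map emb, fun e => hφ e x, ?_⟩⟩
  rw [SimpleGraph.cliqueFree_map_iff, ← app h x]
  unfold SimpleGraph.CliqueFree
  push Not
  constructor
  · rintro ⟨T, hT⟩
    rw [← hsU] at hT
    obtain ⟨c, val, hc⟩ := clq_forth h x (by omega) T hT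
    exact ⟨c, val, hc⟩
  · rintro ⟨c, val, hc⟩
    obtain ⟨T, hT⟩ := clq_back (K := K) (U := U) h x c val hc
    rw [hsU] at hT
    exact ⟨T, hT⟩

end

theorem main (k : ℕ) : ∃ D : ℕ, 0 < D ∧ ∀ n ≥ D, ∀ s, D ≤ s → 2 * s ≤ n →
    ∀ P : BP (Sym2 (Fin n)) Bool, Fintype.card P.State < 2 ^ (n ^ 2 / D) →
    (∀ (G : SimpleGraph (Fin n)) (x : Sym2 (Fin n) → Bool), (∀ e, x e = true ↔ e ∈ G.edgeSet) →
      ∀ l, P.Comp x l false → G.CliqueFree s) →
    ∃ (G : SimpleGraph (Fin n)) (x : Sym2 (Fin n) → Bool), (∀ e, x e = true ↔ e ∈ G.edgeSet) ∧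
      G.CliqueFree s ∧ ∀ l, P.Comp x l false → k * n ^ 2 < l.length := by
  classical
  obtain ⟨D, hD, hmain⟩ := Gen.main (E := fun n => Sym2 (Fin n)) (I := ℕ)
    (fun n s => 2 * s ≤ n) (fun s => s)
    (fun n _ x => ∃ G : SimpleGraph (Fin n), ∀ e, x e = true ↔ e ∈ G.edgeSet)
    (fun n s x => ∀ G : SimpleGraph (Fin n), (∀ e, x e = true ↔ e ∈ G.edgeSet) → ¬ G.CliqueFree s)
    8 (by norm_num)
    (fun p l M => 2 * (2 * (p * p) + 2) + (8 * (p * p) ^ (p * p) + 2 * Fintype.card (Wd l) + 3) +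
      (if hM : M = 0 then 0 else
        haveI : NeZero M := ⟨hM⟩
        Fintype.card (Conf p l M) * (8 * (p * p) ^ (p * p) + 2 * Fintype.card (Wd l) + 3)))
    (by
      intro p l M m n _ _ A B s hp hI hC hm hs hadm hn
      have hM : M ≠ 0 := NeZero.ne M
      simp only [hM, dite_false] at hm hs
      have hJ : Fintype.card (Jx p) = 2 * (p * p) + 2 := by
        rw [Fintype.card_sum, Fintype.card_prod, Fintype.card_bool, Fintype.card_fin]
      obtain ⟨φ, hφ⟩ := fam (l := l) (m := m) hI (n := n) (s := s) rfl (by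
        rw [hJ, card_cls]; omega) (by
        have h1 : m ≤ Fintype.card (Cls p l) * (m * m) := by
          have h2 : m ≤ m * m := Nat.le_mul_self _
          refine h2.trans (Nat.le_mul_of_pos_left _ ?_)
          rw [card_cls]; omega
        have h3 : Fintype.card (Conf p l M) * (Fintype.card (Cls p l) + 1) ≤ m := by
          rw [card_cls]
          have h4 : 8 * (p * p) ^ (p * p) + 2 * Fintype.card (Wd l) + 2 + 1 =
            8 * (p * p) ^ (p * p) + 2 * Fintype.card (Wd l) + 3 := rfl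
          rw [h4]
          omega
        omega)
      refine ⟨φ, fun x => ?_⟩
      obtain ⟨G, h1, h2⟩ := hφ x
      refine ⟨⟨G, h1⟩, ?_⟩
      rw [← h2]
      constructor
      · intro h3
        exact h3 G h1
      · intro h3 G' h4
        have : G' = G := by
          rw [← SimpleGraph.edgeSet_inj]
          ext e
          rw [← h4, h1]
        rw [this]
        exact h3) k
  refine ⟨D, hD, ?_⟩
  intro n hn s hs hsn P hP hP2
  obtain ⟨x, ⟨G, hG⟩, h2, h3⟩ := hmain n hn s hs hsn P hP (by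
    rintro x ⟨G, hG⟩ hQ l hl
    exact hQ G hG (hP2 G x hG l hl))
  push Not at h2
  obtain ⟨G', hG', h4⟩ := h2
  exact ⟨G', x, hG', h4, h3⟩

end Pool.Agent.W952.Clq
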