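import Pool.Agent.W952.LTm

set_option autoImplicit false
set_option linter.unusedSectionVars false

/-! The lower bound for branching programs of linear length, for the forms themselves. -/

open Finset

namespace Pool.Agent.W952.Core

open Pool.Agent.H822R5.LN Pool.Agent.W952.Mx Pool.Agent.W952.Fr Pool.Agent.W952.Hub
open Pool.Agent.W952.Ap Pool.Agent.W952.LT
open Pool.Agent.H554R2.Sem Pool.Agent.H554R2.Coin Pool.Agent.H554R2.Lin

theorem core (k : ℕ) : ∃ p l D : ℕ, 3 ≤ p ∧ 0 < D ∧ ∀ (m : ℕ) [NeZero m], D ≤ m →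
    ∀ P' : BP (Fin (p * p * nr 1 m)) Bool,
    Fintype.card P'.State < 2 ^ (p * p * nr 1 m / D) →
    (∀ x : Pt (p * p * nr 1 m), (∃ γ : Mu p l × Rest 1 m, Fm γ x ≠ 0) →
      ∀ l', ¬ P'.Comp x l' false) →
    ∃ x : Pt (p * p * nr 1 m), (∀ γ : Mu p l × Rest 1 m, Fm γ x = 0) ∧
      ∀ l', P'.Comp x l' false → k * (p * p * nr 1 m) < l'.length := by
  classical
  obtain ⟨Q, r, N, hQ, hr, hN, hmain⟩ := main_rect (k + 1)
  obtain ⟨l, hl⟩ := words (2 * (2 * (2 * (2 * Q))))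
  obtain ⟨W, hW⟩ : ∃ c, c = Fintype.card (Wd l) := ⟨_, rfl⟩
  obtain ⟨p, hpge, hp⟩ := Nat.exists_infinite_primes
    ((2 * (2 * Q)) * (2 * (2 * Q)) + 32 * N * (W * (W * W)) + W + 4)
  have hp3 : 3 ≤ p := by omega
  have hp0 : 0 < p := by omega
  obtain ⟨D, hD⟩ : ∃ c, c = 2 * N * (r + 1) + r + N + 1 := ⟨_, rfl⟩
  refine ⟨p, l, D, hp3, by omega, ?_⟩
  intro m _ hm
  set N' := p * p * nr 1 m with hN'
  intro P' hPs hPf
  by_contra hneg
  push Not at hneg
  have hm1 : 1 ≤ m := by omega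
  have hnr : nr 1 m = (1 * 1) * ((m * m) * (m * m)) := nr_eq
  have hmN' : m ≤ N' := by
    rw [hN', hnr]
    have h1 : m ≤ m * m := Nat.le_mul_of_pos_left m (by omega)
    have h2 : m * m ≤ (m * m) * (m * m) := Nat.le_mul_of_pos_left _ (by positivity)
    have h4 : 1 * 1 * ((m * m) * (m * m)) ≤ p * p * (1 * 1 * ((m * m) * (m * m))) :=
      Nat.le_mul_of_pos_left _ (by positivity)
    omega
  have hN'0 : 0 < N' := by omega
  set G0 : Finset (Pt N') := univ.filter (fun x : Pt N' => ∀ γ : Mu p l × Rest 1 m, Fm γ x = 0)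
    with hG0
  have hzeros : 2 ^ N' ≤ 2 ^ (2 * Fintype.card (Mu p l × Rest 1 m)) * G0.card := by
    have := RM.zeros (Γ := Mu p l × Rest 1 m) (fun γ => Fm (M := 1) (m := m) γ)
      (fun γ => Fm_deg γ) (fun _ => false) (fun γ => Fm_zero γ)
    rw [Fintype.card_fin] at this
    convert this
  have hGk : ∀ x ∈ G0, ∃ l', P'.Comp x l' false ∧ l'.length ≤ k * N' := by
    intro x hx
    exact hneg x (Finset.mem_filter.mp hx).2
  -- blocks
  set s := k * N' / r + 1 with hs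
  have hs1 : k * N' ≤ r * s := by
    have := Nat.lt_mul_div_succ (k * N') hr
    rw [hs]; exact this.le
  have hrN : r ≤ N' := by omega
  have hs2 : r * s ≤ (k + 1) * N' := by
    have h1 := Nat.mul_div_le (k * N') r
    have h2 : r * s = r * (k * N' / r) + r := by rw [hs]; ring
    have h3 : (k + 1) * N' = k * N' + N' := by ring
    omega
  obtain ⟨Bk, hB1, hB2⟩ := blocks P' r s hr G0 (by
    intro x hx
    obtain ⟨l', h1, h2⟩ := hGk x hx
    exact ⟨l', h1, h2.trans hs1⟩)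
  -- sizes
  have hΓ : Fintype.card (Mu p l × Rest 1 m) ≤ W * (W * W) * (8 * p) * nr 1 m := by
    rw [hW]
    exact card_gm p l 1 m (by omega)
  have hΓ2 : 2 * (N * (2 * Fintype.card (Mu p l × Rest 1 m))) ≤ N' := by
    have hpW : 32 * N * (W * (W * W)) ≤ p := by omega
    calc 2 * (N * (2 * Fintype.card (Mu p l × Rest 1 m))) ≤
        2 * (N * (2 * (W * (W * W) * (8 * p) * nr 1 m))) :=
          Nat.mul_le_mul_left _ (Nat.mul_le_mul_left _ (Nat.mul_le_mul_left _ hΓ))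
      _ = (32 * N * (W * (W * W))) * (p * nr 1 m) := by ring
      _ ≤ p * (p * nr 1 m) := Nat.mul_le_mul_right _ hpW
      _ = N' := by rw [hN']; ring
  have hnD : 2 * (N * ((N' / D) * (r + 1))) ≤ N' := by
    have h1 : N' / D * D ≤ N' := Nat.div_mul_le_self _ _
    have h2 : N' / D * (2 * N * (r + 1)) ≤ N' / D * D :=
      Nat.mul_le_mul_left _ (by omega)
    calc (2 * (N * ((N' / D) * (r + 1)))) = N' / D * (2 * N * (r + 1)) := by ring
      _ ≤ N' / D * D := h2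
      _ ≤ N' := h1
  have hexp : 2 * Fintype.card (Mu p l × Rest 1 m) + (N' / D) * (r + 1) ≤ N' / N := by
    rw [Nat.le_div_iff_mul_le hN]
    have h1 : (2 * Fintype.card (Mu p l × Rest 1 m) + (N' / D) * (r + 1)) * N =
        N * (2 * Fintype.card (Mu p l × Rest 1 m)) + N * ((N' / D) * (r + 1)) := by ring
    omega
  have hKbig : 2 ^ N' ≤ 2 ^ (N' / N) * Bk.K.card := by
    calc 2 ^ N' ≤ 2 ^ (2 * Fintype.card (Mu p l × Rest 1 m)) * G0.card := hzeros
      _ ≤ 2 ^ (2 * Fintype.card (Mu p l × Rest 1 m)) *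
          (Fintype.card P'.State ^ (r + 1) * Bk.K.card) := Nat.mul_le_mul_left _ hB1
      _ ≤ 2 ^ (2 * Fintype.card (Mu p l × Rest 1 m)) *
          ((2 ^ (N' / D)) ^ (r + 1) * Bk.K.card) := by
          apply Nat.mul_le_mul_left
          exact Nat.mul_le_mul_right _ (Nat.pow_le_pow_left hPs.le _)
      _ = 2 ^ (2 * Fintype.card (Mu p l × Rest 1 m) + (N' / D) * (r + 1)) * Bk.K.card := by
          rw [← pow_mul, ← mul_assoc, ← pow_add]
      _ ≤ 2 ^ (N' / N) * Bk.K.card :=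
          Nat.mul_le_mul_right _ (Nat.pow_le_pow_right (by norm_num) hexp)
  obtain ⟨a, b, g, ha, hb, hga, hgb, hR⟩ := hmain N' (by omega) s hs2 Bk hKbig
  have hKform : ∀ x ∈ Bk.K, ∀ γ : Mu p l × Rest 1 m, Fm γ x = 0 := by
    intro x hx γ
    obtain ⟨l', hl'⟩ := hB2 x hx
    by_contra hγ
    exact hPf x ⟨γ, hγ⟩ _ hl'
  have hl1 := hl 1
  have hl2 := hl m
  refine no_rect (q := 2 * Q) hp hp3 (by omega) (Mix.weaken hl1 (by omega)) hl2 Bk.K a b g hR
    hKform ?_ ?_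
  · calc p * p * nr 1 m ≤ Q * a := ha
      _ ≤ Q * (2 * (a - g)) := Nat.mul_le_mul_left _ (by omega)
      _ = 2 * Q * (a - g) := by ring
  · calc p * p * nr 1 m ≤ Q * b := hb
      _ ≤ Q * (2 * (b - g)) := Nat.mul_le_mul_left _ (by omega)
      _ = 2 * Q * (b - g) := by ring

end Pool.Agent.W952.Core
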