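import Pool.Agent.W952.Place

set_option autoImplicit false
set_option linter.unusedSectionVars false

/-! The two-level decoder: all tables on `4 g` address bits inside Hamiltonicity on
`O(4 ^ g)` vertices, the address being given by `4 g` cherries at prescribed places. -/

namespace Pool.Agent.W952

open Pool.Agent.H545R2

/-- the rows of the decoder -/
abbrev Rws (g : ℕ) : Type := (Fin 4 × Fin g) ⊕ (Fin 4 × (Fin g → Bool))

/-- the leaves of the decoder -/
abbrev LvD (g : ℕ) : Type :=
  Lv ((Fin g → Bool) × (Fin g → Bool)) ((Fin g → Bool) × (Fin g → Bool)) (Fin 4 × (Fin g → Bool))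

/-- the leaf attached to a line -/
def lf {g : ℕ} (j : Fin 4) (v w : Fin g → Bool) : LvD g :=
  if j = 0 then Sum.inl (v, w) else if j = 1 then Sum.inl (w, v) else
    if j = 2 then Sum.inr (Sum.inl (v, w)) else Sum.inr (Sum.inl (w, v))

/-- the attachments -/
def attD {g : ℕ} : Rws g → Option (Fin g → Bool) → Option (LvD g × Bool)
  | Sum.inl k, some v => some (Sum.inr (Sum.inr (k.1, v)), !(v k.2))
  | Sum.inl _, none => none
  | Sum.inr jv, none => some (Sum.inr (Sum.inr jv), false)
  | Sum.inr jv, some w => some (lf jv.1 jv.2 w, true)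

/-- the address given by four blocks -/
def comb {g : ℕ} (p q : (Fin g → Bool) × (Fin g → Bool)) (k : Fin 4 × Fin g) : Bool :=
  if k.1 = 0 then p.1 k.2 else if k.1 = 1 then p.2 k.2 else if k.1 = 2 then q.1 k.2 else q.2 k.2

theorem lf_eq_A {g : ℕ} {j : Fin 4} {v w : Fin g → Bool} {a : (Fin g → Bool) × (Fin g → Bool)}
    (h : lf j v w = (Sum.inl a : LvD g)) : (j = 0 ∧ v = a.1) ∨ (j = 1 ∧ v = a.2) := by
  unfold lf at h
  split_ifs at h with h0 h1 h2
  · left
    simp only [Sum.inl.injEq] at h
    exact ⟨h0, by rw [← h]⟩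
  · right
    simp only [Sum.inl.injEq] at h
    exact ⟨h1, by rw [← h]⟩

theorem lf_eq_B {g : ℕ} {j : Fin 4} {v w : Fin g → Bool} {a : (Fin g → Bool) × (Fin g → Bool)}
    (h : lf j v w = (Sum.inr (Sum.inl a) : LvD g)) : (j = 2 ∧ v = a.1) ∨ (j = 3 ∧ v = a.2) := by
  unfold lf at h
  split_ifs at h with h0 h1 h2
  · left
    simp only [Sum.inr.injEq, Sum.inl.injEq] at h
    exact ⟨h2, by rw [← h]⟩
  · right
    simp only [Sum.inr.injEq, Sum.inl.injEq] at h
    refine ⟨?_, by rw [← h]⟩
    omega

theorem lf_ne_D {g : ℕ} {j : Fin 4} {v w : Fin g → Bool} {a : Fin 4 × (Fin g → Bool)} :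
    lf j v w ≠ (Sum.inr (Sum.inr a) : LvD g) := by
  unfold lf
  split_ifs <;> simp

theorem comb_self {g : ℕ} (x : Fin 4 × Fin g → Bool) :
    comb (fun i => x (0, i), fun i => x (1, i)) (fun i => x (2, i), fun i => x (3, i)) = x := by
  funext k
  obtain ⟨j, i⟩ := k
  unfold comb
  simp only
  split_ifs with h0 h1 h2
  · rw [h0]
  · rw [h1]
  · rw [h2]
  · have : j = 3 := by omega
    rw [this]

theorem size_bound {g b r c : ℕ} (hg : 0 < g) (hb : b = 4 * g + 4 * 2 ^ g) (hr : r = 2 ^ g + 1)
    (hc : c = 2 ^ g * 2 ^ g + (2 ^ g * 2 ^ g + 4 * 2 ^ g)) : 3 * segN b r 1 c ≤ 183 * 4 ^ g := by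
  have h1 : g < 2 ^ g := Nat.lt_two_pow_self
  have h4 : (4 : ℕ) ^ g = 2 ^ g * 2 ^ g := by
    rw [show (4 : ℕ) = 2 * 2 by norm_num, mul_pow]
  have h2 : 2 ≤ 2 ^ g := by
    calc 2 = 2 ^ 1 := by norm_num
      _ ≤ 2 ^ g := Nat.pow_le_pow_right (by norm_num) hg
  rw [h4]
  generalize 2 ^ g = y at *
  subst hb
  subst hr
  subst hc
  unfold segN
  nlinarith

theorem family {n g : ℕ} (hg : 0 < g) (hn : 183 * 4 ^ g ≤ n)
    (c : Fin 4 × Fin g → Fin n) (u : (Fin 4 × Fin g) × Bool → Fin n)
    (hc : Function.Injective c) (hu : Function.Injective u) (hcu : ∀ k k', c k ≠ u k') :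
    ∃ G : ((Fin 4 × Fin g → Bool) → Prop) → (Fin 4 × Fin g → Bool → Prop) → SimpleGraph (Fin n),
      (∀ T w k s, (G T w).Adj (c k) (u (k, s)) ↔ w k s) ∧
      (∀ T w w' v v', (∀ k s, ¬ (v = c k ∧ v' = u (k, s)) ∧ ¬ (v' = c k ∧ v = u (k, s))) →
        (G T w).Adj v v' → (G T w').Adj v v') ∧
      (∀ T x, (G T (fun k s => s = x k)).IsHamiltonian ↔ T x) := by
  classical
  set b := Fintype.card (Rws g) with hbdef
  set r := Fintype.card (Option (Fin g → Bool)) with hrdef
  have hbc : b = 4 * g + 4 * 2 ^ g := by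
    rw [hbdef]
    simp [Rws]
  have hrc : r = 2 ^ g + 1 := by
    rw [hrdef]
    simp
  have hcL : Fintype.card (LvD g) = 2 ^ g * 2 ^ g + (2 ^ g * 2 ^ g + 4 * 2 ^ g) := by
    simp [LvD, Lv]
  let er : Fin b ≃ Rws g := (Fintype.equivFin _).symm
  let ek : Fin r ≃ Option (Fin g → Bool) := (Fintype.equivFin _).symm
  let atl : Fin b → Fin r → Option (LvD g × Bool) := fun i k => attD (er i) (ek k)
  let un : Fin 4 × Fin g → Fin b × Fin 1 := fun k => (er.symm (Sum.inl k), 0)
  have hun : Function.Injective un := by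
    intro k k' h
    simp only [un, Prod.mk.injEq, and_true] at h
    exact Sum.inl_injective (er.symm.injective h)
  have hb0 : 0 < b := by rw [hbc]; omega
  have hr0 : 0 < r := by rw [hrc]; omega
  have hsz := size_bound hg hbc hrc hcL
  obtain ⟨G, hG1, hG2, hG3⟩ := place (n := n) atl un hun hb0 hr0 (by
    rw [hcL]
    rw [hcL] at hsz
    omega) c u hc hu hcu
  refine ⟨fun t w => G (fun p q => t (comb p q)) w, fun T w k s => hG1 _ w k s,
    fun T w w' v v' h => hG2 _ w w' v v' h, ?_⟩
  intro t x
  rw [hG3]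
  constructor
  · rintro ⟨z, hz, p, q, hT, hcov⟩
    have hzb : ∀ k, strand (z (er.symm (Sum.inl k))) 1 = x k := by
      intro k
      rw [Neg.strand_one]
      exact hz (er.symm (Sum.inl k)) 0 (by omega) k rfl rfl
    have hline : ∀ j : Fin 4, strand (z (er.symm (Sum.inr (j, fun i => x (j, i))))) 1 = false := by
      intro j
      obtain ⟨i, k, h⟩ := hcov (Sum.inr (Sum.inr (j, fun i => x (j, i)))) (by simp) (by simp)
      simp only [atl] at h
      obtain ⟨ρ, hρ⟩ : ∃ ρ, er i = ρ := ⟨_, rfl⟩
      obtain ⟨κ, hκ⟩ : ∃ κ, ek k = κ := ⟨_, rfl⟩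
      rw [hρ, hκ] at h
      rcases ρ with ⟨j', i'⟩ | ⟨j', v⟩
      · rcases κ with _ | v
        · simp [attD] at h
        · exfalso
          simp only [attD, Option.some.injEq, Prod.mk.injEq, Sum.inr.injEq] at h
          obtain ⟨⟨h1, h2⟩, h3⟩ := h
          have hi : i = er.symm (Sum.inl (j', i')) := by rw [← hρ]; simp
          rw [hi, hzb, h2, h1] at h3
          simp at h3
      · rcases κ with _ | w
        · simp only [attD, Option.some.injEq, Prod.mk.injEq, Sum.inr.injEq] at h
          obtain ⟨⟨h1, h2⟩, h3⟩ := h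
          have hi : i = er.symm (Sum.inr (j', v)) := by rw [← hρ]; simp
          rw [hi, h1, h2] at h3
          exact h3.symm
        · exfalso
          simp only [attD, Option.some.injEq, Prod.mk.injEq] at h
          exact lf_ne_D h.1
    have hp : p = (fun i => x (0, i), fun i => x (1, i)) := by
      by_contra hne
      obtain ⟨i, k, h⟩ := hcov (Sum.inl (fun i => x (0, i), fun i => x (1, i)))
        (by simpa using fun h => hne h.symm) (by simp)
      simp only [atl] at h
      obtain ⟨ρ, hρ⟩ : ∃ ρ, er i = ρ := ⟨_, rfl⟩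
      obtain ⟨κ, hκ⟩ : ∃ κ, ek k = κ := ⟨_, rfl⟩
      rw [hρ, hκ] at h
      rcases ρ with ⟨j', i'⟩ | ⟨j', v⟩
      · rcases κ with _ | v <;> simp [attD] at h
      · rcases κ with _ | w
        · simp [attD] at h
        · simp only [attD, Option.some.injEq, Prod.mk.injEq] at h
          have hi : i = er.symm (Sum.inr (j', v)) := by rw [← hρ]; simp
          rcases lf_eq_A h.1 with ⟨h1, h2⟩ | ⟨h1, h2⟩
          · have := h.2
            rw [hi, h1, h2, hline 0] at this
            simp at this
          · have := h.2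
            rw [hi, h1, h2, hline 1] at this
            simp at this
    have hq : q = (fun i => x (2, i), fun i => x (3, i)) := by
      by_contra hne
      obtain ⟨i, k, h⟩ := hcov (Sum.inr (Sum.inl (fun i => x (2, i), fun i => x (3, i))))
        (by simp) (by simpa using fun h => hne h.symm)
      simp only [atl] at h
      obtain ⟨ρ, hρ⟩ : ∃ ρ, er i = ρ := ⟨_, rfl⟩
      obtain ⟨κ, hκ⟩ : ∃ κ, ek k = κ := ⟨_, rfl⟩
      rw [hρ, hκ] at h
      rcases ρ with ⟨j', i'⟩ | ⟨j', v⟩
      · rcases κ with _ | v <;> simp [attD] at h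
      · rcases κ with _ | w
        · simp [attD] at h
        · simp only [attD, Option.some.injEq, Prod.mk.injEq] at h
          have hi : i = er.symm (Sum.inr (j', v)) := by rw [← hρ]; simp
          rcases lf_eq_B h.1 with ⟨h1, h2⟩ | ⟨h1, h2⟩
          · have := h.2
            rw [hi, h1, h2, hline 2] at this
            simp at this
          · have := h.2
            rw [hi, h1, h2, hline 3] at this
            simp at this
    rw [hp, hq, comb_self] at hT
    exact hT
  · intro ht
    let zz : Rws g → Bool := fun ρ => match ρ with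
      | Sum.inl k => x k
      | Sum.inr jv => decide (jv.2 ≠ fun i => x (jv.1, i))
    refine ⟨fun i _ => zz (er i), ?_, (fun i => x (0, i), fun i => x (1, i)),
      (fun i => x (2, i), fun i => x (3, i)), by simpa only [comb_self] using ht, ?_⟩
    · intro i t _ k h1 _
      simp only [un] at h1
      simp only [← h1, Equiv.apply_symm_apply, zz]
    · have key : ∀ (a : LvD g), (∃ ρ κ, attD ρ κ = some (a, zz ρ)) →
          ∃ i k, atl i k = some (a, strand (fun _ => zz (er i)) 1) := by
        rintro a ⟨ρ, κ, h⟩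
        refine ⟨er.symm ρ, ek.symm κ, ?_⟩
        simp only [atl, Equiv.apply_symm_apply]
        rw [Neg.strand_one]
        exact h
      rintro (⟨v, w⟩ | ⟨v, w⟩ | ⟨j, v⟩) h1 h2
      · apply key
        by_cases hv : v = fun i => x (0, i)
        · have hw : w ≠ fun i => x (1, i) := by
            rintro rfl
            exact h1 (by rw [hv])
          refine ⟨Sum.inr (1, w), some v, ?_⟩
          simp [attD, lf, zz, hw]
        · refine ⟨Sum.inr (0, v), some w, ?_⟩
          simp [attD, lf, zz, hv]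
      · apply key
        by_cases hv : v = fun i => x (2, i)
        · have hw : w ≠ fun i => x (3, i) := by
            rintro rfl
            exact h2 (by rw [hv])
          refine ⟨Sum.inr (3, w), some v, ?_⟩
          simp [attD, lf, zz, hw]
        · refine ⟨Sum.inr (2, v), some w, ?_⟩
          simp [attD, lf, zz, hv]
      · apply key
        by_cases hv : v = fun i => x (j, i)
        · refine ⟨Sum.inr (j, v), none, ?_⟩
          simp [attD, zz, hv]
        · obtain ⟨i, hi⟩ := Function.ne_iff.mp hv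
          refine ⟨Sum.inl (j, i), some v, ?_⟩
          simp only [attD, zz, Option.some.injEq, Prod.mk.injEq, true_and]
          revert hi
          cases v i <;> cases x (j, i) <;> simp

end Pool.Agent.W952
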