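import Pool.Agent.W952.Tab

set_option autoImplicit false
set_option linter.unusedSectionVars false

/-! Many entries of one table read by a Hamiltonian cycle: classes of leaves that are entered and
left through private leaves, a configuration telling which classes are matched through edges of the
table. -/

namespace Pool.Agent.W952.Hub

open Pool.Agent.H545R2

/-- leaves -/
inductive Lf (I V Cf Cl : Type) (N : ℕ)
  | big (cl : Cl) (v w : V)
  | en (cl : Cl)
  | ex (cl : Cl)
  | o (i : Fin N)
  | s (i : I)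
  | sc
  | pr (c c' : Cf)
  deriving DecidableEq

/-- the data: the two selectors of a class, left and right classes, the matched classes -/
structure Dat (I Cf Cl : Type) where
  /-- first selector -/
  s1 : Cl → I
  /-- second selector -/
  s2 : Cl → I
  /-- left classes -/
  lf : Cl → Bool
  /-- matched classes -/
  mt : Cf → Cl → Bool

section

variable {I V Cf Cl : Type} {N : ℕ} [DecidableEq I] [DecidableEq V] [DecidableEq Cf]
  [DecidableEq Cl]

/-- rows -/
abbrev Rw (I V Cf : Type) : Type := (I × V) ⊕ Cf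

/-- positions -/
abbrev Ps (V Cf Cl : Type) : Type := (Cl × V × Bool) ⊕ (Unit ⊕ (Cl ⊕ (Cf × Bool)))

/-- attachments -/
def att (D : Dat I Cf Cl) : Rw I V Cf → Ps V Cf Cl → Option (Lf I V Cf Cl N × Bool)
  | Sum.inl (i, v), Sum.inl (cl, w, false) =>
      if D.s1 cl = i then some (.big cl v w, true) else none
  | Sum.inl (i, v), Sum.inl (cl, w, true) =>
      if D.s2 cl = i then some (.big cl w v, true) else none
  | Sum.inl (i, _), Sum.inr (Sum.inl _) => some (.s i, false)
  | Sum.inl _, Sum.inr (Sum.inr _) => none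
  | Sum.inr _, Sum.inl _ => none
  | Sum.inr _, Sum.inr (Sum.inl _) => some (.sc, false)
  | Sum.inr c, Sum.inr (Sum.inr (Sum.inl cl)) =>
      if D.mt c cl = true then some (if D.lf cl = true then .ex cl else .en cl, false) else none
  | Sum.inr c, Sum.inr (Sum.inr (Sum.inr (c', false))) => some (.pr c c', true)
  | Sum.inr c, Sum.inr (Sum.inr (Sum.inr (c', true))) => some (.pr c' c, decide (c ≠ c'))

/-- start of the hub path -/
def hs : Lf I V Cf Cl N → Prop
  | .o _ => True
  | _ => False

/-- end of the hub path -/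
def he : Lf I V Cf Cl N → Prop
  | .ex _ => True
  | _ => False

/-- steps of the hub path -/
def hh (D : Dat I Cf Cl) (R : Cl → Cl → V × V → V × V → Prop) :
    Lf I V Cf Cl N → Lf I V Cf Cl N → Prop
  | .ex _, .o _ => True
  | .o _, .en _ => True
  | .en cl, .big cl' _ _ => cl = cl'
  | .big cl _ _, .ex cl' => cl = cl'
  | .big cl v w, .big cl' v' w' => D.lf cl = true ∧ D.lf cl' = false ∧ R cl cl' (v, w) (v', w')
  | _, _ => False

theorem att_big {D : Dat I Cf Cl} {ρ : Rw I V Cf} {κ : Ps V Cf Cl} {cl : Cl} {v w : V} {m : Bool}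
    (h : att (N := N) D ρ κ = some (.big cl v w, m)) :
    m = true ∧ (ρ = Sum.inl (D.s1 cl, v) ∨ ρ = Sum.inl (D.s2 cl, w)) := by
  rcases ρ with ⟨i, v'⟩ | c
  · rcases κ with ⟨cl', w', _ | _⟩ | (_ | _)
    · simp only [att] at h
      split_ifs at h with h1
      simp only [Option.some.injEq, Prod.mk.injEq, Lf.big.injEq] at h
      obtain ⟨⟨rfl, rfl, rfl⟩, rfl⟩ := h
      exact ⟨rfl, Or.inl (by rw [h1])⟩
    · simp only [att] at h
      split_ifs at h with h1
      simp only [Option.some.injEq, Prod.mk.injEq, Lf.big.injEq] at h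
      obtain ⟨⟨rfl, rfl, rfl⟩, rfl⟩ := h
      exact ⟨rfl, Or.inr (by rw [h1])⟩
    · simp [att] at h
    · simp [att] at h
  · rcases κ with κ | (_ | (cl' | ⟨c', _ | _⟩))
    · simp [att] at h
    · simp [att] at h
    · simp only [att] at h
      split_ifs at h <;> simp at h
    · simp [att] at h
    · simp [att] at h

theorem att_o {D : Dat I Cf Cl} {ρ : Rw I V Cf} {κ : Ps V Cf Cl} {j : Fin N} {m : Bool}
    (h : att (N := N) D ρ κ = some (.o j, m)) : False := by
  rcases ρ with ⟨i, v'⟩ | c
  · rcases κ with ⟨cl', w', _ | _⟩ | (_ | _)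
    · simp only [att] at h
      split_ifs at h <;> simp at h
    · simp only [att] at h
      split_ifs at h <;> simp at h
    · simp [att] at h
    · simp [att] at h
  · rcases κ with κ | (_ | (cl' | ⟨c', _ | _⟩))
    · simp [att] at h
    · simp [att] at h
    · simp only [att] at h
      split_ifs at h <;> simp at h
    · simp [att] at h
    · simp [att] at h

theorem att_s {D : Dat I Cf Cl} {ρ : Rw I V Cf} {κ : Ps V Cf Cl} {i : I} {m : Bool}
    (h : att (N := N) D ρ κ = some (.s i, m)) : m = false ∧ ∃ v, ρ = Sum.inl (i, v) := by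
  rcases ρ with ⟨i, v'⟩ | c
  · rcases κ with ⟨cl', w', _ | _⟩ | (_ | _)
    · simp only [att] at h
      split_ifs at h <;> simp at h
    · simp only [att] at h
      split_ifs at h <;> simp at h
    · simp only [att, Option.some.injEq, Prod.mk.injEq, Lf.s.injEq] at h
      exact ⟨h.2.symm, v', by rw [h.1]⟩
    · simp [att] at h
  · rcases κ with κ | (_ | (cl' | ⟨c', _ | _⟩))
    · simp [att] at h
    · simp [att] at h
    · simp only [att] at h
      split_ifs at h <;> simp at h
    · simp [att] at h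
    · simp [att] at h

theorem att_sc {D : Dat I Cf Cl} {ρ : Rw I V Cf} {κ : Ps V Cf Cl} {m : Bool}
    (h : att (N := N) D ρ κ = some (.sc, m)) : m = false ∧ ∃ c, ρ = Sum.inr c := by
  rcases ρ with ⟨i, v'⟩ | c
  · rcases κ with ⟨cl', w', _ | _⟩ | (_ | _)
    · simp only [att] at h
      split_ifs at h <;> simp at h
    · simp only [att] at h
      split_ifs at h <;> simp at h
    · simp [att] at h
    · simp [att] at h
  · rcases κ with κ | (_ | (cl' | ⟨c', _ | _⟩))
    · simp [att] at h
    · simp only [att, Option.some.injEq, Prod.mk.injEq, true_and] at h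
      exact ⟨h.symm, c, rfl⟩
    · simp only [att] at h
      split_ifs at h <;> simp at h
    · simp [att] at h
    · simp [att] at h

theorem att_ex {D : Dat I Cf Cl} {ρ : Rw I V Cf} {κ : Ps V Cf Cl} {cl : Cl} {m : Bool}
    (h : att (N := N) D ρ κ = some (.ex cl, m)) :
    m = false ∧ ∃ c, ρ = Sum.inr c ∧ D.mt c cl = true ∧ D.lf cl = true := by
  rcases ρ with ⟨i, v'⟩ | c
  · rcases κ with ⟨cl', w', _ | _⟩ | (_ | _)
    · simp only [att] at h
      split_ifs at h <;> simp at h
    · simp only [att] at h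
      split_ifs at h <;> simp at h
    · simp [att] at h
    · simp [att] at h
  · rcases κ with κ | (_ | (cl' | ⟨c', _ | _⟩))
    · simp [att] at h
    · simp [att] at h
    · simp only [att] at h
      split_ifs at h with h1 h2
      · simp only [Option.some.injEq, Prod.mk.injEq, Lf.ex.injEq] at h
        obtain ⟨rfl, rfl⟩ := h
        exact ⟨rfl, c, rfl, h1, h2⟩
      · simp at h
    · simp [att] at h
    · simp [att] at h

theorem att_en {D : Dat I Cf Cl} {ρ : Rw I V Cf} {κ : Ps V Cf Cl} {cl : Cl} {m : Bool}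
    (h : att (N := N) D ρ κ = some (.en cl, m)) :
    m = false ∧ ∃ c, ρ = Sum.inr c ∧ D.mt c cl = true ∧ D.lf cl = false := by
  rcases ρ with ⟨i, v'⟩ | c
  · rcases κ with ⟨cl', w', _ | _⟩ | (_ | _)
    · simp only [att] at h
      split_ifs at h <;> simp at h
    · simp only [att] at h
      split_ifs at h <;> simp at h
    · simp [att] at h
    · simp [att] at h
  · rcases κ with κ | (_ | (cl' | ⟨c', _ | _⟩))
    · simp [att] at h
    · simp [att] at h
    · simp only [att] at h
      split_ifs at h with h1 h2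
      · simp at h
      · simp only [Option.some.injEq, Prod.mk.injEq, Lf.en.injEq] at h
        obtain ⟨rfl, rfl⟩ := h
        exact ⟨rfl, c, rfl, h1, by simpa using h2⟩
    · simp [att] at h
    · simp [att] at h

theorem att_pr {D : Dat I Cf Cl} {ρ : Rw I V Cf} {κ : Ps V Cf Cl} {c c' : Cf} {m : Bool}
    (hc : c ≠ c') (h : att (N := N) D ρ κ = some (.pr c c', m)) :
    m = true ∧ (ρ = Sum.inr c ∨ ρ = Sum.inr c') := by
  rcases ρ with ⟨i, v'⟩ | d
  · rcases κ with ⟨cl', w', _ | _⟩ | (_ | _)
    · simp only [att] at h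
      split_ifs at h <;> simp at h
    · simp only [att] at h
      split_ifs at h <;> simp at h
    · simp [att] at h
    · simp [att] at h
  · rcases κ with κ | (_ | (cl' | ⟨d', _ | _⟩))
    · simp [att] at h
    · simp [att] at h
    · simp only [att] at h
      split_ifs at h <;> simp at h
    · simp only [att, Option.some.injEq, Prod.mk.injEq, Lf.pr.injEq] at h
      exact ⟨h.2.symm, Or.inl (by rw [h.1.1])⟩
    · simp only [att, Option.some.injEq, Prod.mk.injEq, Lf.pr.injEq] at h
      obtain ⟨⟨rfl, rfl⟩, rfl⟩ := h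
      refine ⟨?_, Or.inr rfl⟩
      simpa using fun h => hc h.symm

variable [Fintype I] [Fintype V] [Fintype Cf] [Fintype Cl]

/-- the leaves as a sum type -/
def lfEquiv (I V Cf Cl : Type) (N : ℕ) :
    Lf I V Cf Cl N ≃ (Cl × V × V) ⊕ (Cl ⊕ (Cl ⊕ (Fin N ⊕ (I ⊕ (Unit ⊕ (Cf × Cf)))))) where
  toFun := fun a => match a with
    | .big cl v w => Sum.inl (cl, v, w)
    | .en cl => Sum.inr (Sum.inl cl)
    | .ex cl => Sum.inr (Sum.inr (Sum.inl cl))
    | .o i => Sum.inr (Sum.inr (Sum.inr (Sum.inl i)))
    | .s i => Sum.inr (Sum.inr (Sum.inr (Sum.inr (Sum.inl i))))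
    | .sc => Sum.inr (Sum.inr (Sum.inr (Sum.inr (Sum.inr (Sum.inl ())))))
    | .pr c c' => Sum.inr (Sum.inr (Sum.inr (Sum.inr (Sum.inr (Sum.inr (c, c'))))))
  invFun := fun a => match a with
    | Sum.inl (cl, v, w) => .big cl v w
    | Sum.inr (Sum.inl cl) => .en cl
    | Sum.inr (Sum.inr (Sum.inl cl)) => .ex cl
    | Sum.inr (Sum.inr (Sum.inr (Sum.inl i))) => .o i
    | Sum.inr (Sum.inr (Sum.inr (Sum.inr (Sum.inl i)))) => .s i
    | Sum.inr (Sum.inr (Sum.inr (Sum.inr (Sum.inr (Sum.inl ()))))) => .sc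
    | Sum.inr (Sum.inr (Sum.inr (Sum.inr (Sum.inr (Sum.inr (c, c')))))) => .pr c c'
  left_inv := by rintro (_ | _ | _ | _ | _ | _ | _) <;> rfl
  right_inv := by rintro (_ | _ | _ | _ | _ | _ | _) <;> rfl

instance : Fintype (Lf I V Cf Cl N) := Fintype.ofEquiv _ (lfEquiv I V Cf Cl N).symm

theorem card_lf : Fintype.card (Lf I V Cf Cl N) =
    Fintype.card Cl * (Fintype.card V * Fintype.card V) + (Fintype.card Cl + (Fintype.card Cl +
      (N + (Fintype.card I + (1 + Fintype.card Cf * Fintype.card Cf))))) := by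
  rw [Fintype.card_congr (lfEquiv I V Cf Cl N)]
  simp only [Fintype.card_sum, Fintype.card_prod, Fintype.card_fin, Fintype.card_unit]

end

end Pool.Agent.W952.Hub
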