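import Pool.Agent.W952.HubF

set_option autoImplicit false
set_option linter.unusedSectionVars false

namespace Pool.Agent.W952.Hub

open Pool.Agent.H545R2

section

variable {I V Cf Cl : Type} {N : ℕ} [DecidableEq I] [DecidableEq V] [DecidableEq Cf]
  [DecidableEq Cl] [Fintype I] [Fintype V] [Fintype Cf] [Fintype Cl]

variable {b r : ℕ}

theorem hub_last {α : Type*} {N : ℕ} (f : Fin N → List α) (hf : ∀ i, f i ≠ []) {a : α}
    (ha : a ∈ ((List.finRange N).flatMap f).getLast?) : ∃ i, a ∈ (f i).getLast? := by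
  rw [getLast?_flatMap_ne _ _ (fun i _ => hf i)] at ha
  simp only [Option.mem_def, Option.bind_eq_some_iff] at ha
  obtain ⟨i, -, h⟩ := ha
  exact ⟨i, h⟩

theorem hub_head {α : Type*} {N : ℕ} (f : Fin N → List α) (hf : ∀ i, f i ≠ []) {a : α}
    (ha : a ∈ ((List.finRange N).flatMap f).head?) : ∃ i, a ∈ (f i).head? := by
  rw [head?_flatMap_ne _ _ (fun i _ => hf i)] at ha
  simp only [Option.mem_def, Option.bind_eq_some_iff] at ha
  obtain ⟨i, -, h⟩ := ha
  exact ⟨i, h⟩

/-- the part of the hub path of the class `x` -/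
def seg (D : Dat I Cf Cl) (c : Cf) (val : I → V) (π : Cl → Cl) (x : Cl) :
    List (Lf I V Cf Cl N) :=
  if D.lf x = true ∧ D.mt c x = true then
    [.en x, .big x (val (D.s1 x)) (val (D.s2 x)),
      .big (π x) (val (D.s1 (π x))) (val (D.s2 (π x))), .ex (π x)]
  else [.en x, .big x (val (D.s1 x)) (val (D.s2 x)), .ex x]

theorem backward (D : Dat I Cf Cl) (er : Fin b ≃ Rw I V Cf) (ek : Fin r ≃ Ps V Cf Cl)
    (R : Cl → Cl → V × V → V × V → Prop) (zf : ℕ) (hN0 : 0 < N)
    (hN1 : ∀ c, Fintype.card {x : Cl // D.lf x = true ∨ D.mt c x = false} = N)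
    (hN2 : ∀ c, Fintype.card {x : Cl // D.lf x = true ∧ D.mt c x = true} =
      Fintype.card {x : Cl // D.lf x = false ∧ D.mt c x = true})
    (h : Sat D R) : (hubG (N := N) D er ek R zf).IsHamiltonian := by
  classical
  obtain ⟨c, val, π, hπ, hπi⟩ := h
  have hb0 : 0 < b := by
    rw [Nat.pos_iff_ne_zero]
    rintro rfl
    exact (er.symm (Sum.inr c)).elim0
  have hr0 : 0 < r := by
    rw [Nat.pos_iff_ne_zero]
    rintro rfl
    exact (ek.symm (Sum.inr (Sum.inl ()))).elim0
  -- surjectivity
  have hsurj : ∀ y, D.lf y = false → D.mt c y = true → ∃ x, D.lf x = true ∧ D.mt c x = true ∧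
      π x = y := by
    intro y hy1 hy2
    let f : {x : Cl // D.lf x = true ∧ D.mt c x = true} →
        {x : Cl // D.lf x = false ∧ D.mt c x = true} :=
      fun x => ⟨π x.1, (hπ x.1 x.2.1 x.2.2).1, (hπ x.1 x.2.1 x.2.2).2.1⟩
    have hf : Function.Injective f := by
      intro x y hxy
      have : π x.1 = π y.1 := congrArg Subtype.val hxy
      exact Subtype.ext (hπi _ _ x.2.1 x.2.2 y.2.1 y.2.2 this)
    have hb := (Fintype.bijective_iff_injective_and_card f).mpr ⟨hf, hN2 c⟩
    obtain ⟨x, hx⟩ := hb.2 ⟨y, hy1, hy2⟩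
    exact ⟨x.1, x.2.1, x.2.2, congrArg Subtype.val hx⟩
  obtain ⟨e⟩ : Nonempty (Fin N ≃ {x : Cl // D.lf x = true ∨ D.mt c x = false}) :=
    ⟨(Fintype.equivFinOfCardEq (hN1 c)).symm⟩
  let F : Fin N → List (Lf I V Cf Cl N) := fun i => .o i :: seg D c val π (e i).1
  have hFne : ∀ i, F i ≠ [] := fun i => by simp [F]
  let hub : List (Lf I V Cf Cl N) := (List.finRange N).flatMap F
  have hmem : ∀ a, a ∈ hub ↔ ∃ i, a ∈ F i := by
    intro a
    simp [hub, List.mem_flatMap]
  -- membership
  have hbigmem : ∀ x, Lf.big x (val (D.s1 x)) (val (D.s2 x)) ∈ hub := by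
    intro x
    by_cases hx : D.lf x = true ∨ D.mt c x = false
    · rw [hmem]
      refine ⟨e.symm ⟨x, hx⟩, ?_⟩
      simp only [F, Equiv.apply_symm_apply, seg]
      split_ifs <;> simp
    · push Not at hx
      obtain ⟨h1, h2⟩ := hx
      obtain ⟨y, hy1, hy2, rfl⟩ := hsurj x (by simpa using h1) (by simpa using h2)
      rw [hmem]
      refine ⟨e.symm ⟨y, Or.inl hy1⟩, ?_⟩
      simp only [F, Equiv.apply_symm_apply, seg]
      rw [if_pos ⟨hy1, hy2⟩]
      simp
  have henmem : ∀ x, D.lf x = true ∨ D.mt c x = false → Lf.en x ∈ hub := by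
    intro x hx
    rw [hmem]
    refine ⟨e.symm ⟨x, hx⟩, ?_⟩
    simp only [F, Equiv.apply_symm_apply, seg]
    split_ifs <;> simp
  have hexmem : ∀ x, D.lf x = false ∨ D.mt c x = false → Lf.ex x ∈ hub := by
    intro x hx
    by_cases hx' : D.mt c x = false
    · rw [hmem]
      refine ⟨e.symm ⟨x, Or.inr hx'⟩, ?_⟩
      simp only [F, Equiv.apply_symm_apply, seg]
      rw [if_neg (by simp [hx'])]
      simp
    · have h1 : D.lf x = false := by tauto
      obtain ⟨y, hy1, hy2, rfl⟩ := hsurj x h1 (by simpa using hx')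
      rw [hmem]
      refine ⟨e.symm ⟨y, Or.inl hy1⟩, ?_⟩
      simp only [F, Equiv.apply_symm_apply, seg]
      rw [if_pos ⟨hy1, hy2⟩]
      simp
  have homem : ∀ i, Lf.o i ∈ hub := by
    intro i
    rw [hmem]
    exact ⟨i, by simp [F]⟩
  -- the modes
  let zz : Rw I V Cf → Bool := fun ρ => match ρ with
    | Sum.inl (i, v) => decide (v ≠ val i)
    | Sum.inr c' => decide (c' ≠ c)
  have hcov : ∀ a, a ∉ hub → ∃ ik : Fin b × Fin r,
      atn (N := N) D er ek ik.1 ik.2 = some (a, strand (fun _ => zz (er ik.1)) 1) := by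
    intro a ha
    have key : (∃ ρ κ, att D ρ κ = some (a, zz ρ)) → ∃ ik : Fin b × Fin r,
        atn (N := N) D er ek ik.1 ik.2 = some (a, strand (fun _ => zz (er ik.1)) 1) := by
      rintro ⟨ρ, κ, h⟩
      refine ⟨(er.symm ρ, ek.symm κ), ?_⟩
      simp only [atn, Equiv.apply_symm_apply]
      rw [Neg.strand_one]
      exact h
    apply key
    cases a with
    | big x v w =>
      by_cases hv : v = val (D.s1 x)
      · have hw : w ≠ val (D.s2 x) := by
          rintro rfl
          rw [hv] at ha
          exact ha (hbigmem x)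
        exact ⟨Sum.inl (D.s2 x, w), Sum.inl (x, v, true), by simp [att, zz, hw]⟩
      · exact ⟨Sum.inl (D.s1 x, v), Sum.inl (x, w, false), by simp [att, zz, hv]⟩
    | en x =>
      have hx : ¬ (D.lf x = true ∨ D.mt c x = false) := fun hx => ha (henmem x hx)
      push Not at hx
      refine ⟨Sum.inr c, Sum.inr (Sum.inr (Sum.inl x)), ?_⟩
      have h2 : D.mt c x = true := by simpa using hx.2
      simp [att, zz, h2, hx.1]
    | ex x =>
      have hx : ¬ (D.lf x = false ∨ D.mt c x = false) := fun hx => ha (hexmem x hx)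
      push Not at hx
      refine ⟨Sum.inr c, Sum.inr (Sum.inr (Sum.inl x)), ?_⟩
      have h2 : D.mt c x = true := by simpa using hx.2
      have h1 : D.lf x = true := by simpa using hx.1
      simp [att, zz, h2, h1]
    | o i => exact absurd (homem i) ha
    | s i => exact ⟨Sum.inl (i, val i), Sum.inr (Sum.inl ()), by simp [att, zz]⟩
    | sc => exact ⟨Sum.inr c, Sum.inr (Sum.inl ()), by simp [att, zz]⟩
    | pr d d' =>
      by_cases hd : d = c
      · by_cases hd' : d' = c
        · exact ⟨Sum.inr c, Sum.inr (Sum.inr (Sum.inr (c, true))), by simp [att, zz, hd, hd']⟩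
        · refine ⟨Sum.inr d', Sum.inr (Sum.inr (Sum.inr (d, true))), ?_⟩
          have : d' ≠ d := by rw [hd]; exact hd'
          simp [att, zz, hd', this]
      · exact ⟨Sum.inr d, Sum.inr (Sum.inr (Sum.inr (d', false))), by simp [att, zz, hd]⟩
  haveI : Nonempty (Fin b × Fin r) := ⟨(⟨0, hb0⟩, ⟨0, hr0⟩)⟩
  choose! ch hch using hcov
  let cov : Lf I V Cf Cl N → Option (Fin b × Fin r) := fun a =>
    if a ∈ hub then none else some (ch a)
  have hnil : hub ≠ [] := by
    intro h0
    have := homem ⟨0, hN0⟩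
    rw [h0] at this
    simp at this
  -- nodup
  have hbig_of : ∀ (i : Fin N) (x : Cl) (v w : V), Lf.big x v w ∈ F i → x = (e i).1 ∨
      (D.lf (e i).1 = true ∧ D.mt c (e i).1 = true ∧ x = π (e i).1) := by
    intro i x v w h
    simp only [F, seg] at h
    split_ifs at h with h1
    · simp only [List.mem_cons, reduceCtorEq, Lf.big.injEq, List.not_mem_nil, or_false,
        false_or] at h
      rcases h with ⟨h, -⟩ | ⟨h, -⟩
      · exact Or.inl h
      · exact Or.inr ⟨h1.1, h1.2, h⟩
    · simp only [List.mem_cons, reduceCtorEq, Lf.big.injEq, List.not_mem_nil, or_false,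
        false_or] at h
      exact Or.inl h.1
  have hex_of : ∀ (i : Fin N) (x : Cl), Lf.ex x ∈ F i →
      (¬ (D.lf (e i).1 = true ∧ D.mt c (e i).1 = true) ∧ x = (e i).1) ∨
      (D.lf (e i).1 = true ∧ D.mt c (e i).1 = true ∧ x = π (e i).1) := by
    intro i x h
    simp only [F, seg] at h
    split_ifs at h with h1
    · simp only [List.mem_cons, reduceCtorEq, Lf.ex.injEq, List.not_mem_nil, or_false,
        false_or] at h
      exact Or.inr ⟨h1.1, h1.2, h⟩
    · simp only [List.mem_cons, reduceCtorEq, Lf.ex.injEq, List.not_mem_nil, or_false,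
        false_or] at h
      exact Or.inl ⟨h1, h⟩
  have hen_of : ∀ (i : Fin N) (x : Cl), Lf.en x ∈ F i → x = (e i).1 := by
    intro i x h
    simp only [F, seg] at h
    split_ifs at h with h1
    · simpa using h
    · simpa using h
  have hee : ∀ i j, (e i).1 = (e j).1 → i = j := fun i j h => e.injective (Subtype.ext h)
  have hcross : ∀ i j, D.lf (e i).1 = true → D.mt c (e i).1 = true → π (e i).1 ≠ (e j).1 := by
    intro i j h1 h2 h3
    have h4 := hπ _ h1 h2
    rcases (e j).2 with h5 | h5
    · rw [← h3, h4.1] at h5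
      simp at h5
    · rw [← h3, h4.2.1] at h5
      simp at h5
  have hdisj : ∀ i j, i ≠ j → List.Disjoint (F i) (F j) := by
    intro i j hij a ha hb
    cases a with
    | big x v w =>
      rcases hbig_of i x v w ha with h1 | ⟨h1, h2, h3⟩
      · rcases hbig_of j x v w hb with h4 | ⟨h4, h5, h6⟩
        · exact hij (hee i j (h1.symm.trans h4))
        · exact hcross j i h4 h5 (h6.symm.trans h1)
      · rcases hbig_of j x v w hb with h4 | ⟨h4, h5, h6⟩
        · exact hcross i j h1 h2 (h3.symm.trans h4)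
        · exact hij (hee i j (hπi _ _ h1 h2 h4 h5 (h3.symm.trans h6)))
    | en x => exact hij (hee i j ((hen_of i x ha).symm.trans (hen_of j x hb)))
    | ex x =>
      rcases hex_of i x ha with ⟨-, h1⟩ | ⟨h1, h2, h3⟩
      · rcases hex_of j x hb with ⟨-, h4⟩ | ⟨h4, h5, h6⟩
        · exact hij (hee i j (h1.symm.trans h4))
        · exact hcross j i h4 h5 (h6.symm.trans h1)
      · rcases hex_of j x hb with ⟨-, h4⟩ | ⟨h4, h5, h6⟩
        · exact hcross i j h1 h2 (h3.symm.trans h4)
        · exact hij (hee i j (hπi _ _ h1 h2 h4 h5 (h3.symm.trans h6)))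
    | o k =>
      have h1 : k = i := by
        simp only [F, seg] at ha
        split_ifs at ha <;> simpa using ha
      have h2 : k = j := by
        simp only [F, seg] at hb
        split_ifs at hb <;> simpa using hb
      exact hij (h1.symm.trans h2)
    | s k =>
      simp only [F, seg] at ha
      split_ifs at ha <;> simp at ha
    | sc =>
      simp only [F, seg] at ha
      split_ifs at ha <;> simp at ha
    | pr d d' =>
      simp only [F, seg] at ha
      split_ifs at ha <;> simp at ha
  have hnd : hub.Nodup := by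
    rw [List.nodup_flatMap]
    refine ⟨fun i _ => ?_, ?_⟩
    · simp only [F, seg]
      split_ifs with h1
      · have h2 : (e i).1 ≠ π (e i).1 := by
          intro h2
          have := (hπ _ h1.1 h1.2).1
          rw [← h2, h1.1] at this
          simp at this
        simp [h2]
      · simp
    · exact (List.nodup_finRange N).imp (fun {i j} hij => hdisj i j hij)
  have hlast : ∀ i, ∀ a ∈ (F i).getLast?, ∃ x, a = Lf.ex x := by
    intro i a ha
    simp only [F, seg] at ha
    split_ifs at ha
    · simp at ha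
      exact ⟨_, ha.symm⟩
    · simp at ha
      exact ⟨_, ha.symm⟩
  have hhead : ∀ i, ∀ a ∈ (F i).head?, a = Lf.o i := by
    intro i a ha
    simp only [F, List.head?_cons, Option.mem_def, Option.some.injEq] at ha
    exact ha.symm
  refine gadget_back (l := 1) (atl := atn D er ek) (ok := fun _ _ _ => True) (hs := hs)
    (he := he) (hh := hh D R) (se := False) hb0 zf (fun i _ => zz (er i)) (fun _ _ _ => trivial)
    hub hnd cov ?_ ?_ ?_ ?_ ?_ ?_
  · intro a i k h
    simp only [cov] at h
    split_ifs at h with ha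
    simp only [Option.some.injEq] at h
    have := hch a ha
    rw [h] at this
    exact this
  · intro a
    simp only [cov]
    split_ifs with ha <;> simp [ha]
  · apply isChain_flatMap
    · intro i _
      simp only [F, seg]
      split_ifs with h1
      · have h2 := hπ _ h1.1 h1.2
        simp only [List.isChain_cons_cons, List.isChain_singleton, and_true, hh, true_and]
        exact ⟨h1.1, h2.1, h2.2.2⟩
      · simp only [List.isChain_cons_cons, List.isChain_singleton, and_true, hh]
    · intro i _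
      exact hFne i
    · refine (finRange_chain N).imp ?_
      intro i j _ x hx y hy
      obtain ⟨u, rfl⟩ := hlast i x hx
      rw [hhead j y hy]
      trivial
  · intro a ha
    obtain ⟨i, hi⟩ := hub_head F hFne ha
    rw [hhead i a hi]
    trivial
  · intro a ha
    obtain ⟨i, hi⟩ := hub_last F hFne ha
    obtain ⟨u, rfl⟩ := hlast i a hi
    trivial
  · intro h0
    exact absurd h0 hnil

end

end Pool.Agent.W952.Hub
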