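import Pool.Agent.W952.Hub

set_option autoImplicit false
set_option linter.unusedSectionVars false

namespace Pool.Agent.W952.Hub

open Pool.Agent.H545R2

section

variable {I V Cf Cl : Type} {N : ℕ} [DecidableEq I] [DecidableEq V] [DecidableEq Cf]
  [DecidableEq Cl] [Fintype I] [Fintype V] [Fintype Cf] [Fintype Cl]

variable {b r : ℕ}

/-- the attachments of numbered rows at numbered positions -/
def atn (D : Dat I Cf Cl) (er : Fin b ≃ Rw I V Cf) (ek : Fin r ≃ Ps V Cf Cl) :
    Fin b → Fin r → Option (Lf I V Cf Cl N × Bool) := fun i k => att D (er i) (ek k)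

/-- the graph -/
def hubG (D : Dat I Cf Cl) (er : Fin b ≃ Rw I V Cf) (ek : Fin r ≃ Ps V Cf Cl)
    (R : Cl → Cl → V × V → V × V → Prop) (zf : ℕ) :
    SimpleGraph (SegV (Sg b r 1 (Lf I V Cf Cl N)) zf) :=
  segGraph (GR (atn D er ek) (fun _ _ _ => True) hs he (hh D R) False)
    (.fin : Sg b r 1 (Lf I V Cf Cl N)) zf

/-- what the graph decides -/
def Sat (D : Dat I Cf Cl) (R : Cl → Cl → V × V → V × V → Prop) : Prop :=
  ∃ (c : Cf) (val : I → V) (π : Cl → Cl),
    (∀ x, D.lf x = true → D.mt c x = true → D.lf (π x) = false ∧ D.mt c (π x) = true ∧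
      R x (π x) (val (D.s1 x), val (D.s2 x)) (val (D.s1 (π x)), val (D.s2 (π x)))) ∧
    ∀ x y, D.lf x = true → D.mt c x = true → D.lf y = true → D.mt c y = true → π x = π y → x = y

theorem forward (D : Dat I Cf Cl) (er : Fin b ≃ Rw I V Cf) (ek : Fin r ≃ Ps V Cf Cl)
    (R : Cl → Cl → V × V → V × V → Prop) (zf : ℕ)
    (hN : ∀ c, Fintype.card {x : Cl // D.lf x = false ∨ D.mt c x = false} = N)
    (h : (hubG (N := N) D er ek R zf).IsHamiltonian) : Sat D R := by
  classical
  have h3 : 3 ≤ Fintype.card (SegV (Sg b r 1 (Lf I V Cf Cl N)) zf) := by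
    have : 1 ≤ Fintype.card (Sg b r 1 (Lf I V Cf Cl N)) := Fintype.card_pos_iff.mpr ⟨.fin⟩
    simp only [Fintype.card_sum, Fintype.card_prod, Fintype.card_option, Fintype.card_bool,
      Fintype.card_fin]
    omega
  obtain ⟨ν, hν1, hν2, hν3⟩ := seg_matching h3 h
  have hν : Matching (atn D er ek) (fun _ _ _ => True) hs he (hh D R) False ν := ⟨hν1, hν2, hν3⟩
  obtain ⟨z, -, hmode⟩ := hν.modes
  have hside := hν.sides hmode
  -- modes of rows
  obtain ⟨md, hmd⟩ : ∃ md : Rw I V Cf → Bool, ∀ i, strand (z i) 1 = md (er i) :=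
    ⟨fun ρ => strand (z (er.symm ρ)) 1, fun i => by simp⟩
  let Hb : Lf I V Cf Cl N → Prop := fun a =>
    (((hs a ∧ ν (.leaf a, false) = (.fin, true)) ∨
        ∃ a', hh D R a' a ∧ ν (.leaf a, false) = (.leaf a', true)) ∧
      ((he a ∧ ∃ (i : Fin b) (t : Fin (1 + 1)), i.val = 0 ∧ t.val = 0 ∧
          ν (.leaf a, true) = (.link i t false, false)) ∨
        ∃ a', hh D R a a' ∧ ν (.leaf a, true) = (.leaf a', false)))
  have H1 : ∀ a : Lf I V Cf Cl N, (∀ ρ κ, att D ρ κ ≠ some (a, md ρ)) → Hb a := by
    intro a ha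
    rcases hside a with ⟨⟨i, k, h1⟩, -, -⟩ | h1
    · exfalso
      rw [hmd] at h1
      exact ha _ _ h1
    · exact h1
  have H2 : ∀ a a' : Lf I V Cf Cl N, ν (.leaf a, true) = (.leaf a', false) → Hb a ∧ Hb a' := by
    intro a a' haa
    have haa' := hν.eq_comm' haa
    constructor
    · rcases hside a with ⟨-, -, ⟨i, x, s, h2⟩⟩ | h1
      · rw [haa] at h2
        simp at h2
      · exact h1
    · rcases hside a' with ⟨-, ⟨i, x, s, h2⟩, -⟩ | h1
      · rw [haa'] at h2
        simp at h2
      · exact h1
  have H3 : ∀ a : Lf I V Cf Cl N, Hb a ∨ ∃ ρ κ, att D ρ κ = some (a, md ρ) := by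
    intro a
    by_cases ha : ∀ ρ κ, att D ρ κ ≠ some (a, md ρ)
    · exact Or.inl (H1 a ha)
    · push Not at ha
      exact Or.inr ha
  -- the configuration
  obtain ⟨c, hc⟩ : ∃ c, md (Sum.inr c) = false := by
    rcases H3 .sc with h1 | ⟨ρ, κ, h1⟩
    · exfalso
      rcases h1.1 with ⟨h2, -⟩ | ⟨a', h2, -⟩
      · exact h2
      · cases a' <;> exact h2
    · obtain ⟨h2, c, h3⟩ := att_sc h1
      exact ⟨c, by rw [← h3]; exact h2⟩
  have hcu : ∀ c', md (Sum.inr c') = false → c' = c := by
    intro c' hc'
    by_contra hne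
    rcases H3 (.pr c' c) with h1 | ⟨ρ, κ, h1⟩
    · rcases h1.1 with ⟨h2, -⟩ | ⟨a', h2, -⟩
      · exact h2
      · cases a' <;> exact h2
    · obtain ⟨h2, h3 | h3⟩ := att_pr hne h1
      · rw [h3, hc'] at h2
        simp at h2
      · rw [h3, hc] at h2
        simp at h2
  -- the values
  have hval : ∀ i, ∃ v, md (Sum.inl (i, v)) = false := by
    intro i
    rcases H3 (.s i) with h1 | ⟨ρ, κ, h1⟩
    · exfalso
      rcases h1.1 with ⟨h2, -⟩ | ⟨a', h2, -⟩
      · exact h2
      · cases a' <;> exact h2
    · obtain ⟨h2, v, h3⟩ := att_s h1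
      exact ⟨v, by rw [← h3]; exact h2⟩
  choose val hval using hval
  have Hbig : ∀ x : Cl, Hb (.big x (val (D.s1 x)) (val (D.s2 x))) := by
    intro x
    apply H1
    intro ρ κ h1
    obtain ⟨h2, h3 | h3⟩ := att_big h1
    · rw [h3, hval] at h2
      simp at h2
    · rw [h3, hval] at h2
      simp at h2
  -- successors
  have Sbig : ∀ (x : Cl) (v w : V), D.lf x = false → Hb (.big x v w) →
      ν (.leaf (.big x v w), true) = (.leaf (.ex x), false) := by
    intro x v w hx h1
    rcases h1.2 with ⟨h2, -⟩ | ⟨a', h2, h3⟩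
    · exact h2.elim
    · rw [h3]
      cases a' <;> simp only [hh] at h2
      · rw [hx] at h2
        simp at h2
      · rw [h2]
  have Pbig : ∀ (x : Cl) (v w : V), D.lf x = true → Hb (.big x v w) →
      ν (.leaf (.en x), true) = (.leaf (.big x v w), false) := by
    intro x v w hx h1
    apply hν.eq_comm'
    rcases h1.1 with ⟨h2, -⟩ | ⟨a', h2, h3⟩
    · exact h2.elim
    · rw [h3]
      cases a' <;> simp only [hh] at h2
      · rw [hx] at h2
        simp at h2
      · rw [h2]
  have hinj : ∀ p q, ν p = ν q → p = q := fun p q hpq => hν.inj hpq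
  -- the exits
  have Hex : ∀ x : Cl, D.lf x = false ∨ D.mt c x = false → Hb (.ex x) := by
    intro x hx
    rcases hx with hx | hx
    · exact (H2 _ _ (Sbig x _ _ hx (Hbig x))).2
    · apply H1
      intro ρ κ h1
      obtain ⟨h2, c', h3, h4, -⟩ := att_ex h1
      rw [h3] at h2
      rw [hcu c' h2, hx] at h4
      simp at h4
  have count : ∀ x : Cl, D.lf x = true → D.mt c x = true → ¬ Hb (.ex x) := by
    intro x hx1 hx2 hx3
    let E := {x : Cl // D.lf x = false ∨ D.mt c x = false}
    let P : Option (Option E) → Sg b r 1 (Lf I V Cf Cl N) × Bool := fun e => match e with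
      | none => (.fin, true)
      | some none => (.leaf (.ex x), true)
      | some (some e) => (.leaf (.ex e.1), true)
    have hP : Function.Injective P := by
      rintro (_ | _ | ⟨y, hy⟩) (_ | _ | ⟨y', hy'⟩) hyy
      · rfl
      · simp [P] at hyy
      · simp [P] at hyy
      · simp [P] at hyy
      · rfl
      · simp only [P, Prod.mk.injEq, Sg.leaf.injEq, Lf.ex.injEq, and_true] at hyy
        subst hyy
        rcases hy' with h | h
        · rw [hx1] at h; simp at h
        · rw [hx2] at h; simp at h
      · simp [P] at hyy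
      · simp only [P, Prod.mk.injEq, Sg.leaf.injEq, Lf.ex.injEq, and_true] at hyy
        subst hyy
        rcases hy with h | h
        · rw [hx1] at h; simp at h
        · rw [hx2] at h; simp at h
      · simp only [P, Prod.mk.injEq, Sg.leaf.injEq, Lf.ex.injEq, and_true] at hyy
        subst hyy
        rfl
    have hb0 : 0 < b := by
      rw [Nat.pos_iff_ne_zero]
      rintro rfl
      exact (er.symm (Sum.inr c)).elim0
    have hQ : ∀ e, ∃ y : Option (Fin N), ν (P e) = match y with
        | none => (.link ⟨0, hb0⟩ 0 false, false)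
        | some j => (.leaf (.o j), false) := by
      have hexit : ∀ y : Cl, Hb (.ex y) → ∃ u : Option (Fin N),
          ν (.leaf (.ex y), true) = match u with
            | none => (.link ⟨0, hb0⟩ 0 false, false)
            | some j => (.leaf (.o j), false) := by
        intro y hy
        rcases hy.2 with ⟨-, i, t, hi, ht, h2⟩ | ⟨a', h2, h3⟩
        · refine ⟨none, ?_⟩
          rw [h2]
          have e1 : i = ⟨0, hb0⟩ := Fin.ext hi
          have e2 : t = 0 := Fin.ext ht
          rw [e1, e2]
        · cases a' <;> simp only [hh] at h2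
          rename_i j
          exact ⟨some j, h3⟩
      rintro (_ | _ | ⟨y, hy⟩)
      · have h4 := hν.adj (.fin, true)
        show ∃ u : Option (Fin N), ν (.fin, true) = _
        rcases h4 with h4 | h4
        · generalize ν (.fin, true) = w at h4
          cases h4 with
          | hubS a h5 =>
            cases a <;> simp only [hs] at h5
            rename_i j
            exact ⟨some j, rfl⟩
          | sE i t h5 h6 h7 => exact h5.elim
        · generalize ν (.fin, true) = w at h4
          cases h4
      · exact hexit x hx3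
      · exact hexit y (Hex y hy)
    choose F hF using hQ
    have hFi : Function.Injective F := by
      intro e e' hee
      apply hP
      apply hinj
      rw [hF, hF, hee]
    have hcard := Fintype.card_le_of_injective F hFi
    have := hN c
    rw [Fintype.card_option, Fintype.card_option, Fintype.card_option, Fintype.card_fin, this]
      at hcard
    omega
  -- the matching
  have key : ∀ x : Cl, D.lf x = true → D.mt c x = true → ∃ y : Cl, D.lf y = false ∧
      D.mt c y = true ∧ R x y (val (D.s1 x), val (D.s2 x)) (val (D.s1 y), val (D.s2 y)) ∧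
      ν (.leaf (.big x (val (D.s1 x)) (val (D.s2 x))), true) =
        (.leaf (.big y (val (D.s1 y)) (val (D.s2 y))), false) := by
    intro x hx1 hx2
    rcases (Hbig x).2 with ⟨h2, -⟩ | ⟨a', h2, h3⟩
    · exact h2.elim
    · cases a' <;> simp only [hh] at h2
      · rename_i y v w
        obtain ⟨-, h4, h5⟩ := h2
        have h6 := (H2 _ _ h3).2
        have h7 := Sbig y v w h4 h6
        have h8 := Sbig y _ _ h4 (Hbig y)
        have h9 := hinj _ _ (h7.trans h8.symm)
        simp only [Prod.mk.injEq, Sg.leaf.injEq, Lf.big.injEq, true_and, and_true] at h9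
        obtain ⟨rfl, rfl⟩ := h9
        refine ⟨y, h4, ?_, h5, h3⟩
        by_contra hm
        have hm' : D.mt c y = false := by simpa using hm
        have h10 : Hb (.en y) := by
          apply H1
          intro ρ κ h11
          obtain ⟨h12, c', h13, h14, -⟩ := att_en h11
          rw [h13] at h12
          rw [hcu c' h12, hm'] at h14
          simp at h14
        rcases h10.2 with ⟨h11, -⟩ | ⟨a'', h11, h12⟩
        · exact h11.elim
        · cases a'' <;> simp only [hh] at h11
          rename_i y' v' w'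
          subst h11
          have h13 := (H2 _ _ h12).2
          have h14 := Sbig y v' w' h4 h13
          have h15 := hinj _ _ (h14.trans h8.symm)
          simp only [Prod.mk.injEq, Sg.leaf.injEq, Lf.big.injEq, true_and, and_true] at h15
          obtain ⟨rfl, rfl⟩ := h15
          have h16 := hinj _ _ (h12.trans h3.symm)
          simp at h16
      · subst h2
        exact absurd (H2 _ _ h3).2 (count x hx1 hx2)
  choose! π hπ1 hπ2 hπ3 hπ4 using key
  refine ⟨c, val, π, fun x h1 h2 => ⟨hπ1 x h1 h2, hπ2 x h1 h2, hπ3 x h1 h2⟩, ?_⟩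
  intro x y hx1 hx2 hy1 hy2 hxy
  have h4 := hπ4 x hx1 hx2
  have h5 := hπ4 y hy1 hy2
  rw [hxy] at h4
  have h6 := hinj _ _ (h4.trans h5.symm)
  simp only [Prod.mk.injEq, Sg.leaf.injEq, Lf.big.injEq, and_true] at h6
  exact h6.1

end

end Pool.Agent.W952.Hub
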