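import Pool.Agent.W952.HubP

set_option autoImplicit false
set_option linter.unusedSectionVars false

/-! The gadget when the matched classes are given by two injections. -/

namespace Pool.Agent.W952.Hub

section

variable {I V Cf Cl J : Type} [DecidableEq I] [DecidableEq V] [DecidableEq Cf]
  [DecidableEq Cl] [Fintype I] [Fintype V] [Fintype Cf] [Fintype Cl] [Fintype J]

/-- the matched classes are given by two injections -/
structure Par (D : Dat I Cf Cl) (mL mR : Cf → J → Cl) : Prop where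
  iL : ∀ c, Function.Injective (mL c)
  iR : ∀ c, Function.Injective (mR c)
  lL : ∀ c j, D.lf (mL c j) = true
  lR : ∀ c j, D.lf (mR c j) = false
  mt : ∀ c x, D.mt c x = true ↔ ∃ j, x = mL c j ∨ x = mR c j

theorem card_ps (V Cf Cl : Type) [Fintype V] [Fintype Cf] [Fintype Cl] :
    Fintype.card (Ps V Cf Cl) = Fintype.card Cl * (Fintype.card V * 2) +
      (1 + (Fintype.card Cl + Fintype.card Cf * 2)) := by
  simp only [Fintype.card_sum, Fintype.card_prod, Fintype.card_bool, Fintype.card_unit]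

theorem card_rw (I V Cf : Type) [Fintype I] [Fintype V] [Fintype Cf] :
    Fintype.card (Rw I V Cf) = Fintype.card I * Fintype.card V + Fintype.card Cf := by
  simp only [Fintype.card_sum, Fintype.card_prod]

variable {D : Dat I Cf Cl} {mL mR : Cf → J → Cl}

theorem Par.cardL (h : Par D mL mR) (c : Cf) :
    Fintype.card {x : Cl // D.lf x = true ∧ D.mt c x = true} = Fintype.card J := by
  symm
  refine Fintype.card_congr (Equiv.ofBijective
    (fun j => ⟨mL c j, h.lL c j, (h.mt c _).mpr ⟨j, Or.inl rfl⟩⟩) ⟨?_, ?_⟩)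
  · intro j j' hj
    exact h.iL c (congrArg Subtype.val hj)
  · rintro ⟨x, hx1, hx2⟩
    obtain ⟨j, rfl | rfl⟩ := (h.mt c x).mp hx2
    · exact ⟨j, rfl⟩
    · rw [h.lR] at hx1
      simp at hx1

theorem Par.cardR (h : Par D mL mR) (c : Cf) :
    Fintype.card {x : Cl // D.lf x = false ∧ D.mt c x = true} = Fintype.card J := by
  symm
  refine Fintype.card_congr (Equiv.ofBijective
    (fun j => ⟨mR c j, h.lR c j, (h.mt c _).mpr ⟨j, Or.inr rfl⟩⟩) ⟨?_, ?_⟩)
  · intro j j' hj
    exact h.iR c (congrArg Subtype.val hj)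
  · rintro ⟨x, hx1, hx2⟩
    obtain ⟨j, rfl | rfl⟩ := (h.mt c x).mp hx2
    · rw [h.lL] at hx1
      simp at hx1
    · exact ⟨j, rfl⟩

theorem Par.card1 (h : Par D mL mR) (c : Cf) :
    Fintype.card {x : Cl // D.lf x = true ∨ D.mt c x = false} =
      Fintype.card Cl - Fintype.card J := by
  rw [← h.cardR c, ← Fintype.card_subtype_compl]
  apply Fintype.card_congr
  apply Equiv.subtypeEquivRight
  intro x
  cases D.lf x <;> cases D.mt c x <;> simp

theorem Par.card2 (h : Par D mL mR) (c : Cf) :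
    Fintype.card {x : Cl // D.lf x = false ∨ D.mt c x = false} =
      Fintype.card Cl - Fintype.card J := by
  rw [← h.cardL c, ← Fintype.card_subtype_compl]
  apply Fintype.card_congr
  apply Equiv.subtypeEquivRight
  intro x
  cases D.lf x <;> cases D.mt c x <;> simp

theorem Par.pos (h : Par D mL mR) (c : Cf) (hJ : 0 < Fintype.card J) :
    0 < Fintype.card Cl - Fintype.card J := by
  rw [← h.card1 c, Fintype.card_pos_iff]
  obtain ⟨j⟩ := Fintype.card_pos_iff.mp hJ
  exact ⟨⟨mL c j, Or.inl (h.lL c j)⟩⟩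

theorem Par.sat (h : Par D mL mR) (R : Cl → Cl → V × V → V × V → Prop)
    (hR : ∀ c j j' p p', R (mL c j) (mR c j') p p' → j = j') :
    Sat D R ↔ ∃ (c : Cf) (val : I → V), ∀ j, R (mL c j) (mR c j)
      (val (D.s1 (mL c j)), val (D.s2 (mL c j))) (val (D.s1 (mR c j)), val (D.s2 (mR c j))) := by
  classical
  constructor
  · rintro ⟨c, val, π, h1, -⟩
    refine ⟨c, val, fun j => ?_⟩
    obtain ⟨h2, h3, h4⟩ := h1 (mL c j) (h.lL c j) ((h.mt c _).mpr ⟨j, Or.inl rfl⟩)
    obtain ⟨j', h5 | h5⟩ := (h.mt c _).mp h3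
    · rw [h5, h.lL] at h2
      simp at h2
    · rw [h5] at h4
      have := hR c j j' _ _ h4
      subst this
      exact h4
  · rintro ⟨c, val, h1⟩
    refine ⟨c, val, fun x => if hx : ∃ j, x = mL c j then mR c hx.choose else x, ?_, ?_⟩
    · intro x hx1 hx2
      obtain ⟨j, rfl | rfl⟩ := (h.mt c x).mp hx2
      · have hx : ∃ j', mL c j = mL c j' := ⟨j, rfl⟩
        have hj : hx.choose = j := (h.iL c hx.choose_spec).symm
        simp only
        rw [dif_pos hx, hj]
        exact ⟨h.lR c j, (h.mt c _).mpr ⟨j, Or.inr rfl⟩, h1 j⟩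
      · rw [h.lR] at hx1
        simp at hx1
    · intro x y hx1 hx2 hy1 hy2 hxy
      obtain ⟨j, rfl | rfl⟩ := (h.mt c x).mp hx2
      swap
      · rw [h.lR] at hx1
        simp at hx1
      obtain ⟨j', rfl | rfl⟩ := (h.mt c y).mp hy2
      swap
      · rw [h.lR] at hy1
        simp at hy1
      have hx : ∃ j', mL c j = mL c j' := ⟨j, rfl⟩
      have hy : ∃ j'', mL c j' = mL c j'' := ⟨j', rfl⟩
      have hj : hx.choose = j := (h.iL c hx.choose_spec).symm
      have hj' : hy.choose = j' := (h.iL c hy.choose_spec).symm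
      simp only at hxy
      rw [dif_pos hx, dif_pos hy, hj, hj'] at hxy
      rw [h.iR c hxy]

theorem Par.place (h : Par D mL mR) (hJ : 0 < Fintype.card J) (hC : Nonempty Cf) {n : ℕ}
    (hn : 3 * segN (Fintype.card (Rw I V Cf)) (Fintype.card (Ps V Cf Cl)) 1
      (Fintype.card (Lf I V Cf Cl (Fintype.card Cl - Fintype.card J))) ≤ n) :
    ∃ G : (Cl → Cl → V × V → V × V → Prop) → SimpleGraph (Fin n),
      (∀ e : Sym2 (Fin n), (∃ x y p q, ∀ R, e ∈ (G R).edgeSet ↔ R x y p q) ∨
        ∃ P : Prop, ∀ R, e ∈ (G R).edgeSet ↔ P) ∧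
      ∀ R, (∀ c j j' p p', R (mL c j) (mR c j') p p' → j = j') →
        ((G R).IsHamiltonian ↔ ∃ (c : Cf) (val : I → V), ∀ j, R (mL c j) (mR c j)
      (val (D.s1 (mL c j)), val (D.s2 (mL c j))) (val (D.s1 (mR c j)), val (D.s2 (mR c j)))) := by
  obtain ⟨c⟩ := hC
  obtain ⟨G, hG1, hG2⟩ := Hub.place D hn (h.pos c hJ) h.card1 h.card2
    (fun c => (h.cardL c).trans (h.cardR c).symm)
  exact ⟨G, hG1, fun R hR => (hG2 R).trans (h.sat R hR)⟩

end

end Pool.Agent.W952.Hub
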