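import Pool.Agent.W952.Tab

set_option autoImplicit false
set_option linter.unusedSectionVars false

/-! The table graphs on `Fin n` with prescribed places for the variable pairs. -/

namespace Pool.Agent.W952

open Pool.Agent.H545R2

section

variable {b r l : ℕ} {A B D K : Type}

/-- availability of the states of the units -/
def avOf (un : K → Fin b × Fin l) (w : K → Bool → Prop) (i : Fin b) (t : ℕ) (s : Bool) : Prop :=
  ∀ k, (un k).1 = i → (un k).2.val = t → w k s

/-- the centre of the cherry of the unit `k` -/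
def ctr (un : K → Fin b × Fin l) (zf : ℕ) (k : K) : SegV (Sg b r l (Lv A B D)) zf :=
  Sum.inl (.link (un k).1 (un k).2.castSucc false, some true)

/-- the ends of the cherry of the unit `k` -/
def nd (un : K → Fin b × Fin l) (zf : ℕ) (k : K × Bool) : SegV (Sg b r l (Lv A B D)) zf :=
  Sum.inl (.link (un k.1).1 (un k.1).2.succ k.2, some false)

theorem adj_var {atl : Fin b → Fin r → Option (Lv A B D × Bool)} {un : K → Fin b × Fin l}
    (hun : Function.Injective un) {w : K → Bool → Prop} {T : A → B → Prop} {zf : ℕ}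
    (k : K) (s : Bool) :
    (tabG atl (avOf un w) T zf).Adj (ctr un zf k) (nd un zf (k, s)) ↔ w k s := by
  unfold tabG segGraph ctr nd
  rw [SimpleGraph.fromRel_adj]
  constructor
  · rintro ⟨_, h | h⟩
    · cases h with
      | port m m' β β' h =>
        exact h.2 (un k).1 (un k).2.castSucc (un k).2.succ s (by simp) rfl rfl k rfl (by simp)
    · cases h with
      | port m m' β β' h => cases h.1
  · intro h
    refine ⟨by simp, Or.inl (.port _ _ _ _ ⟨.unit _ _ _ _ _ (by simp) trivial, ?_⟩)⟩
    intro i t t' s' ht hp hq k' h1 h2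
    simp only [Prod.mk.injEq, Sg.link.injEq, and_true] at hp hq
    have e : k' = k := by
      apply hun
      apply Prod.ext
      · rw [h1, ← hp.1]
      · ext
        rw [h2, ← hp.2]
        simp
    rw [e, ← hq.2.2]
    exact h

theorem rel_change {atl : Fin b → Fin r → Option (Lv A B D × Bool)} {un : K → Fin b × Fin l}
    {w w' : K → Bool → Prop} {T : A → B → Prop} {zf : ℕ}
    {u v : SegV (Sg b r l (Lv A B D)) zf}
    (h : SegRel (RX atl (avOf un w) T) .fin zf u v) :
    SegRel (RX atl (avOf un w') T) .fin zf u v ∨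
      ∃ k s, u = ctr un zf k ∧ v = nd un zf (k, s) := by
  cases h with
  | port m m' β β' h =>
    by_cases h' : ∀ (i : Fin b) (t t' : Fin (l + 1)) (s' : Bool), t.val + 1 = t'.val →
      (m, β) = (.link i t false, true) → (m', β') = (.link i t' s', false) →
        avOf un w' i t.val s'
    · exact Or.inl (.port _ _ _ _ ⟨h.1, h'⟩)
    · right
      push Not at h'
      obtain ⟨i, t, t', s', ht, hp, hq, hn⟩ := h'
      unfold avOf at hn
      push Not at hn
      obtain ⟨k, h1, h2, _⟩ := hn
      refine ⟨k, s', ?_, ?_⟩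
      · unfold ctr
        simp only [Prod.mk.injEq] at hp
        rw [hp.1, hp.2, h1]
        have : t = (un k).2.castSucc := by ext; simp [h2]
        rw [this]
      · unfold nd
        simp only [Prod.mk.injEq] at hq
        rw [hq.1, hq.2]
        simp only
        rw [h1]
        have : t' = (un k).2.succ := by ext; simp; omega
        rw [this]
  | mid m β h => exact Or.inl (.mid m β h)
  | midf j h => exact Or.inl (.midf j h)
  | ff j j' h => exact Or.inl (.ff j j' h)
  | fp j h => exact Or.inl (.fp j h)

variable [Fintype A] [Fintype B] [Fintype D] [DecidableEq A] [DecidableEq B] [DecidableEq D]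
  [Fintype K]

/-- the number of segments -/
def segN (b r l c : ℕ) : ℕ := b * (3 * r + 1) + b * (2 * (l + 1)) + (c + 1)

theorem place {n : ℕ} (atl : Fin b → Fin r → Option (Lv A B D × Bool)) (un : K → Fin b × Fin l)
    (hun : Function.Injective un) (hb : 0 < b) (hr : 0 < r)
    (hn : 3 * segN b r l (Fintype.card (Lv A B D)) ≤ n)
    (c : K → Fin n) (u : K × Bool → Fin n) (hc : Function.Injective c)
    (hu : Function.Injective u) (hcu : ∀ k k', c k ≠ u k') :
    ∃ G : (A → B → Prop) → (K → Bool → Prop) → SimpleGraph (Fin n),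
      (∀ T w k s, (G T w).Adj (c k) (u (k, s)) ↔ w k s) ∧
      (∀ T w w' v v', (∀ k s, ¬ (v = c k ∧ v' = u (k, s)) ∧ ¬ (v' = c k ∧ v = u (k, s))) →
        (G T w).Adj v v' → (G T w').Adj v v') ∧
      (∀ T w, (G T w).IsHamiltonian ↔
        ∃ z : Fin b → ℕ → Bool, (∀ i t, t < l → avOf un w i t (z i t)) ∧ ∃ p q, T p q ∧
          ∀ a : Lv A B D, a ≠ Sum.inl p → a ≠ Sum.inr (Sum.inl q) →
            ∃ i k, atl i k = some (a, strand (z i) l)) := by
  classical
  have hcard : Fintype.card (Sg b r l (Lv A B D)) = segN b r l (Fintype.card (Lv A B D)) := by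
    rw [card_sg]
    rfl
  obtain ⟨zf, hzf⟩ : ∃ zf, n = 3 * Fintype.card (Sg b r l (Lv A B D)) + zf :=
    ⟨n - 3 * Fintype.card (Sg b r l (Lv A B D)), by rw [hcard]; omega⟩
  have hcV : Fintype.card (Fin n) = Fintype.card (SegV (Sg b r l (Lv A B D)) zf) := by
    simp only [Fintype.card_sum, Fintype.card_prod, Fintype.card_option, Fintype.card_bool,
      Fintype.card_fin] at hzf ⊢
    omega
  let f : K ⊕ (K × Bool) → Fin n := Sum.elim c u
  let g : K ⊕ (K × Bool) → SegV (Sg b r l (Lv A B D)) zf := Sum.elim (ctr un zf) (nd un zf)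
  have hf : Function.Injective f := by
    rintro (x | x) (x' | x') h
    · exact congrArg Sum.inl (hc h)
    · exact absurd h (hcu _ _)
    · exact absurd h.symm (hcu _ _)
    · exact congrArg Sum.inr (hu h)
  have hg : Function.Injective g := by
    rintro (k | ⟨k, s⟩) (k' | ⟨k', s'⟩) h
    · simp only [g, Sum.elim_inl, ctr, Sum.inl.injEq, Prod.mk.injEq, Sg.link.injEq, and_true] at h
      congr 1
      apply hun
      exact Prod.ext h.1 (Fin.castSucc_injective _ h.2)
    · simp [g, ctr, nd] at h
    · simp [g, ctr, nd] at h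
    · simp only [g, Sum.elim_inr, nd, Sum.inl.injEq, Prod.mk.injEq, Sg.link.injEq, and_true] at h
      congr 1
      apply Prod.ext
      · apply hun
        exact Prod.ext h.1 (Fin.succ_injective _ h.2.1)
      · exact h.2.2
  obtain ⟨Θ, hΘ⟩ := Neg.extend_place hcV f g hf hg
  have hΘc : ∀ k, Θ (c k) = ctr un zf k := fun x => hΘ (Sum.inl x)
  have hΘu : ∀ k, Θ (u k) = nd un zf k := fun x => hΘ (Sum.inr x)
  refine ⟨fun T w => (tabG atl (avOf un w) T zf).comap Θ, ?_, ?_, ?_⟩
  · intro T w k s
    rw [SimpleGraph.comap_adj, hΘc, hΘu]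
    exact adj_var hun k s
  · intro T w w' v v' hv h
    rw [SimpleGraph.comap_adj] at h ⊢
    unfold tabG segGraph at h ⊢
    rw [SimpleGraph.fromRel_adj] at h ⊢
    refine ⟨h.1, ?_⟩
    rcases h.2 with h | h
    · rcases rel_change (w' := w') h with h | ⟨k, s, h1, h2⟩
      · exact Or.inl h
      · exfalso
        apply (hv k s).1
        constructor
        · apply Θ.injective
          rw [h1, hΘc]
        · apply Θ.injective
          rw [h2, hΘu]
    · rcases rel_change (w' := w') h with h | ⟨k, s, h1, h2⟩
      · exact Or.inr h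
      · exfalso
        apply (hv k s).2
        constructor
        · apply Θ.injective
          rw [h1, hΘc]
        · apply Θ.injective
          rw [h2, hΘu]
  · intro T w
    rw [← tabG_iff (zf := zf) hb hr]
    constructor
    · intro h
      exact Neg.ham_of_hom' (G := (tabG atl (avOf un w) T zf).comap Θ)
        (H := tabG atl (avOf un w) T zf) ⟨Θ, fun {a b} h => h⟩ Θ.bijective h
    · intro h
      refine Neg.ham_of_hom' (G := tabG atl (avOf un w) T zf)
        (H := (tabG atl (avOf un w) T zf).comap Θ) ⟨Θ.symm, fun {a b} h => ?_⟩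
        Θ.symm.bijective h
      show (tabG atl (avOf un w) T zf).Adj (Θ (Θ.symm a)) (Θ (Θ.symm b))
      rwa [Equiv.apply_symm_apply, Equiv.apply_symm_apply]

end

end Pool.Agent.W952
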