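import Pool.Agent.W952.HubB
import Pool.Agent.W952.Place

set_option autoImplicit false
set_option linter.unusedSectionVars false

namespace Pool.Agent.W952.Hub

open Pool.Agent.H545R2

section

variable {I V Cf Cl : Type} {N : ℕ} [DecidableEq I] [DecidableEq V] [DecidableEq Cf]
  [DecidableEq Cl] [Fintype I] [Fintype V] [Fintype Cf] [Fintype Cl]

variable {b r : ℕ}

theorem gr_change {D : Dat I Cf Cl} {er : Fin b ≃ Rw I V Cf} {ek : Fin r ≃ Ps V Cf Cl}
    {R R' : Cl → Cl → V × V → V × V → Prop} {p q : Sg b r 1 (Lf I V Cf Cl N) × Bool}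
    (h : GR (atn D er ek) (fun _ _ _ => True) hs he (hh D R) False p q) :
    GR (atn D er ek) (fun _ _ _ => True) hs he (hh D R') False p q ∨
      ∃ x y v w v' w', D.lf x = true ∧ D.lf y = false ∧ p = (.leaf (.big x v w), true) ∧
        q = (.leaf (.big y v' w'), false) := by
  cases h with
  | rail i x y s t h1 h2 => exact Or.inl (.rail _ _ _ _ _ h1 h2)
  | first i x t s h1 h2 => exact Or.inl (.first _ _ _ _ h1 h2)
  | dd i i' t t' s h1 h2 h3 => exact Or.inl (.dd _ _ _ _ _ h1 h2 h3)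
  | ddf i t s h1 h2 => exact Or.inl (.ddf _ _ _ h1 h2)
  | last i x t s h1 h2 => exact Or.inl (.last _ _ _ _ h1 h2)
  | unit i t t' s s' h1 h2 => exact Or.inl (.unit _ _ _ _ _ h1 h2)
  | att0 i k x a m h1 h2 => exact Or.inl (.att0 _ _ _ _ _ h1 h2)
  | att1 i k x a m h1 h2 => exact Or.inl (.att1 _ _ _ _ _ h1 h2)
  | hubS a h1 => exact Or.inl (.hubS a h1)
  | hubL a a' h1 =>
    cases a <;> cases a' <;> simp only [hh] at h1
    · rename_i x v w y v' w'
      exact Or.inr ⟨x, y, v, w, v', w', h1.1, h1.2.1, rfl, rfl⟩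
    · exact Or.inl (.hubL _ _ (by simpa only [hh] using h1))
    · exact Or.inl (.hubL _ _ (by simpa only [hh] using h1))
    · exact Or.inl (.hubL _ _ (by simp only [hh]))
    · exact Or.inl (.hubL _ _ (by simp only [hh]))
  | hubE a i t h1 h2 h3 => exact Or.inl (.hubE a i t h1 h2 h3)
  | sE i t h1 h2 h3 => exact h1.elim

theorem segrel_change {D : Dat I Cf Cl} {er : Fin b ≃ Rw I V Cf} {ek : Fin r ≃ Ps V Cf Cl}
    {R R' : Cl → Cl → V × V → V × V → Prop} {zf : ℕ}
    {u v : SegV (Sg b r 1 (Lf I V Cf Cl N)) zf}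
    (h : SegRel (GR (atn D er ek) (fun _ _ _ => True) hs he (hh D R) False)
      (.fin : Sg b r 1 (Lf I V Cf Cl N)) zf u v) :
    SegRel (GR (atn D er ek) (fun _ _ _ => True) hs he (hh D R') False)
      (.fin : Sg b r 1 (Lf I V Cf Cl N)) zf u v ∨
      ∃ x y a w a' w', D.lf x = true ∧ D.lf y = false ∧
        u = Sum.inl (.leaf (.big x a w), some true) ∧
        v = Sum.inl (.leaf (.big y a' w'), some false) := by
  cases h with
  | port m m' β β' h =>
    rcases gr_change (R' := R') h with h | ⟨x, y, a, w, a', w', h1, h2, h3, h4⟩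
    · exact Or.inl (.port _ _ _ _ h)
    · refine Or.inr ⟨x, y, a, w, a', w', h1, h2, ?_, ?_⟩
      · simp only [Prod.mk.injEq] at h3
        rw [h3.1, h3.2]
      · simp only [Prod.mk.injEq] at h4
        rw [h4.1, h4.2]
  | mid m β h => exact Or.inl (.mid m β h)
  | midf j h => exact Or.inl (.midf j h)
  | ff j j' h => exact Or.inl (.ff j j' h)
  | fp j h => exact Or.inl (.fp j h)

theorem adj_big {D : Dat I Cf Cl} {er : Fin b ≃ Rw I V Cf} {ek : Fin r ≃ Ps V Cf Cl}
    {R : Cl → Cl → V × V → V × V → Prop} {zf : ℕ} {x y : Cl} {a w a' w' : V}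
    (hx : D.lf x = true) (hy : D.lf y = false) :
    (hubG (N := N) D er ek R zf).Adj (Sum.inl (.leaf (.big x a w), some true))
      (Sum.inl (.leaf (.big y a' w'), some false)) ↔ R x y (a, w) (a', w') := by
  unfold hubG segGraph
  rw [SimpleGraph.fromRel_adj]
  constructor
  · rintro ⟨-, h | h⟩
    · cases h with
      | port m m' β β' h =>
        cases h with
        | hubL a a' h1 =>
          simp only [hh] at h1
          exact h1.2.2
    · cases h with
      | port m m' β β' h => cases h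
  · intro h
    exact ⟨by simp, Or.inl (.port _ _ _ _ (.hubL _ _ (by simp only [hh]; exact ⟨hx, hy, h⟩)))⟩

theorem place (D : Dat I Cf Cl) {n : ℕ} (hn : 3 * segN (Fintype.card (Rw I V Cf))
      (Fintype.card (Ps V Cf Cl)) 1 (Fintype.card (Lf I V Cf Cl N)) ≤ n) (hN0 : 0 < N)
    (hN1 : ∀ c, Fintype.card {x : Cl // D.lf x = true ∨ D.mt c x = false} = N)
    (hN2 : ∀ c, Fintype.card {x : Cl // D.lf x = false ∨ D.mt c x = false} = N)
    (hN3 : ∀ c, Fintype.card {x : Cl // D.lf x = true ∧ D.mt c x = true} =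
      Fintype.card {x : Cl // D.lf x = false ∧ D.mt c x = true}) :
    ∃ G : (Cl → Cl → V × V → V × V → Prop) → SimpleGraph (Fin n),
      (∀ e : Sym2 (Fin n), (∃ x y p q, ∀ R, e ∈ (G R).edgeSet ↔ R x y p q) ∨
        ∃ P : Prop, ∀ R, e ∈ (G R).edgeSet ↔ P) ∧
      ∀ R, (G R).IsHamiltonian ↔ Sat D R := by
  classical
  obtain ⟨b, hb⟩ : ∃ b, b = Fintype.card (Rw I V Cf) := ⟨_, rfl⟩
  obtain ⟨r, hr⟩ : ∃ r, r = Fintype.card (Ps V Cf Cl) := ⟨_, rfl⟩
  rw [← hb, ← hr] at hn
  let er : Fin b ≃ Rw I V Cf := (Fintype.equivFinOfCardEq hb.symm).symm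
  let ek : Fin r ≃ Ps V Cf Cl := (Fintype.equivFinOfCardEq hr.symm).symm
  have hcard : Fintype.card (Sg b r 1 (Lf I V Cf Cl N)) =
      segN b r 1 (Fintype.card (Lf I V Cf Cl N)) := by
    rw [card_sg]
    rfl
  obtain ⟨zf, hzf⟩ : ∃ zf, n = 3 * Fintype.card (Sg b r 1 (Lf I V Cf Cl N)) + zf :=
    ⟨n - 3 * Fintype.card (Sg b r 1 (Lf I V Cf Cl N)), by rw [hcard]; omega⟩
  have hcV : Fintype.card (SegV (Sg b r 1 (Lf I V Cf Cl N)) zf) = n := by
    simp only [Fintype.card_sum, Fintype.card_prod, Fintype.card_option, Fintype.card_bool,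
      Fintype.card_fin] at hzf ⊢
    omega
  let Θ : Fin n ≃ SegV (Sg b r 1 (Lf I V Cf Cl N)) zf := (Fintype.equivFinOfCardEq hcV).symm
  refine ⟨fun R => (hubG (N := N) D er ek R zf).comap Θ, ?_, ?_⟩
  · intro e
    induction e using Sym2.ind with
    | _ u v =>
      by_cases h1 : ∃ x y a w a' w', D.lf x = true ∧ D.lf y = false ∧
          Θ u = Sum.inl (.leaf (.big x a w), some true) ∧
          Θ v = Sum.inl (.leaf (.big y a' w'), some false)
      · obtain ⟨x, y, a, w, a', w', hx, hy, hu, hv⟩ := h1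
        left
        refine ⟨x, y, (a, w), (a', w'), fun R => ?_⟩
        rw [SimpleGraph.mem_edgeSet, SimpleGraph.comap_adj, hu, hv]
        exact adj_big hx hy
      by_cases h2 : ∃ x y a w a' w', D.lf x = true ∧ D.lf y = false ∧
          Θ v = Sum.inl (.leaf (.big x a w), some true) ∧
          Θ u = Sum.inl (.leaf (.big y a' w'), some false)
      · obtain ⟨x, y, a, w, a', w', hx, hy, hu, hv⟩ := h2
        left
        refine ⟨x, y, (a, w), (a', w'), fun R => ?_⟩
        rw [SimpleGraph.mem_edgeSet, SimpleGraph.comap_adj, hu, hv, SimpleGraph.adj_comm]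
        exact adj_big hx hy
      right
      have key : ∀ R R', (hubG (N := N) D er ek R zf).Adj (Θ u) (Θ v) →
          (hubG (N := N) D er ek R' zf).Adj (Θ u) (Θ v) := by
        intro R R' h
        unfold hubG segGraph at h ⊢
        rw [SimpleGraph.fromRel_adj] at h ⊢
        refine ⟨h.1, ?_⟩
        rcases h.2 with h | h
        · rcases segrel_change (R' := R') h with h | h
          · exact Or.inl h
          · exact absurd h h1
        · rcases segrel_change (R' := R') h with h | h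
          · exact Or.inr h
          · exact absurd h h2
      refine ⟨(hubG (N := N) D er ek (fun _ _ _ _ => False) zf).Adj (Θ u) (Θ v), fun R => ?_⟩
      rw [SimpleGraph.mem_edgeSet, SimpleGraph.comap_adj]
      exact ⟨key _ _, key _ _⟩
  · intro R
    have hiff : (hubG (N := N) D er ek R zf).IsHamiltonian ↔ Sat D R :=
      ⟨forward D er ek R zf hN2, backward D er ek R zf hN0 hN1 hN3⟩
    rw [← hiff]
    constructor
    · intro h
      exact Neg.ham_of_hom' (G := (hubG (N := N) D er ek R zf).comap Θ)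
        (H := hubG (N := N) D er ek R zf) ⟨Θ, fun {a b} h => h⟩ Θ.bijective h
    · intro h
      refine Neg.ham_of_hom' (G := hubG (N := N) D er ek R zf)
        (H := (hubG (N := N) D er ek R zf).comap Θ) ⟨Θ.symm, fun {a b} h => ?_⟩
        Θ.symm.bijective h
      show (hubG (N := N) D er ek R zf).Adj (Θ (Θ.symm a)) (Θ (Θ.symm b))
      rwa [Equiv.apply_symm_apply, Equiv.apply_symm_apply]

end

end Pool.Agent.W952.Hub
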