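import Pool.Agent.W952.Plug
import Pool.Agent.H822R5.LN.CSP
import Pool.Agent.H554R2.Lin.Main
import Pool.Agent.H554R2.Lin.Blocks

set_option autoImplicit false
set_option linter.unusedSectionVars false

/-! Branching programs of length `k n ^ 2` for Hamiltonicity need `2 ^ (n ^ 2 / D)` nodes. -/

open Finset

namespace Pool.Agent.W952.LT

open Pool.Agent.H822R5.LN Pool.Agent.W952.Mx Pool.Agent.W952.Fr Pool.Agent.W952.Hub
open Pool.Agent.W952.Ap
open Pool.Agent.H554R2.Sem Pool.Agent.H554R2.Coin Pool.Agent.H554R2.Lin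

theorem size_arith {Q F N m : ℕ} (hQ : 1 ≤ Q) (hN : N ≤ Q) (hm : Q + 2 * F + 10 ≤ m) :
    3 * segN (8 * m + F) (Q * (m * 2) + (1 + (Q + F * 2))) 1
      (Q * (m * m) + (Q + (Q + (N + (8 + (1 + F * F)))))) ≤ 400 * (Q * (m * m)) := by
  unfold segN
  have h1 : 8 * m + F ≤ 9 * m := by omega
  have hmQ : m ≤ Q * m := Nat.le_mul_of_pos_left m hQ
  have h2 : 3 * (Q * (m * 2) + (1 + (Q + F * 2))) + 1 ≤ 10 * (Q * m) := by
    have : Q * (m * 2) = 2 * (Q * m) := by ring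
    omega
  have h3 : (8 * m + F) * (3 * (Q * (m * 2) + (1 + (Q + F * 2))) + 1) ≤ 90 * (Q * (m * m)) := by
    calc _ ≤ (9 * m) * (10 * (Q * m)) := Nat.mul_le_mul h1 h2
      _ = 90 * (Q * (m * m)) := by ring
  have hmm : m ≤ m * m := Nat.le_mul_of_pos_left m (by omega)
  have hQm : m * m ≤ Q * (m * m) := Nat.le_mul_of_pos_left _ hQ
  have h4 : (8 * m + F) * (2 * (1 + 1)) ≤ 36 * (Q * (m * m)) := by
    calc _ ≤ (9 * m) * 4 := Nat.mul_le_mul h1 (by norm_num)
      _ = 36 * m := by ring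
      _ ≤ 36 * (Q * (m * m)) := Nat.mul_le_mul_left _ (hmm.trans hQm)
  have h5 : F * F ≤ m * m := Nat.mul_le_mul (by omega) (by omega)
  omega

theorem size_ok {p l M m : ℕ} [NeZero M] [NeZero m]
    (hm : Fintype.card (Cls p l) + 2 * Fintype.card (Conf p l M) + 10 ≤ m) :
    3 * segN (Fintype.card (Rw (Bool × Bool × Bool) (ZMod m) (Conf p l M)))
      (Fintype.card (Ps (ZMod m) (Conf p l M) (Cls p l))) 1
      (Fintype.card (Lf (Bool × Bool × Bool) (ZMod m) (Conf p l M) (Cls p l)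
        (Fintype.card (Cls p l) - Fintype.card (Jx p)))) ≤
      400 * (Fintype.card (Cls p l) * (m * m)) := by
  rw [card_rw, card_ps, card_lf, ZMod.card]
  have h3 : Fintype.card (Bool × Bool × Bool) = 8 := rfl
  rw [h3]
  have h4 : 1 ≤ Fintype.card (Cls p l) := by
    rw [card_cls]; omega
  exact size_arith h4 (Nat.sub_le _ _) hm

theorem card_gm (p l M m : ℕ) [NeZero M] [NeZero m] (hp : 1 ≤ p) :
    Fintype.card (Mu p l × Rest M m) ≤
      Fintype.card (Wd l) * (Fintype.card (Wd l) * Fintype.card (Wd l)) * (8 * p) * nr M m := by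
  rw [Fintype.card_prod (Mu p l) (Rest M m),
    Fintype.card_prod (Wd l × Wd l × Wd l) ({s : ℕ // s ∈ Sp p} × Bool),
    Fintype.card_prod (Wd l) (Wd l × Wd l), Fintype.card_prod (Wd l) (Wd l),
    Fintype.card_prod {s : ℕ // s ∈ Sp p} Bool, Fintype.card_bool]
  have h1 : Fintype.card {s : ℕ // s ∈ Sp p} ≤ 4 * p := by
    rw [Fintype.card_coe]
    exact TCSP.CSP p hp
  have h2 : Fintype.card (Rest M m) = nr M m := rfl
  rw [h2]
  apply Nat.mul_le_mul_right
  calc _ ≤ Fintype.card (Wd l) * (Fintype.card (Wd l) * Fintype.card (Wd l)) * (4 * p * 2) :=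
        Nat.mul_le_mul_left _ (Nat.mul_le_mul_right _ h1)
    _ = _ := by ring

theorem conf_nonempty {p l M : ℕ} [NeZero M] (hp : 3 ≤ p) : Nonempty (Conf p l M) := by
  have h0 : 0 ∈ Sp p := by
    unfold Sp
    rw [Finset.mem_image]
    refine ⟨(0, 0), ?_, rfl⟩
    rw [Finset.mem_filter, Finset.mem_product, Finset.mem_range]
    refine ⟨⟨by simp only; omega, by simp only; omega⟩, by simp⟩
  have hpp : 0 < p * p := by positivity
  let w : Wd l := (fun _ => none, fun _ => none)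
  let z : Fin (p * p) := ⟨0, hpp⟩
  refine ⟨⟨((w, w, w), (⟨0, h0⟩, false)), (0, 0), fun t => decide (t = z),
    fun t => decide (t = z), ?_⟩⟩
  simp only
  unfold Fr.par
  rw [Finset.sum_eq_single (z, z)]
  · have : pos p 0 = 0 := by simp [pos]
    simp [z, this]
  · rintro ⟨a, b⟩ - hne
    rw [if_neg]
    rintro ⟨⟨-, h1⟩, h2⟩
    apply hne
    simp only [decide_eq_true_eq] at h1 h2
    rw [h1, h2]
  · intro h
    exact absurd (Finset.mem_univ _) h

theorem Mix.weaken {X : Type} [Fintype X] {E : X → X → Prop} {q q' : ℕ} (h : Mix X E q')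
    (hq : q ≤ q') : Mix X E q := by
  intro U W hU hW
  exact h U W (hU.trans (Nat.mul_le_mul_right _ hq)) (hW.trans (Nat.mul_le_mul_right _ hq))

theorem main (k : ℕ) : ∃ D : ℕ, 0 < D ∧ ∀ n ≥ D, ∀ P : BP (Sym2 (Fin n)) Bool,
    Fintype.card P.State < 2 ^ (n ^ 2 / D) →
    (∀ (G : SimpleGraph (Fin n)) (x : Sym2 (Fin n) → Bool), (∀ e, x e = true ↔ e ∈ G.edgeSet) →
      ∀ l, P.Comp x l false → ¬ G.IsHamiltonian) →
    ∃ (G : SimpleGraph (Fin n)) (x : Sym2 (Fin n) → Bool), (∀ e, x e = true ↔ e ∈ G.edgeSet) ∧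
      ¬ G.IsHamiltonian ∧ ∀ l, P.Comp x l false → k * n ^ 2 < l.length := by
  classical
  obtain ⟨C2, hC2⟩ : ∃ c : ℕ, c = 4096000000 := ⟨_, rfl⟩
  obtain ⟨Q, r, N, hQ, hr, hN, hmain⟩ := main_rect (k * C2 + 1)
  obtain ⟨l, hl⟩ := words (2 * (2 * (2 * (2 * Q))))
  obtain ⟨W, hW⟩ : ∃ c, c = Fintype.card (Wd l) := ⟨_, rfl⟩
  obtain ⟨p, hpge, hp⟩ := Nat.exists_infinite_primes
    ((2 * (2 * Q)) * (2 * (2 * Q)) + 32 * N * (W * (W * W)) + W + 4)
  have hp3 : 3 ≤ p := by omega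
  have hp0 : 0 < p := by omega
  obtain ⟨M, hM0, A, B, hInd, hdens⟩ := Dsg.design (p * p) (by nlinarith)
  have : NeZero M := ⟨hM0.ne'⟩
  obtain ⟨X, hX⟩ : ∃ c, c = (p * p) ^ (p * p) := ⟨_, rfl⟩
  rw [← hX] at hdens
  have hXW : W + 1 ≤ X := by
    have h1 : p * p ≤ X := by
      rw [hX]
      exact Nat.le_self_pow (by positivity) _
    have h2 : p ≤ p * p := Nat.le_mul_of_pos_left p hp0
    omega
  obtain ⟨Qc, hQc⟩ : ∃ c, c = Fintype.card (Cls p l) := ⟨_, rfl⟩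
  have hQcX : Qc ≤ 10 * X := by
    rw [hQc, card_cls, ← hX, ← hW]
    omega
  obtain ⟨F, hF⟩ : ∃ c, c = Fintype.card (Conf p l M) := ⟨_, rfl⟩
  obtain ⟨C0, hC0⟩ : ∃ c, c = 4000 * X := ⟨_, rfl⟩
  have hX0 : 0 < X := by omega
  obtain ⟨m0, hm0⟩ : ∃ c, c = Qc + 2 * F + 10 + r + N := ⟨_, rfl⟩
  obtain ⟨D, hD⟩ : ∃ c, c = C0 * (m0 * m0) + 2 * N * (r + 1) * C2 + 1 := ⟨_, rfl⟩
  refine ⟨D, by omega, ?_⟩
  intro n hn P hPs hPf
  by_contra hneg
  push Not at hneg
  -- the parameter `m`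
  obtain ⟨m, hm⟩ : ∃ c, c = Nat.sqrt (n / C0) := ⟨_, rfl⟩
  have hC00 : 0 < C0 := by omega
  have hmm : m0 ≤ m := by
    rw [hm, Nat.le_sqrt, Nat.le_div_iff_mul_le hC00]
    have : m0 * m0 * C0 = C0 * (m0 * m0) := by ring
    rw [this]
    omega
  have hm1 : 1 ≤ m := by omega
  have : NeZero m := ⟨by omega⟩
  have hsq1 : C0 * (m * m) ≤ n := by
    have h1 : m * m ≤ n / C0 := by
      rw [hm]
      exact Nat.sqrt_le _
    calc C0 * (m * m) ≤ C0 * (n / C0) := Nat.mul_le_mul_left _ h1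
      _ ≤ n := Nat.mul_div_le n C0
  have hsq2 : n ≤ 16000 * (X * (m * m)) := by
    have h1 : n / C0 < (m + 1) * (m + 1) := by
      rw [hm]
      exact Nat.lt_succ_sqrt _
    rw [Nat.div_lt_iff_lt_mul hC00] at h1
    have h2 : (m + 1) * (m + 1) ≤ 4 * (m * m) := by nlinarith
    calc n ≤ (m + 1) * (m + 1) * C0 := h1.le
      _ ≤ 4 * (m * m) * C0 := Nat.mul_le_mul_right _ h2
      _ = 16000 * (X * (m * m)) := by rw [hC0]; ring
  set N' := p * p * nr M m with hN'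
  have hnr : nr M m = (M * M) * ((m * m) * (m * m)) := nr_eq
  have hn2 : n ^ 2 ≤ C2 * N' := by
    calc n ^ 2 ≤ (16000 * (X * (m * m))) ^ 2 := Nat.pow_le_pow_left hsq2 2
      _ = 256000000 * ((X * X) * ((m * m) * (m * m))) := by ring
      _ ≤ 256000000 * ((16 * (M * M * (p * p))) * ((m * m) * (m * m))) :=
          Nat.mul_le_mul_left _ (Nat.mul_le_mul_right _ hdens)
      _ = C2 * N' := by rw [hN', hnr, hC2]; ring
  have hmN' : m ≤ N' := by
    rw [hN', hnr]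
    have h1 : m ≤ m * m := Nat.le_mul_of_pos_left m (by omega)
    have h2 : m * m ≤ (m * m) * (m * m) := Nat.le_mul_of_pos_left _ (by positivity)
    have h3 : (m * m) * (m * m) ≤ M * M * ((m * m) * (m * m)) :=
      Nat.le_mul_of_pos_left _ (by positivity)
    have h4 : M * M * ((m * m) * (m * m)) ≤ p * p * (M * M * ((m * m) * (m * m))) :=
      Nat.le_mul_of_pos_left _ (by positivity)
    exact h1.trans (h2.trans (h3.trans h4))
  have hN'0 : 0 < N' := by omega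
  -- the family
  have hsize := size_ok (p := p) (l := l) (M := M) (m := m) (by rw [← hQc, ← hF]; omega)
  have hfit : 400 * (Fintype.card (Cls p l) * (m * m)) ≤ n := by
    rw [← hQc]
    calc 400 * (Qc * (m * m)) ≤ 400 * ((10 * X) * (m * m)) :=
          Nat.mul_le_mul_left _ (Nat.mul_le_mul_right _ hQcX)
      _ = C0 * (m * m) := by rw [hC0]; ring
      _ ≤ n := hsq1
  obtain ⟨φ, hφ⟩ := fam (p := p) (M := M) (m := m) (l := l) hp0 hInd (conf_nonempty hp3)
    (hsize.trans hfit)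
  obtain ⟨P', hP'c, hP'1, hP'2⟩ := Plug.plug hN'0 φ P
  set G0 : Finset (Pt N') := univ.filter (fun x : Pt N' => ∀ γ : Mu p l × Rest M m, Fm γ x = 0)
    with hG0
  have hzeros : 2 ^ N' ≤ 2 ^ (2 * Fintype.card (Mu p l × Rest M m)) * G0.card := by
    have := RM.zeros (Γ := Mu p l × Rest M m) (fun γ => Fm (M := M) (m := m) γ)
      (fun γ => Fm_deg γ) (fun _ => false) (fun γ => Fm_zero γ)
    rw [Fintype.card_fin] at this
    convert this
  have hGk : ∀ x ∈ G0, ∃ l', P'.Comp x l' false ∧ l'.length ≤ k * n ^ 2 := by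
    intro x hx
    obtain ⟨G, hG1, hG2⟩ := hφ x
    have hnot : ¬ G.IsHamiltonian := by
      rw [hG2]
      push Not
      exact (Finset.mem_filter.mp hx).2
    obtain ⟨l', h1, h2⟩ := hneg G (subs φ x) hG1 hnot
    obtain ⟨l'', h3, h4⟩ := hP'1 x l' false h1
    exact ⟨l'', h4, by omega⟩
  -- blocks
  set s := k * C2 * N' / r + 1 with hs
  have hs1 : k * C2 * N' ≤ r * s := by
    have := Nat.lt_mul_div_succ (k * C2 * N') hr
    rw [hs]; exact this.le
  have hrN : r ≤ N' := by omega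
  have hs2 : r * s ≤ (k * C2 + 1) * N' := by
    have h1 := Nat.mul_div_le (k * C2 * N') r
    have h2 : r * s = r * (k * C2 * N' / r) + r := by rw [hs]; ring
    have h3 : (k * C2 + 1) * N' = k * C2 * N' + N' := by ring
    omega
  obtain ⟨Bk, hB1, hB2⟩ := blocks P' r s hr G0 (by
    intro x hx
    obtain ⟨l', h1, h2⟩ := hGk x hx
    refine ⟨l', h1, ?_⟩
    calc l'.length ≤ k * n ^ 2 := h2
      _ ≤ k * (C2 * N') := Nat.mul_le_mul_left k hn2
      _ = k * C2 * N' := by ring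
      _ ≤ r * s := hs1)
  rw [hP'c] at hB1
  -- sizes
  have hΓ : Fintype.card (Mu p l × Rest M m) ≤ W * (W * W) * (8 * p) * nr M m := by
    rw [hW]
    exact card_gm p l M m (by omega)
  have hΓ2 : 2 * (N * (2 * Fintype.card (Mu p l × Rest M m))) ≤ N' := by
    have hpW : 32 * N * (W * (W * W)) ≤ p := by omega
    calc 2 * (N * (2 * Fintype.card (Mu p l × Rest M m))) ≤
        2 * (N * (2 * (W * (W * W) * (8 * p) * nr M m))) :=
          Nat.mul_le_mul_left _ (Nat.mul_le_mul_left _ (Nat.mul_le_mul_left _ hΓ))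
      _ = (32 * N * (W * (W * W))) * (p * nr M m) := by ring
      _ ≤ p * (p * nr M m) := Nat.mul_le_mul_right _ hpW
      _ = N' := by rw [hN']; ring
  have hnD : 2 * (N * ((n ^ 2 / D) * (r + 1))) ≤ N' := by
    have h1 : n ^ 2 / D * D ≤ n ^ 2 := Nat.div_mul_le_self _ _
    have h2 : n ^ 2 / D * (2 * N * (r + 1) * C2) ≤ n ^ 2 / D * D :=
      Nat.mul_le_mul_left _ (by omega)
    have h3 : C2 * (2 * (N * ((n ^ 2 / D) * (r + 1)))) ≤ C2 * N' := by
      calc C2 * (2 * (N * ((n ^ 2 / D) * (r + 1)))) = n ^ 2 / D * (2 * N * (r + 1) * C2) := by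
            ring
        _ ≤ n ^ 2 / D * D := h2
        _ ≤ n ^ 2 := h1
        _ ≤ C2 * N' := hn2
    exact Nat.le_of_mul_le_mul_left h3 (by norm_num [hC2])
  have hexp : 2 * Fintype.card (Mu p l × Rest M m) + (n ^ 2 / D) * (r + 1) ≤ N' / N := by
    rw [Nat.le_div_iff_mul_le hN]
    have h1 : (2 * Fintype.card (Mu p l × Rest M m) + (n ^ 2 / D) * (r + 1)) * N =
        N * (2 * Fintype.card (Mu p l × Rest M m)) + N * ((n ^ 2 / D) * (r + 1)) := by ring
    omega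
  have hKbig : 2 ^ N' ≤ 2 ^ (N' / N) * Bk.K.card := by
    calc 2 ^ N' ≤ 2 ^ (2 * Fintype.card (Mu p l × Rest M m)) * G0.card := hzeros
      _ ≤ 2 ^ (2 * Fintype.card (Mu p l × Rest M m)) *
          (Fintype.card P.State ^ (r + 1) * Bk.K.card) := Nat.mul_le_mul_left _ hB1
      _ ≤ 2 ^ (2 * Fintype.card (Mu p l × Rest M m)) *
          ((2 ^ (n ^ 2 / D)) ^ (r + 1) * Bk.K.card) := by
          apply Nat.mul_le_mul_left
          exact Nat.mul_le_mul_right _ (Nat.pow_le_pow_left hPs.le _)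
      _ = 2 ^ (2 * Fintype.card (Mu p l × Rest M m) + (n ^ 2 / D) * (r + 1)) * Bk.K.card := by
          rw [← pow_mul, ← mul_assoc, ← pow_add]
      _ ≤ 2 ^ (N' / N) * Bk.K.card :=
          Nat.mul_le_mul_right _ (Nat.pow_le_pow_right (by norm_num) hexp)
  obtain ⟨a, b, g, ha, hb, hga, hgb, hR⟩ := hmain N' (by omega) s hs2 Bk hKbig
  have hKform : ∀ x ∈ Bk.K, ∀ γ : Mu p l × Rest M m, Fm γ x = 0 := by
    intro x hx γ
    obtain ⟨l', hl'⟩ := hB2 x hx
    obtain ⟨l'', -, hl''⟩ := hP'2 x l' false hl'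
    obtain ⟨G, hG1, hG2⟩ := hφ x
    have h1 := hPf G (subs φ x) hG1 _ hl''
    rw [hG2] at h1
    push Not at h1
    exact h1 γ
  have hl1 := hl M
  have hl2 := hl m
  refine no_rect (q := 2 * Q) hp hp3 (by omega) (Mix.weaken hl1 (by omega)) hl2 Bk.K a b g hR
    hKform ?_ ?_
  · calc p * p * nr M m ≤ Q * a := ha
      _ ≤ Q * (2 * (a - g)) := Nat.mul_le_mul_left _ (by omega)
      _ = 2 * Q * (a - g) := by ring
  · calc p * p * nr M m ≤ Q * b := hb
      _ ≤ Q * (2 * (b - g)) := Nat.mul_le_mul_left _ (by omega)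
      _ = 2 * Q * (b - g) := by ring

end Pool.Agent.W952.LT
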