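import Pool.Agent.W952.Mixg

set_option autoImplicit false

/-! Words in the four Gabber-Galil maps join all pairs of sets of positive density. -/

open Finset

namespace Pool.Agent.W952.Mx

open Pool.Agent.H518R4.UG

section

variable {m : ℕ} [NeZero m]

/-- the maps -/
def gen (m : ℕ) [NeZero m] : Option (Fin 4) → Equiv.Perm (ZMod m × ZMod m)
  | none => 1
  | some 0 => cexp_s1
  | some 1 => cexp_s2
  | some 2 => cexp_s3
  | some 3 => cexp_s4

/-- the action of a word -/
def act (m : ℕ) [NeZero m] : (l : ℕ) → (Fin l → Option (Fin 4)) → Equiv.Perm (ZMod m × ZMod m)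
  | 0, _ => 1
  | l + 1, w => act m l (fun i => w i.succ) * gen m (w 0)

/-- the change under a permutation -/
theorem diff_card (S : Finset (ZMod m × ZMod m)) (σ : Equiv.Perm (ZMod m × ZMod m)) :
    ∑ v, ((if σ v ∈ S then (1 : ℝ) else 0) - (if v ∈ S then 1 else 0)) ^ 2 =
      2 * ((univ.filter (fun v => σ v ∈ S ∧ v ∉ S)).card : ℝ) := by
  have h1 : ∑ v, (if σ v ∈ S then (1 : ℝ) else 0) = ∑ v, (if v ∈ S then (1 : ℝ) else 0) :=
    Equiv.sum_comp σ (fun v => if v ∈ S then (1 : ℝ) else 0)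
  have h2 : ∀ v, ((if σ v ∈ S then (1 : ℝ) else 0) - (if v ∈ S then 1 else 0)) ^ 2 =
      2 * (if σ v ∈ S ∧ v ∉ S then 1 else 0) -
        ((if σ v ∈ S then (1 : ℝ) else 0) - (if v ∈ S then 1 else 0)) := by
    intro v
    by_cases h3 : σ v ∈ S <;> by_cases h4 : v ∈ S <;> simp [h3, h4]
    norm_num
  rw [Finset.sum_congr rfl (fun v _ => h2 v), Finset.sum_sub_distrib, Finset.sum_sub_distrib, h1,
    sub_self, sub_zero, ← Finset.mul_sum, Finset.sum_boole]

theorem grow (S : Finset (ZMod m × ZMod m)) (hS : 2 * S.card ≤ m * m) :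
    ∃ j : Fin 4, S.card ≤ 6400 * (univ.filter (fun v => gen m (some j) v ∈ S ∧ v ∉ S)).card := by
  set c : ℝ := (S.card : ℝ) / (m * m : ℝ) with hc
  have hm : (0 : ℝ) < m := by exact_mod_cast Nat.pos_of_ne_zero (NeZero.ne m)
  have hcm : c * (m * m : ℝ) = S.card := by
    rw [hc]; field_simp
  have hcard : ((univ : Finset (ZMod m × ZMod m)).card : ℝ) = m * m := by
    rw [Finset.card_univ, Fintype.card_prod, ZMod.card]
    push_cast
    ring
  have hind : ∑ v : ZMod m × ZMod m, (if v ∈ S then (1 : ℝ) else 0) = S.card := by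
    rw [Finset.sum_boole]
    simp
  have hzero : ∑ v : ZMod m × ZMod m, (((if v ∈ S then (1 : ℝ) else 0) - c : ℝ) : ℂ) = 0 := by
    rw [← Complex.ofReal_sum, Finset.sum_sub_distrib, hind, Finset.sum_const, nsmul_eq_mul, hcard,
      mul_comm, hcm, sub_self, Complex.ofReal_zero]
  have key := p_CEXP p_BURG ℂ m (fun v => (((if v ∈ S then (1 : ℝ) else 0) - c : ℝ) : ℂ)) hzero
  have hn : ∀ x : ℝ, ‖((x : ℝ) : ℂ)‖ ^ 2 = x ^ 2 := by
    intro x
    rw [Complex.norm_real, Real.norm_eq_abs, sq_abs]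
  have hleft : ∑ v : ZMod m × ZMod m, ‖(((if v ∈ S then (1 : ℝ) else 0) - c : ℝ) : ℂ)‖ ^ 2 =
      S.card * (1 - c) := by
    simp only [hn]
    have h2 : ∀ v : ZMod m × ZMod m, ((if v ∈ S then (1 : ℝ) else 0) - c) ^ 2 =
        (1 - 2 * c) * (if v ∈ S then (1 : ℝ) else 0) + c ^ 2 := by
      intro v
      split_ifs <;> ring
    rw [Finset.sum_congr rfl (fun v _ => h2 v), Finset.sum_add_distrib, ← Finset.mul_sum, hind,
      Finset.sum_const, nsmul_eq_mul, hcard]
    have : (m * m : ℝ) * c ^ 2 = c * (c * (m * m)) := by ring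
    rw [this, hcm]
    ring
  have hdiff : ∀ σ : Equiv.Perm (ZMod m × ZMod m),
      ∑ v : ZMod m × ZMod m, ‖(((if σ v ∈ S then (1 : ℝ) else 0) - c : ℝ) : ℂ) -
        (((if v ∈ S then (1 : ℝ) else 0) - c : ℝ) : ℂ)‖ ^ 2 =
      2 * ((univ.filter (fun v => σ v ∈ S ∧ v ∉ S)).card : ℝ) := by
    intro σ
    rw [← diff_card]
    apply Finset.sum_congr rfl
    intro v _
    rw [← Complex.ofReal_sub, hn]
    congr 1
    ring
  have e1 := hdiff cexp_s1
  have e2 := hdiff cexp_s2
  have e3 := hdiff cexp_s3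
  have e4 := hdiff cexp_s4
  rw [hleft] at key
  have key2 : (S.card : ℝ) * (1 - c) ≤ 400 * (
      2 * ((univ.filter (fun v => gen m (some 0) v ∈ S ∧ v ∉ S)).card : ℝ) +
      2 * ((univ.filter (fun v => gen m (some 1) v ∈ S ∧ v ∉ S)).card : ℝ) +
      2 * ((univ.filter (fun v => gen m (some 2) v ∈ S ∧ v ∉ S)).card : ℝ) +
      2 * ((univ.filter (fun v => gen m (some 3) v ∈ S ∧ v ∉ S)).card : ℝ)) := by
    show _ ≤ 400 * (2 * ((univ.filter (fun v => cexp_s1 v ∈ S ∧ v ∉ S)).card : ℝ) +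
      2 * ((univ.filter (fun v => cexp_s2 v ∈ S ∧ v ∉ S)).card : ℝ) +
      2 * ((univ.filter (fun v => cexp_s3 v ∈ S ∧ v ∉ S)).card : ℝ) +
      2 * ((univ.filter (fun v => cexp_s4 v ∈ S ∧ v ∉ S)).card : ℝ))
    rw [← e1, ← e2, ← e3, ← e4]
    exact key
  have hc2 : c ≤ 1 / 2 := by
    rw [hc, div_le_iff₀ (by positivity)]
    have : ((2 * S.card : ℕ) : ℝ) ≤ ((m * m : ℕ) : ℝ) := by exact_mod_cast hS
    push_cast at this
    linarith
  by_contra hcon
  push Not at hcon
  have h0 := hcon 0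
  have h1 := hcon 1
  have h2 := hcon 2
  have h3 := hcon 3
  have hSp : (0 : ℝ) < S.card := by
    have : 0 < S.card := by omega
    exact_mod_cast this
  have g0 : (6400 : ℝ) * ((univ.filter (fun v => gen m (some 0) v ∈ S ∧ v ∉ S)).card : ℝ) <
      S.card := by exact_mod_cast h0
  have g1 : (6400 : ℝ) * ((univ.filter (fun v => gen m (some 1) v ∈ S ∧ v ∉ S)).card : ℝ) <
      S.card := by exact_mod_cast h1
  have g2 : (6400 : ℝ) * ((univ.filter (fun v => gen m (some 2) v ∈ S ∧ v ∉ S)).card : ℝ) <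
      S.card := by exact_mod_cast h2
  have g3 : (6400 : ℝ) * ((univ.filter (fun v => gen m (some 3) v ∈ S ∧ v ∉ S)).card : ℝ) <
      S.card := by exact_mod_cast h3
  nlinarith

/-- the points from which a word leads to `U` -/
noncomputable def reach (U : Finset (ZMod m × ZMod m)) (l : ℕ) : Finset (ZMod m × ZMod m) := by
  classical
  exact univ.filter (fun z => ∃ w : Fin l → Option (Fin 4), act m l w z ∈ U)

theorem mem_reach {U : Finset (ZMod m × ZMod m)} {l : ℕ} {z : ZMod m × ZMod m} :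
    z ∈ reach U l ↔ ∃ w : Fin l → Option (Fin 4), act m l w z ∈ U := by
  unfold reach
  simp

theorem reach_step (U : Finset (ZMod m × ZMod m)) (l : ℕ) (j : Option (Fin 4))
    {z : ZMod m × ZMod m} (h : gen m j z ∈ reach U l) : z ∈ reach U (l + 1) := by
  rw [mem_reach] at h ⊢
  obtain ⟨w, hw⟩ := h
  refine ⟨Fin.cons j w, ?_⟩
  simp only [act, Fin.cons_succ, Fin.cons_zero, Equiv.Perm.mul_apply]
  exact hw

theorem reach_mono (U : Finset (ZMod m × ZMod m)) (l : ℕ) : reach U l ⊆ reach U (l + 1) := by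
  intro z hz
  exact reach_step U l none (by simpa [gen] using hz)

theorem reach_grow (U : Finset (ZMod m × ZMod m)) (l : ℕ)
    (h : 2 * (reach U l).card ≤ m * m) :
    6401 * (reach U l).card ≤ 6400 * (reach U (l + 1)).card := by
  obtain ⟨j, hj⟩ := grow (reach U l) h
  have h1 : reach U l ∪ univ.filter (fun v => gen m (some j) v ∈ reach U l ∧ v ∉ reach U l) ⊆
      reach U (l + 1) := by
    intro z hz
    rw [Finset.mem_union] at hz
    rcases hz with hz | hz
    · exact reach_mono U l hz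
    · rw [Finset.mem_filter] at hz
      exact reach_step U l (some j) hz.2.1
  have h2 := Finset.card_le_card h1
  rw [Finset.card_union_of_disjoint] at h2
  · omega
  · rw [Finset.disjoint_left]
    intro z hz hz'
    rw [Finset.mem_filter] at hz'
    exact hz'.2.2 hz

theorem reach_pow (U : Finset (ZMod m × ZMod m)) (l : ℕ)
    (h : 2 * (reach U l).card ≤ m * m) :
    6401 ^ l * U.card ≤ 6400 ^ l * (reach U l).card := by
  induction l with
  | zero =>
    have : U ⊆ reach U 0 := by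
      intro z hz
      rw [mem_reach]
      exact ⟨fun _ => none, by simpa [act] using hz⟩
    simpa using Finset.card_le_card this
  | succ l ih =>
    have h1 := Finset.card_le_card (reach_mono U l)
    have h2 := ih (by omega)
    have h3 := reach_grow U l (by omega)
    calc 6401 ^ (l + 1) * U.card = 6401 * (6401 ^ l * U.card) := by ring
      _ ≤ 6401 * (6400 ^ l * (reach U l).card) := Nat.mul_le_mul_left _ h2
      _ = 6400 ^ l * (6401 * (reach U l).card) := by ring
      _ ≤ 6400 ^ l * (6400 * (reach U (l + 1)).card) := Nat.mul_le_mul_left _ h3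
      _ = 6400 ^ (l + 1) * (reach U (l + 1)).card := by ring

end

/-- two words -/
abbrev Wd (l : ℕ) : Type := (Fin l → Option (Fin 4)) × (Fin l → Option (Fin 4))

/-- the action of two words -/
def act2 (m : ℕ) [NeZero m] {l : ℕ} (w : Wd l) : Equiv.Perm (ZMod m × ZMod m) :=
  act m l w.2 * (act m l w.1)⁻¹

theorem words (q : ℕ) : ∃ l : ℕ, ∀ m : ℕ, ∀ [NeZero m],
    Mix (ZMod m × ZMod m) (fun u v => ∃ w : Wd l, v = act2 m w u) q := by
  obtain ⟨l, hl⟩ := pow_unbounded_of_one_lt (q : ℝ) (show (1 : ℝ) < 6401 / 6400 by norm_num)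
  refine ⟨l, ?_⟩
  intro m _ U W hU hW
  have hl' : q * 6400 ^ l < 6401 ^ l := by
    rw [div_pow, lt_div_iff₀ (by positivity)] at hl
    exact_mod_cast hl
  have hm : 0 < m := Nat.pos_of_ne_zero (NeZero.ne m)
  have big : ∀ U : Finset (ZMod m × ZMod m), Fintype.card (ZMod m × ZMod m) ≤ q * U.card →
      m * m < 2 * (reach U l).card := by
    intro U hU
    by_contra hcon
    push Not at hcon
    have h1 := reach_pow U l hcon
    rw [Fintype.card_prod, ZMod.card] at hU
    have h2 : 2 * (6401 ^ l * (m * m)) ≤ q * 6400 ^ l * (m * m) := by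
      calc 2 * (6401 ^ l * (m * m)) ≤ 2 * (6401 ^ l * (q * U.card)) :=
            Nat.mul_le_mul_left _ (Nat.mul_le_mul_left _ hU)
        _ = 2 * (q * (6401 ^ l * U.card)) := by ring
        _ ≤ 2 * (q * (6400 ^ l * (reach U l).card)) :=
            Nat.mul_le_mul_left _ (Nat.mul_le_mul_left _ h1)
        _ = q * 6400 ^ l * (2 * (reach U l).card) := by ring
        _ ≤ q * 6400 ^ l * (m * m) := Nat.mul_le_mul_left _ hcon
    have h3 : 0 < m * m := Nat.mul_pos hm hm
    have h4 : q * 6400 ^ l * (m * m) < 6401 ^ l * (m * m) := Nat.mul_lt_mul_of_pos_right hl' h3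
    omega
  have h1 := big U hU
  have h2 := big W hW
  obtain ⟨z, hz⟩ : (reach U l ∩ reach W l).Nonempty := by
    rw [Finset.nonempty_iff_ne_empty]
    intro h0
    have h3 := Finset.card_union_add_card_inter (reach U l) (reach W l)
    rw [h0, Finset.card_empty] at h3
    have h4 := Finset.card_le_univ (reach U l ∪ reach W l)
    rw [Fintype.card_prod, ZMod.card] at h4
    omega
  rw [Finset.mem_inter, mem_reach, mem_reach] at hz
  obtain ⟨⟨s, hs⟩, ⟨s', hs'⟩⟩ := hz
  refine ⟨_, hs, _, hs', (s, s'), ?_⟩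
  simp [act2]

end Pool.Agent.W952.Mx
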