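import Pool.Agent.H518R4.UG.CEXP
import Pool.Agent.H518R4.UG.BURG
import Pool.Agent.H822R5.LN.EXP

set_option autoImplicit false

/-! Sets of positive density are joined by an edge of a sparse graph. -/

open Finset

namespace Pool.Agent.W952.Mx

/-- Two sets of density at least `1 / q` are joined. -/
def Mix (X : Type) [Fintype X] (E : X → X → Prop) (q : ℕ) : Prop :=
  ∀ U W : Finset X, Fintype.card X ≤ q * U.card → Fintype.card X ≤ q * W.card →
    ∃ u ∈ U, ∃ w ∈ W, E u w

theorem sections {X Y : Type} [Fintype X] [Fintype Y] [DecidableEq X] [DecidableEq Y]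
    [Nonempty X] (q : ℕ) (U : Finset (X × Y)) (hU : Fintype.card (X × Y) ≤ q * U.card) :
    Fintype.card Y ≤ (2 * q) * (univ.filter (fun y : Y =>
      Fintype.card X ≤ (2 * q) * (univ.filter (fun x : X => (x, y) ∈ U)).card)).card := by
  set sec : Y → ℕ := fun y => (univ.filter (fun x : X => (x, y) ∈ U)).card with hsec
  set YU := univ.filter (fun y : Y => Fintype.card X ≤ (2 * q) * sec y) with hYU
  have h1 : U.card = ∑ y : Y, sec y := by
    rw [Finset.card_eq_sum_card_fiberwise (f := Prod.snd) (t := univ) (fun _ _ => by simp)]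
    apply Finset.sum_congr rfl
    intro y _
    rw [hsec]
    apply Finset.card_bij (fun a _ => a.1)
    · rintro ⟨x, y'⟩ ha
      simp only [mem_filter] at ha
      simp only [mem_filter, mem_univ, true_and]
      rw [← ha.2]
      exact ha.1
    · rintro ⟨x, y'⟩ ha ⟨x', y''⟩ ha' h
      simp only [mem_filter] at ha ha'
      simp only at h
      rw [h, ha.2, ha'.2]
    · intro x hx
      simp only [mem_filter, mem_univ, true_and] at hx
      exact ⟨(x, y), by simp [hx], rfl⟩
  have h2 : 2 * q * ∑ y : Y, sec y ≤ 2 * q * (YU.card * Fintype.card X) +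
      Fintype.card Y * Fintype.card X := by
    rw [Finset.mul_sum, ← Finset.sum_filter_add_sum_filter_not univ
      (fun y : Y => Fintype.card X ≤ (2 * q) * sec y)]
    apply Nat.add_le_add
    · rw [← hYU]
      calc ∑ y ∈ YU, 2 * q * sec y ≤ ∑ y ∈ YU, 2 * q * Fintype.card X := by
            apply Finset.sum_le_sum
            intro y _
            exact Nat.mul_le_mul_left _ (Finset.card_le_univ _)
        _ = 2 * q * (YU.card * Fintype.card X) := by
            rw [Finset.sum_const, smul_eq_mul]; ring
    · calc ∑ y ∈ univ.filter (fun y : Y => ¬ Fintype.card X ≤ (2 * q) * sec y), 2 * q * sec y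
          ≤ ∑ y ∈ univ.filter (fun y : Y => ¬ Fintype.card X ≤ (2 * q) * sec y),
            Fintype.card X := by
            apply Finset.sum_le_sum
            intro y hy
            rw [Finset.mem_filter] at hy
            omega
        _ = (univ.filter (fun y : Y => ¬ Fintype.card X ≤ (2 * q) * sec y)).card *
            Fintype.card X := by
            rw [Finset.sum_const, smul_eq_mul]
        _ ≤ Fintype.card Y * Fintype.card X :=
            Nat.mul_le_mul_right _ (Finset.card_le_univ _)
  rw [← h1] at h2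
  rw [Fintype.card_prod] at hU
  have hX : 0 < Fintype.card X := Fintype.card_pos
  have h3 : Fintype.card X * Fintype.card Y ≤ Fintype.card X * (2 * q * YU.card) := by
    have e1 : 2 * q * U.card = 2 * (q * U.card) := by ring
    have e2 : Fintype.card X * (2 * q * YU.card) = 2 * q * (YU.card * Fintype.card X) := by ring
    have e3 : Fintype.card Y * Fintype.card X = Fintype.card X * Fintype.card Y := by ring
    rw [e2]
    omega
  exact Nat.le_of_mul_le_mul_left h3 hX

theorem Mix.prod {X Y : Type} [Fintype X] [Fintype Y] [DecidableEq X] [DecidableEq Y]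
    [Nonempty X] {E : X → X → Prop} {F : Y → Y → Prop} {q : ℕ} (hE : Mix X E (2 * q))
    (hF : Mix Y F (2 * q)) : Mix (X × Y) (fun u w => E u.1 w.1 ∧ F u.2 w.2) q := by
  intro U W hU hW
  obtain ⟨y, hy, y', hy', hF'⟩ := hF _ _ (sections q U hU) (sections q W hW)
  rw [Finset.mem_filter] at hy hy'
  obtain ⟨x, hx, x', hx', hE'⟩ := hE _ _ hy.2 hy'.2
  rw [Finset.mem_filter] at hx hx'
  exact ⟨(x, y), hx.2, (x', y'), hx'.2, hE', hF'⟩

theorem Mix.mono {X : Type} [Fintype X] {E F : X → X → Prop} {q : ℕ} (h : Mix X E q)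
    (hEF : ∀ u w, E u w → F u w) : Mix X F q := by
  intro U W hU hW
  obtain ⟨u, hu, w, hw, he⟩ := h U W hU hW
  exact ⟨u, hu, w, hw, hEF _ _ he⟩

/-- transport along a bijection -/
theorem Mix.equiv {X Y : Type} [Fintype X] [Fintype Y] [DecidableEq Y] (e : X ≃ Y)
    {E : Y → Y → Prop}
    {q : ℕ} (h : Mix Y E q) : Mix X (fun u w => E (e u) (e w)) q := by
  intro U W hU hW
  rw [Fintype.card_congr e] at hU hW
  obtain ⟨u, hu, w, hw, he⟩ := h (U.image e) (W.image e)
    (by rwa [Finset.card_image_of_injective _ e.injective])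
    (by rwa [Finset.card_image_of_injective _ e.injective])
  rw [Finset.mem_image] at hu hw
  obtain ⟨u', hu', rfl⟩ := hu
  obtain ⟨w', hw', rfl⟩ := hw
  exact ⟨u', hu', w', hw', he⟩

open Pool.Agent.H822R5.LN in
theorem parab {p q : ℕ} (hp : p.Prime) (hp3 : 3 ≤ p) (hpq : q * q < p) :
    Mix (Fin (p * p)) (fun u v => pos p u + pos p v ∈ Sp p) q := by
  intro P R hP hR
  by_contra hcon
  push Not at hcon
  have h := Pool.Agent.H822R5.LN.TEXP.EXP p hp hp3 P R (fun u hu v hv => hcon u hu v hv)
  rw [Fintype.card_fin] at hP hR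
  have h1 : (p * p) * (p * p) ≤ (q * P.card) * (q * R.card) := Nat.mul_le_mul hP hR
  have h2 : (q * P.card) * (q * R.card) ≤ q * q * p ^ 3 := by
    calc (q * P.card) * (q * R.card) = q * q * (P.card * R.card) := by ring
      _ ≤ q * q * p ^ 3 := Nat.mul_le_mul_left _ h
  have h3 : p * p ^ 3 ≤ q * q * p ^ 3 := by
    calc p * p ^ 3 = (p * p) * (p * p) := by ring
      _ ≤ _ := h1.trans h2
  have h4 : p ≤ q * q := Nat.le_of_mul_le_mul_right h3 (by have := hp.pos; positivity)
  omega

end Pool.Agent.W952.Mx
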