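import Pool.Agent.W952.Appl
import Pool.Agent.H554R2.Coin.Defs

set_option autoImplicit false

/-! Substitution of literals and constants in a branching program. -/

namespace Pool.Agent.W952.Plug

open Pool.Agent.H554R2.Sem Pool.Agent.H554R2.Coin Pool.Agent.W952.Ap

variable {E : Type} {m : ℕ}

/-- the nodes of the new program -/
def nd (hm : 0 < m) (φ : E → (Fin m × Bool) ⊕ Bool) {S : Type}
    (a : (E × (Bool → S)) ⊕ Bool) : (Fin m × (Bool → S)) ⊕ Bool :=
  match a with
  | Sum.inl (j, nxt) =>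
    match φ j with
    | Sum.inl (v, s) => Sum.inl (v, fun b => nxt (decide (b = s)))
    | Sum.inr c => Sum.inl (⟨0, hm⟩, fun _ => nxt c)
  | Sum.inr b => Sum.inr b

/-- the new program -/
def prog (hm : 0 < m) (φ : E → (Fin m × Bool) ⊕ Bool) (P : BP E Bool) : BP (Fin m) Bool where
  State := P.State
  start := P.start
  node := fun s => nd hm φ (P.node s)

/-- the variable queried instead of `j` -/
def vr (hm : 0 < m) (φ : E → (Fin m × Bool) ⊕ Bool) (j : E) : Fin m :=
  match φ j with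
  | Sum.inl (v, _) => v
  | Sum.inr _ => ⟨0, hm⟩

theorem nd_inl (hm : 0 < m) (φ : E → (Fin m × Bool) ⊕ Bool) {S : Type}
    (a : (E × (Bool → S)) ⊕ Bool) (j : E) (nxt : Bool → S) (h : a = Sum.inl (j, nxt)) :
    ∃ nxt' : Bool → S, nd hm φ a = Sum.inl (vr hm φ j, nxt') ∧
      ∀ x : Pt m, nxt' (x (vr hm φ j)) = nxt (subs φ x j) := by
  subst h
  unfold nd vr subs
  rcases hφ : φ j with ⟨v, s⟩ | c
  · refine ⟨fun b => nxt (decide (b = s)), ?_, ?_⟩
    · simp [hφ]
    · intro x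
      simp [hφ]
  · refine ⟨fun _ => nxt c, ?_, ?_⟩
    · simp [hφ]
    · intro x
      simp [hφ]

theorem nd_inr (hm : 0 < m) (φ : E → (Fin m × Bool) ⊕ Bool) {S : Type}
    (a : (E × (Bool → S)) ⊕ Bool) (b : Bool) : nd hm φ a = Sum.inr b ↔ a = Sum.inr b := by
  constructor
  · intro h
    cases a with
    | inl p =>
      obtain ⟨j, nxt⟩ := p
      obtain ⟨nxt', h1, -⟩ := nd_inl hm φ _ j nxt rfl
      rw [h1] at h
      cases h
    | inr b' =>
      simpa [nd] using h
  · intro h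
    subst h
    rfl

theorem walk1 (hm : 0 < m) (φ : E → (Fin m × Bool) ⊕ Bool) (P : BP E Bool)
    (x : Pt m) : ∀ (l : List E) (s t : P.State), P.Walk (subs φ x) s l t →
      (prog hm φ P).Walk x s (l.map (vr hm φ)) t := by
  intro l
  induction l with
  | nil => intro s t h; exact h
  | cons j l ih =>
    intro s t h
    obtain ⟨nxt, h1, h2⟩ := h
    obtain ⟨nxt', h3, h4⟩ := nd_inl hm φ (P.node s) j nxt h1
    refine ⟨nxt', h3, ?_⟩
    have := ih _ _ h2
    rw [← h4 x] at this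
    exact this

theorem walk2 (hm : 0 < m) (φ : E → (Fin m × Bool) ⊕ Bool) (P : BP E Bool)
    (x : Pt m) : ∀ (l : List (Fin m)) (s t : P.State), (prog hm φ P).Walk x s l t →
      ∃ l' : List E, l'.length = l.length ∧ P.Walk (subs φ x) s l' t := by
  intro l
  induction l with
  | nil => intro s t h; exact ⟨[], rfl, h⟩
  | cons v l ih =>
    intro s t h
    obtain ⟨nxt, h1, h2⟩ := h
    have h1' : nd hm φ (P.node s) = Sum.inl (v, nxt) := h1
    cases hs : P.node s with
    | inr b =>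
      rw [hs] at h1'
      cases h1'
    | inl p =>
      obtain ⟨j, nx⟩ := p
      obtain ⟨nxt', h3, h4⟩ := nd_inl hm φ (P.node s) j nx hs
      rw [h3] at h1'
      have h5 : (vr hm φ j, nxt') = (v, nxt) := Sum.inl.inj h1'
      have h6 : vr hm φ j = v := congrArg Prod.fst h5
      have h7 : nxt' = nxt := congrArg Prod.snd h5
      obtain ⟨l', hl', hw⟩ := ih _ _ h2
      refine ⟨j :: l', by simp [hl'], nx, hs, ?_⟩
      rw [← h4 x, h6, h7]
      exact hw

theorem plug (hm : 0 < m) (φ : E → (Fin m × Bool) ⊕ Bool) (P : BP E Bool) :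
    ∃ P' : BP (Fin m) Bool, Fintype.card P'.State = Fintype.card P.State ∧
    (∀ x l b, P.Comp (subs φ x) l b → ∃ l', l'.length = l.length ∧ P'.Comp x l' b) ∧
    ∀ x l b, P'.Comp x l b → ∃ l', l'.length = l.length ∧ P.Comp (subs φ x) l' b := by
  refine ⟨prog hm φ P, rfl, ?_, ?_⟩
  · rintro x l b ⟨v, hw, hv⟩
    exact ⟨l.map (vr hm φ), by simp, v, walk1 hm φ P x l _ _ hw, (nd_inr hm φ _ b).2 hv⟩
  · rintro x l b ⟨v, hw, hv⟩
    obtain ⟨l', hl', hw'⟩ := walk2 hm φ P x l _ _ hw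
    exact ⟨l', hl', v, hw', (nd_inr hm φ _ b).1 hv⟩

end Pool.Agent.W952.Plug
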