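import Pool.Agent.H545R2.NPlace

set_option autoImplicit false
set_option linter.unusedSectionVars false

/-! A table of bits inside Hamiltonicity whose address is read by rows of units; the units are
switched by single pairs. -/

namespace Pool.Agent.W952

open Pool.Agent.H545R2

/-- leaves -/
abbrev Lv (A B D : Type) : Type := A ⊕ (B ⊕ D)

section

variable {b r l : ℕ} {A B D : Type}

def hS (a : Lv A B D) : Prop := ∃ p : A, a = Sum.inl p
def hE (a : Lv A B D) : Prop := ∃ q : B, a = Sum.inr (Sum.inl q)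
def hH (T : A → B → Prop) (a a' : Lv A B D) : Prop :=
  ∃ (p : A) (q : B), a = Sum.inl p ∧ a' = Sum.inr (Sum.inl q) ∧ T p q

/-- The connections: in the unit `t` of row `i` the pair of the ports `(link i t false, true)` and
`(link i (t+1) s', false)` is present only if `av i t s'`. -/
def RX (atl : Fin b → Fin r → Option (Lv A B D × Bool)) (av : Fin b → ℕ → Bool → Prop)
    (T : A → B → Prop) (p q : Sg b r l (Lv A B D) × Bool) : Prop :=
  GR atl (fun _ _ _ => True) hS hE (hH T) False p q ∧
    ∀ (i : Fin b) (t t' : Fin (l + 1)) (s' : Bool), t.val + 1 = t'.val →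
      p = (.link i t false, true) → q = (.link i t' s', false) → av i t.val s'

/-- the table graph -/
def tabG (atl : Fin b → Fin r → Option (Lv A B D × Bool)) (av : Fin b → ℕ → Bool → Prop)
    (T : A → B → Prop) (zf : ℕ) : SimpleGraph (SegV (Sg b r l (Lv A B D)) zf) :=
  segGraph (RX atl av T) (.fin : Sg b r l (Lv A B D)) zf

theorem gr_of_rx {atl : Fin b → Fin r → Option (Lv A B D × Bool)} {av : Fin b → ℕ → Bool → Prop}
    {T : A → B → Prop} {p q : Sg b r l (Lv A B D) × Bool}
    (h : GR atl (fun _ _ _ => True) hS hE (hH T) False p q)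
    (h' : ∀ (i : Fin b) (t t' : Fin (l + 1)) (s s' : Bool), t.val + 1 = t'.val →
      p = (.link i t s, true) → q = (.link i t' s', false) → av i t.val (xor s s')) :
    GR atl av hS hE (hH T) False p q := by
  cases h with
  | rail i x y s t h1 h2 => exact .rail _ _ _ _ _ h1 h2
  | first i x t s h1 h2 => exact .first _ _ _ _ h1 h2
  | dd i i' t t' s h1 h2 h3 => exact .dd _ _ _ _ _ h1 h2 h3
  | ddf i t s h1 h2 => exact .ddf _ _ _ h1 h2
  | last i x t s h1 h2 => exact .last _ _ _ _ h1 h2
  | unit i t t' s s' h1 h2 => exact .unit _ _ _ _ _ h1 (h' i t t' s s' h1 rfl rfl)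
  | att0 i k x a m h1 h2 => exact .att0 _ _ _ _ _ h1 h2
  | att1 i k x a m h1 h2 => exact .att1 _ _ _ _ _ h1 h2
  | hubS a h1 => exact .hubS a h1
  | hubL a a' h1 => exact .hubL a a' h1
  | hubE a i t h1 h2 h3 => exact .hubE a i t h1 h2 h3
  | sE i t h1 h2 h3 => exact h1.elim

theorem rx_of_gr {atl : Fin b → Fin r → Option (Lv A B D × Bool)} {av : Fin b → ℕ → Bool → Prop}
    {T : A → B → Prop} {p q : Sg b r l (Lv A B D) × Bool}
    (h : GR atl av hS hE (hH T) False p q) : RX atl av T p q := by
  constructor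
  · cases h with
    | rail i x y s t h1 h2 => exact .rail _ _ _ _ _ h1 h2
    | first i x t s h1 h2 => exact .first _ _ _ _ h1 h2
    | dd i i' t t' s h1 h2 h3 => exact .dd _ _ _ _ _ h1 h2 h3
    | ddf i t s h1 h2 => exact .ddf _ _ _ h1 h2
    | last i x t s h1 h2 => exact .last _ _ _ _ h1 h2
    | unit i t t' s s' h1 h2 => exact .unit _ _ _ _ _ h1 trivial
    | att0 i k x a m h1 h2 => exact .att0 _ _ _ _ _ h1 h2
    | att1 i k x a m h1 h2 => exact .att1 _ _ _ _ _ h1 h2
    | hubS a h1 => exact .hubS a h1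
    | hubL a a' h1 => exact .hubL a a' h1
    | hubE a i t h1 h2 h3 => exact .hubE a i t h1 h2 h3
    | sE i t h1 h2 h3 => exact h1.elim
  · intro i t t' s' ht hp hq
    subst hp
    subst hq
    cases h with
    | dd i i' t t' s h1 h2 h3 => omega
    | unit i t t' s s' h1 h2 => simpa using h2

theorem segGraph_mono {M : Type*} {R R' : M × Bool → M × Bool → Prop} (f : M) (z : ℕ)
    (h : ∀ p q, R p q → R' p q) : segGraph R f z ≤ segGraph R' f z := by
  intro u v huv
  unfold segGraph at huv ⊢
  rw [SimpleGraph.fromRel_adj] at huv ⊢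
  have key : ∀ u v, SegRel R f z u v → SegRel R' f z u v := by
    intro u v h'
    cases h' with
    | port m m' β β' h1 => exact .port _ _ _ _ (h _ _ h1)
    | mid m β h1 => exact .mid m β h1
    | midf j h1 => exact .midf j h1
    | ff j j' h1 => exact .ff j j' h1
    | fp j h1 => exact .fp j h1
  exact ⟨huv.1, huv.2.imp (key _ _) (key _ _)⟩

theorem ham_mono {V : Type*} [Fintype V] [DecidableEq V] {G H : SimpleGraph V} (h : G ≤ H)
    (hG : G.IsHamiltonian) : H.IsHamiltonian :=
  Neg.ham_of_hom' (G := G) (H := H) ⟨id, fun {_ _} hab => h hab⟩ Function.bijective_id hG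

variable [Fintype A] [Fintype B] [Fintype D] [DecidableEq A] [DecidableEq B] [DecidableEq D]

instance segDecX (b r l zf : ℕ) : DecidableEq (SegV (Sg b r l (Lv A B D)) zf) :=
  instDecidableEqSum

theorem tabG_matching {atl : Fin b → Fin r → Option (Lv A B D × Bool)}
    {av : Fin b → ℕ → Bool → Prop} {T : A → B → Prop} {zf : ℕ}
    (h : (tabG (l := l) atl av T zf).IsHamiltonian) :
    ∃ ν, Matching (l := l) atl av hS hE (hH T) False ν := by
  classical
  have h3 : 3 ≤ Fintype.card (SegV (Sg b r l (Lv A B D)) zf) := by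
    have : 1 ≤ Fintype.card (Sg b r l (Lv A B D)) := Fintype.card_pos_iff.mpr ⟨.fin⟩
    simp only [Fintype.card_sum, Fintype.card_prod, Fintype.card_option, Fintype.card_bool,
      Fintype.card_fin]
    omega
  obtain ⟨ν, hν1, hν2, hν3⟩ := seg_matching h3 h
  have hinj : ∀ p q, ν p = ν q → p = q := fun p q hpq => by rw [← hν1 p, hpq, hν1]
  -- forward side of a unit
  have hf : ∀ (i : Fin b) (t t' : Fin (l + 1)) (s' : Bool), t.val + 1 = t'.val →
      ν (.link i t false, true) = (.link i t' s', false) → av i t.val s' := by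
    intro i t t' s' ht hνe
    rcases hν2 (.link i t false, true) with h1 | h1
    · exact h1.2 i t t' s' ht rfl hνe
    · rw [hνe] at h1
      cases h1.1
  have hu : ∀ (i : Fin b) (t t' : Fin (l + 1)) (s s' : Bool), t.val + 1 = t'.val →
      ν (.link i t s, true) = (.link i t' s', false) → av i t.val (xor s s') := by
    intro i t t' s s' ht hνe
    cases s with
    | false => simpa using hf i t t' s' ht hνe
    | true =>
      have hlt := t'.isLt
      have hadj : CC atl (fun _ _ _ => True) hS hE (hH T) False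
          ((.link i t false, true) : Sg b r l (Lv A B D) × Bool) (ν (.link i t false, true)) := by
        rcases hν2 (.link i t false, true) with h1 | h1
        · exact Or.inl h1.1
        · exact Or.inr h1.1
      obtain ⟨t'', s'', h1, _, h3⟩ := nb_link_mid (by omega) hadj
      have e : t'' = t' := by ext; omega
      subst e
      have hne : s'' ≠ s' := by
        rintro rfl
        have := hinj _ _ (h3.trans hνe.symm)
        simp at this
      have h4 := hf i t t'' s'' ht h3
      have e2 : xor true s' = s'' := by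
        revert hne
        cases s' <;> cases s'' <;> simp
      rw [e2]
      exact h4
  refine ⟨ν, ⟨hν1, ?_, hν3⟩⟩
  intro p
  rcases hν2 p with h1 | h1
  · left
    refine gr_of_rx h1.1 ?_
    intro i t t' s s' ht hp hq
    rw [hp] at hq
    exact hu i t t' s s' ht hq
  · right
    refine gr_of_rx h1.1 ?_
    intro i t t' s s' ht hp hq
    have : ν (.link i t s, true) = (.link i t' s', false) := by
      rw [← hp, hν1, hq]
    exact hu i t t' s s' ht this

theorem tabG_forward {atl : Fin b → Fin r → Option (Lv A B D × Bool)}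
    {av : Fin b → ℕ → Bool → Prop} {T : A → B → Prop} {zf : ℕ}
    (h : (tabG (l := l) atl av T zf).IsHamiltonian) :
    ∃ z : Fin b → ℕ → Bool, (∀ i t, t < l → av i t (z i t)) ∧ ∃ p q, T p q ∧
      ∀ a : Lv A B D, a ≠ Sum.inl p → a ≠ Sum.inr (Sum.inl q) →
        ∃ i k, atl i k = some (a, strand (z i) l) := by
  classical
  obtain ⟨ν, hν⟩ := tabG_matching h
  obtain ⟨z, hz, hmode⟩ := hν.modes
  have hside := hν.sides hmode
  refine ⟨z, hz, ?_⟩
  -- the partner of the port of `fin`
  obtain ⟨p, hp⟩ : ∃ p : A, ν (.fin, true) = (.leaf (Sum.inl p), false) := by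
    have hc := hν.adj (.fin, true)
    rcases hc with hc | hc
    · generalize ν (.fin, true) = w at hc
      cases hc with
      | hubS a h1 =>
        obtain ⟨p, rfl⟩ := h1
        exact ⟨p, rfl⟩
      | sE i t h1 h2 h3 => exact h1.elim
    · generalize ν (.fin, true) = w at hc
      cases hc
  have hp' := hν.eq_comm' hp
  obtain ⟨q, hT, hq⟩ : ∃ q : B, T p q ∧ ν (.leaf (Sum.inl p), true) =
      (.leaf (Sum.inr (Sum.inl q)), false) := by
    rcases hside (Sum.inl p) with ⟨_, ⟨i, x, s, h1⟩, _⟩ | ⟨_, h1 | h1⟩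
    · rw [hp'] at h1
      simp at h1
    · obtain ⟨⟨q, hq⟩, _⟩ := h1
      simp at hq
    · obtain ⟨a', ⟨p', q, e1, e2, hT⟩, h2⟩ := h1
      simp only [Sum.inl.injEq] at e1
      subst e1
      subst e2
      exact ⟨q, hT, h2⟩
  have hq' := hν.eq_comm' hq
  obtain ⟨i0, t0, hi0, ht0, hl0⟩ : ∃ (i : Fin b) (t : Fin (l + 1)), i.val = 0 ∧ t.val = 0 ∧
      ν (.leaf (Sum.inr (Sum.inl q)), true) = (.link i t false, false) := by
    rcases hside (Sum.inr (Sum.inl q)) with ⟨_, ⟨i, x, s, h1⟩, _⟩ | ⟨_, h1 | h1⟩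
    · rw [hq'] at h1
      simp at h1
    · exact h1.2
    · obtain ⟨a', ⟨p', q', e1, _, _⟩, _⟩ := h1
      simp at e1
  refine ⟨p, q, hT, ?_⟩
  intro a ha1 ha2
  rcases hside a with ⟨h1, _, _⟩ | ⟨h1, h2⟩
  · exact h1
  exfalso
  rcases h1 with ⟨_, h1⟩ | ⟨a', ⟨p', q', e1, e2, _⟩, _⟩
  · apply ha1
    have := hν.inj (h1.trans hp'.symm)
    simpa using this
  · subst e2
    rcases h2 with ⟨_, i, t, hi, ht, h2⟩ | ⟨a'', ⟨p'', q'', e3, _, _⟩, _⟩
    · apply ha2
      have ei : i = i0 := by ext; omega
      have et : t = t0 := by ext; omega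
      rw [ei, et] at h2
      have := hν.inj (h2.trans hl0.symm)
      simpa using this
    · simp at e3

theorem tabG_back {atl : Fin b → Fin r → Option (Lv A B D × Bool)}
    {av : Fin b → ℕ → Bool → Prop} {T : A → B → Prop} {zf : ℕ} (hb : 0 < b) (hr : 0 < r)
    (h : ∃ z : Fin b → ℕ → Bool, (∀ i t, t < l → av i t (z i t)) ∧ ∃ p q, T p q ∧
      ∀ a : Lv A B D, a ≠ Sum.inl p → a ≠ Sum.inr (Sum.inl q) →
        ∃ i k, atl i k = some (a, strand (z i) l)) :
    (tabG (l := l) atl av T zf).IsHamiltonian := by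
  classical
  obtain ⟨z, hz, p, q, hT, hcov⟩ := h
  have hcov' : ∀ a : Lv A B D, a ∉ [Sum.inl p, Sum.inr (Sum.inl q)] →
      ∃ ik : Fin b × Fin r, atl ik.1 ik.2 = some (a, strand (z ik.1) l) := by
    intro a ha
    simp only [List.mem_cons, List.not_mem_nil, or_false, not_or] at ha
    obtain ⟨i, k, h⟩ := hcov a ha.1 ha.2
    exact ⟨(i, k), h⟩
  haveI : Nonempty (Fin b × Fin r) := ⟨(⟨0, hb⟩, ⟨0, hr⟩)⟩
  choose! ch hch using hcov'
  let cov : Lv A B D → Option (Fin b × Fin r) := fun a =>
    if a ∈ [Sum.inl p, Sum.inr (Sum.inl q)] then none else some (ch a)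
  have key := gadget_back (l := l) (atl := atl) (ok := av) (hs := hS) (he := hE) (hh := hH T)
    (se := False) hb zf z hz [Sum.inl p, Sum.inr (Sum.inl q)] (by simp) cov ?_ ?_ ?_ ?_ ?_ ?_
  · exact ham_mono (segGraph_mono _ _ (fun p q h => rx_of_gr h)) key
  · intro a i k h
    simp only [cov] at h
    split_ifs at h with ha
    simp only [Option.some.injEq] at h
    have := hch a ha
    rw [h] at this
    exact this
  · intro a
    simp only [cov]
    split_ifs with ha <;> simp [ha]
  · simp only [List.isChain_cons_cons, List.isChain_singleton, and_true]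
    exact ⟨p, q, rfl, rfl, hT⟩
  · intro a ha
    simp only [List.head?_cons, Option.mem_def, Option.some.injEq] at ha
    exact ⟨p, ha.symm⟩
  · intro a ha
    simp only [List.getLast?_cons_cons, List.getLast?_singleton, Option.mem_def,
      Option.some.injEq] at ha
    exact ⟨q, ha.symm⟩
  · intro h
    simp at h

theorem tabG_iff {atl : Fin b → Fin r → Option (Lv A B D × Bool)}
    {av : Fin b → ℕ → Bool → Prop} {T : A → B → Prop} {zf : ℕ} (hb : 0 < b) (hr : 0 < r) :
    (tabG (l := l) atl av T zf).IsHamiltonian ↔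
    ∃ z : Fin b → ℕ → Bool, (∀ i t, t < l → av i t (z i t)) ∧ ∃ p q, T p q ∧
      ∀ a : Lv A B D, a ≠ Sum.inl p → a ≠ Sum.inr (Sum.inl q) →
        ∃ i k, atl i k = some (a, strand (z i) l) :=
  ⟨tabG_forward, tabG_back hb hr⟩

end

end Pool.Agent.W952
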